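import Pool.Agent.TM2Lib.Closure

/-!
# Strings as trees

`ofBits l` is the tree list of the bits of `l`; `Comp.bits` computes it from `l` itself, for any
family of strings.  In particular an iteration count equal to the length of the whole input code is
available.
-/

namespace Pool.Agent.TM2Lib

open Function Turing D

/-- the tree list of the bits of a string -/
def D.ofBits : List Bool → D
  | [] => nil
  | b :: l => cons (ofBool b) (ofBits l)

theorem D.len_ofBits (l : List Bool) : (ofBits l).len = l.length := by
  induction l with
  | nil => rfl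
  | cons b l ih => simp only [ofBits, D.len, ih, List.length_cons]

theorem D.size_ofBits_le (l : List Bool) : (ofBits l).size ≤ 4 * l.length + 1 := by
  induction l with
  | nil => simp [ofBits]
  | cons b l ih =>
    simp only [ofBits, size_cons, List.length_cons]
    rcases b with _ | _ <;> simp [ofBool] <;> omega

/-- one round of the loop of `Comp.bits` -/
def bitsBody : Frag (Fin 3) (GB (Fin 3)) :=
  Frag.ite 1 (fun o => o == some true)
    ((Frag.pop 1).seq ((Frag.push 2 false).seq ((Frag.push 2 false).seq ((Frag.push 2 true).seq
      (Frag.push 2 true)))))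
    ((Frag.pop 1).seq ((Frag.push 2 false).seq (Frag.push 2 true)))

theorem bits_loop (r : List Bool) : ∀ (t : List Bool),
    ∃ n ≤ 8 * r.length + 1,
      (Frag.whl 1 (fun o => o.isSome) bitsBody).Run
        ![[], r, encD (ofBits t)] ![[], [], encD (ofBits (r.reverse ++ t))] n := by
  induction r with
  | nil =>
    intro t
    exact ⟨1, by simp, Frag.whl_stop rfl⟩
  | cons b r ih =>
    intro t
    obtain ⟨n, hn, hr⟩ := ih (b :: t)
    have e : (b :: r).reverse ++ t = r.reverse ++ (b :: t) := by simp
    rw [e]
    rcases b with _ | _
    · have r1 : (Frag.pop 1 : Frag (Fin 3) (GB (Fin 3))).Run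
          ![[], false :: r, encD (ofBits t)] ![[], r, encD (ofBits t)] 1 := by
        refine popB 1 _ _ ?_ ?_
        · simp
        · intro m hm; fin_cases m <;> simp_all
      have r2 : (Frag.push 2 false : Frag (Fin 3) (GB (Fin 3))).Run
          ![[], r, encD (ofBits t)] ![[], r, false :: encD (ofBits t)] 1 := by
        refine pushB 2 _ _ _ ?_ ?_
        · simp
        · intro m hm; fin_cases m <;> simp_all
      have r3 : (Frag.push 2 true : Frag (Fin 3) (GB (Fin 3))).Run
          ![[], r, false :: encD (ofBits t)] ![[], r, encD (ofBits (false :: t))] 1 := by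
        refine pushB 2 _ _ _ ?_ ?_
        · simp [encD, ofBits, ofBool]
        · intro m hm; fin_cases m <;> simp_all
      have r4 : bitsBody.Run ![[], false :: r, encD (ofBits t)]
          ![[], r, encD (ofBits (false :: t))] _ :=
        Frag.ite_false rfl (Frag.seq_run r1 (Frag.seq_run r2 r3))
      refine ⟨_, ?_, Frag.whl_go (c := fun o => o.isSome) (k := (1 : Fin 3)) rfl r4 hr⟩
      simp only [List.length_cons]
      omega
    · have r1 : (Frag.pop 1 : Frag (Fin 3) (GB (Fin 3))).Run
          ![[], true :: r, encD (ofBits t)] ![[], r, encD (ofBits t)] 1 := by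
        refine popB 1 _ _ ?_ ?_
        · simp
        · intro m hm; fin_cases m <;> simp_all
      have r2 : (Frag.push 2 false : Frag (Fin 3) (GB (Fin 3))).Run
          ![[], r, encD (ofBits t)] ![[], r, false :: encD (ofBits t)] 1 := by
        refine pushB 2 _ _ _ ?_ ?_
        · simp
        · intro m hm; fin_cases m <;> simp_all
      have r2' : (Frag.push 2 false : Frag (Fin 3) (GB (Fin 3))).Run
          ![[], r, false :: encD (ofBits t)] ![[], r, false :: false :: encD (ofBits t)] 1 := by
        refine pushB 2 _ _ _ ?_ ?_
        · simp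
        · intro m hm; fin_cases m <;> simp_all
      have r3 : (Frag.push 2 true : Frag (Fin 3) (GB (Fin 3))).Run
          ![[], r, false :: false :: encD (ofBits t)]
          ![[], r, true :: false :: false :: encD (ofBits t)] 1 := by
        refine pushB 2 _ _ _ ?_ ?_
        · simp
        · intro m hm; fin_cases m <;> simp_all
      have r3' : (Frag.push 2 true : Frag (Fin 3) (GB (Fin 3))).Run
          ![[], r, true :: false :: false :: encD (ofBits t)]
          ![[], r, encD (ofBits (true :: t))] 1 := by
        refine pushB 2 _ _ _ ?_ ?_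
        · simp [encD, ofBits, ofBool]
        · intro m hm; fin_cases m <;> simp_all
      have r4 : bitsBody.Run ![[], true :: r, encD (ofBits t)]
          ![[], r, encD (ofBits (true :: t))] _ :=
        Frag.ite_true rfl (Frag.seq_run r1 (Frag.seq_run r2 (Frag.seq_run r2'
          (Frag.seq_run r3 r3'))))
      refine ⟨_, ?_, Frag.whl_go (c := fun o => o.isSome) (k := (1 : Fin 3)) rfl r4 hr⟩
      simp only [List.length_cons]
      omega

/-- the bits of a string as a tree -/
theorem Comp.bits {α : Type} (x : α → List Bool) : Comp x (fun a => encD (ofBits (x a))) := by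
  refine Comp.ofB (A := Fin 3) ((moveAll 0 1 (Equiv.refl Bool) (Equiv.refl Bool).symm).seq
    ((Frag.push 2 false).seq (Frag.whl 1 (fun o => o.isSome) bitsBody))) 0 2
    (10 * Polynomial.X + 3) ?_
  intro a
  have r1 : (moveAll 0 1 (Equiv.refl Bool) (Equiv.refl Bool).symm :
      Frag (Fin 3) (GB (Fin 3))).Run ![x a, [], []]
      ![[], (x a).reverse, []] (2 * (x a).length + 1) := by
    refine moveB 0 1 (by decide) _ _ (x a) [] ?_ ?_ ?_ ?_ ?_ <;> try simp
    intro m h1; fin_cases m <;> simp_all
  have r2 : (Frag.push 2 false : Frag (Fin 3) (GB (Fin 3))).Run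
      ![[], (x a).reverse, []] ![[], (x a).reverse, encD (ofBits [])] 1 := by
    refine pushB 2 _ _ _ ?_ ?_
    · simp [encD, ofBits]
    · intro m hm; fin_cases m <;> simp_all
  obtain ⟨n, hn, hr⟩ := bits_loop (x a).reverse []
  rw [List.reverse_reverse, List.append_nil] at hr
  refine ⟨_, ?_, (Frag.seq_run r1 (Frag.seq_run r2 hr)).cast ?_ ?_⟩
  · simp only [List.length_reverse] at hn
    simp only [Polynomial.eval_add, Polynomial.eval_mul, Polynomial.eval_X,
      Polynomial.eval_ofNat]
    omega
  · funext m; fin_cases m <;> rfl
  · funext m; fin_cases m <;> rfl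

end Pool.Agent.TM2Lib
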