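import Pool.Agent.TM2Lib.Arith
import Pool.Agent.TM2Lib.Bits

/-!
# More polynomial time functions: successor, length, unary arithmetic, ranges, indexing
-/

namespace Pool.Agent.TM2Lib

open Function Turing D

namespace NPC

/-- successor on binary digits with carry -/
def succR : Bool → List Bool → List Bool
  | c, [] => if c then [true] else []
  | c, b :: l => xor c b :: succR (c && b) l

theorem bval_succR (l : List Bool) : ∀ c, bval (succR c l) = bval l + c.toNat := by
  induction l with
  | nil => intro c; cases c <;> rfl
  | cons b l ih =>
    intro c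
    have h1 : bval (succR c (b :: l)) = Nat.bit (xor c b) (bval (succR (c && b) l)) := rfl
    have h2 : bval (b :: l) = Nat.bit b (bval l) := rfl
    rw [h1, h2, ih]
    cases b <;> cases c <;> simp
    all_goals ring

theorem succR_foldl (l : List Bool) : ∀ (c : Bool) (out : List Bool),
    (if (l.foldl (fun (s : Bool × List Bool) b => (s.1 && b, xor s.1 b :: s.2)) (c, out)).1
      then true :: (l.foldl (fun (s : Bool × List Bool) b => (s.1 && b, xor s.1 b :: s.2))
        (c, out)).2
      else (l.foldl (fun (s : Bool × List Bool) b => (s.1 && b, xor s.1 b :: s.2))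
        (c, out)).2).reverse = out.reverse ++ succR c l := by
  induction l with
  | nil => intro c out; cases c <;> simp [succR]
  | cons b l ih =>
    intro c out
    rw [List.foldl_cons]
    have := ih (c && b) (xor c b :: out)
    simp only at this ⊢
    rw [this, succR, List.reverse_cons, List.append_assoc]
    rfl

end NPC

open NPC

namespace Poly.NPC
variable {α β γ σ : Type} [Enc α] [Enc β] [Enc γ] [Enc σ]

theorem succ {f : α → ℕ} (hf : Poly f) : Poly (fun a => f a + 1) := by
  have h1 := foldl_add (f := fun a => (f a).bits) (g := fun _ => (true, ([] : List Bool)))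
    (h := fun p : α × ((Bool × List Bool) × Bool) => (p.2.1.1 && p.2.2,
      xor p.2.1.1 p.2.2 :: p.2.1.2)) hf.bits (const _)
    ((and Poly.id.snd'.fst'.fst' Poly.id.snd'.snd').pair
      ((bne Poly.id.snd'.fst'.fst' Poly.id.snd'.snd').cons Poly.id.snd'.fst'.snd'))
    (Polynomial.C 7) (by
      intro a s b _
      obtain ⟨c, out⟩ := s
      have h1 := sz_bool_le (c && b)
      have h2 := sz_bool_le (xor c b)
      simp only [sz_pair, sz_cons, Polynomial.eval_C]
      omega)
  have h2 := reverse (ite h1.fst' ((const true).cons h1.snd') h1.snd')
  refine (bval h2).of_eq fun a => ?_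
  have h3 := succR_foldl (f a).bits true []
  have h4 := bval_succR (f a).bits true
  rw [bval_bits] at h4
  rw [List.reverse_nil, List.nil_append] at h3
  rw [← h3] at h4
  exact h4

theorem sz_nat_le (n : ℕ) : sz n ≤ 4 * n + 1 := by
  have h1 : sz n = sz n.bits := rfl
  have h2 : ∀ l : List Bool, sz l ≤ 4 * l.length + 1 := by
    intro l
    induction l with
    | nil => simp
    | cons b l ih =>
      rw [sz_cons, List.length_cons]
      have := sz_bool_le b
      omega
  have h3 : n.bits.length ≤ n := by
    rw [Nat.size_eq_bits_len, Nat.size_le]
    exact Nat.lt_two_pow_self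
  have h4 := h2 n.bits
  omega

omit [Enc β] in
/-- `zipIdx` as a left fold -/
theorem zipIdx_foldl (l : List β) : ∀ (n : ℕ) (out : List (β × ℕ)),
    l.foldl (fun (s : ℕ × List (β × ℕ)) b => (s.1 + 1, (b, s.1) :: s.2)) (n, out) =
      (n + l.length, (l.zipIdx n).reverse ++ out) := by
  induction l with
  | nil => intro n out; simp
  | cons b l ih =>
    intro n out
    rw [List.foldl_cons, ih, List.zipIdx_cons]
    simp
    omega

theorem sz_zipIdx_le (l : List β) : ∀ n, sz (l.zipIdx n) ≤ sz l + l.length * (4 * (n + l.length) + 2) := by
  induction l with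
  | nil => intro n; simp
  | cons b l ih =>
    intro n
    rw [List.zipIdx_cons, sz_cons, sz_cons, sz_pair, List.length_cons]
    have h1 := ih (n + 1)
    have h2 := sz_nat_le n
    have h3 : l.length * (4 * (n + 1 + l.length) + 2) = l.length * (4 * (n + (l.length + 1)) + 2) := by
      ring
    have h4 : (l.length + 1) * (4 * (n + (l.length + 1)) + 2) =
      l.length * (4 * (n + (l.length + 1)) + 2) + (4 * (n + (l.length + 1)) + 2) := by ring
    rw [h4]
    omega

theorem sz_reverse (l : List β) : sz l.reverse = sz l := by
  induction l with
  | nil => rfl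
  | cons b l ih =>
    have h := sz_append l.reverse [b]
    rw [List.reverse_cons]
    have h1 : sz [b] = sz b + 2 := by rw [sz_cons, sz_nil]
    rw [sz_cons]
    omega

theorem zipIdx {f : α → List β} (hf : Poly f) : Poly (fun a => (f a).zipIdx) := by
  obtain ⟨F, hF⟩ := hf.size
  have h1 := foldl (f := f) (g := fun _ => ((0 : ℕ), ([] : List (β × ℕ))))
    (h := fun p : α × ((ℕ × List (β × ℕ)) × β) => (p.2.1.1 + 1, (p.2.2, p.2.1.1) :: p.2.1.2))
    hf (const _) ((succ Poly.id.snd'.fst'.fst').pair
      ((Poly.id.snd'.snd'.pair Poly.id.snd'.fst'.fst').cons Poly.id.snd'.fst'.snd'))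
    (4 * F + 2 + (F + F * (4 * F + 2))) (by
      intro a k
      simp only
      rw [zipIdx_foldl, sz_pair, List.append_nil, sz_reverse, zero_add]
      have h2 := sz_nat_le ((f a).take k).length
      have h3 := sz_zipIdx_le ((f a).take k) 0
      have h4 := sz_take_le (f a) k
      have h5 := length_lt_sz (f a)
      have h6 := hF a
      have h7 : ((f a).take k).length ≤ F.eval (sz a) := by
        rw [List.length_take]; omega
      have h8 : ((f a).take k).length * (4 * (0 + ((f a).take k).length) + 2) ≤
          F.eval (sz a) * (4 * F.eval (sz a) + 2) := Nat.mul_le_mul h7 (by omega)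
      simp only [Polynomial.eval_add, Polynomial.eval_mul, Polynomial.eval_ofNat]
      omega)
  refine (reverse h1.snd').of_eq fun a => ?_
  simp only
  rw [zipIdx_foldl]
  simp

/-- equality of natural numbers -/
theorem nat_eq {f g : α → ℕ} (hf : Poly f) (hg : Poly g) :
    Poly (fun a => decide (f a = g a)) := by
  refine (and (nat_le hf hg) (nat_le hg hf)).of_eq fun a => ?_
  rw [Bool.eq_iff_iff]
  simp only [Bool.and_eq_true, decide_eq_true_eq]
  omega

/-- strict inequality of natural numbers -/
theorem nat_lt {f g : α → ℕ} (hf : Poly f) (hg : Poly g) :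
    Poly (fun a => decide (f a < g a)) := by
  refine (not (nat_le hg hf)).of_eq fun a => ?_
  rw [Bool.eq_iff_iff]
  simp only [Bool.not_eq_true', decide_eq_false_iff_not, decide_eq_true_eq]
  omega

/-- product of two lists -/
theorem product {f : α → List β} {g : α → List γ} (hf : Poly f) (hg : Poly g) :
    Poly (fun a => (f a).flatMap (fun b => (g a).map (fun c => (b, c)))) :=
  flatMap (h := fun p : α × β => (g p.1).map (fun c => (p.2, c))) hf
    (map (h := fun q : (α × β) × γ => (q.1.2, q.2)) (hg.comp fst) (Poly.id.fst'.snd'.pair Poly.id.snd'))

theorem beq {c d : α → Bool} (hc : Poly c) (hd : Poly d) : Poly (fun a => c a == d a) :=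
  (not (bne hc hd)).of_eq fun a => by cases c a <;> cases d a <;> rfl

theorem sz_filter_le (l : List β) (p : β → Bool) : sz (l.filter p) ≤ sz l := by
  induction l with
  | nil => simp
  | cons b l ih =>
    rw [List.filter_cons]
    split_ifs
    · rw [sz_cons, sz_cons]; omega
    · rw [sz_cons]; omega

omit [Enc β] in
theorem length_foldl (l : List β) : ∀ n : ℕ, l.foldl (fun n _ => n + 1) n = n + l.length := by
  induction l with
  | nil => intro n; rfl
  | cons b l ih => intro n; rw [List.foldl_cons, ih, List.length_cons]; omega

/-- length of a list, as a number in binary -/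
theorem length {f : α → List β} (hf : Poly f) : Poly (fun a => (f a).length) := by
  obtain ⟨F, hF⟩ := hf.size
  have h1 := foldl (f := f) (g := fun _ => (0 : ℕ))
    (h := fun p : α × (ℕ × β) => p.2.1 + 1) hf (const _) (succ Poly.id.snd'.fst')
    (4 * F + 1) (by
      intro a k
      simp only
      rw [length_foldl, zero_add]
      have h2 := sz_nat_le ((f a).take k).length
      have h5 := length_lt_sz (f a)
      have h6 := hF a
      have h7 : ((f a).take k).length ≤ F.eval (sz a) := by
        rw [List.length_take]; omega
      simp only [Polynomial.eval_add, Polynomial.eval_mul, Polynomial.eval_ofNat,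
        Polynomial.eval_one]
      omega)
  refine h1.of_eq fun a => ?_
  simp only
  rw [length_foldl, zero_add]

/-! ### unary numbers -/

theorem un_length {f : α → List β} (hf : Poly f) : Poly (fun a => un (f a).length) :=
  hf.unary.of_eq fun a => by
    induction f a with
    | nil => rfl
    | cons b l ih => rw [List.map_cons, ih]; rfl

theorem un_const (n : ℕ) : Poly (fun _ : α => un n) := const _

theorem un_add {f g : α → ℕ} (hf : Poly (fun a => un (f a))) (hg : Poly (fun a => un (g a))) :
    Poly (fun a => un (f a + g a)) :=
  (append hf hg).of_eq fun a => (List.replicate_add _ _ _).symm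

theorem flatMap_un (m n : ℕ) : (un m).flatMap (fun _ => un n) = un (m * n) := by
  induction m with
  | zero => simp
  | succ m ih =>
    have : un (m + 1) = () :: un m := rfl
    rw [this, List.flatMap_cons, ih, Nat.succ_mul, Nat.add_comm (m * n) n]
    simp only [un]
    rw [← List.replicate_add]

theorem un_mul {f g : α → ℕ} (hf : Poly (fun a => un (f a))) (hg : Poly (fun a => un (g a))) :
    Poly (fun a => un (f a * g a)) :=
  (flatMap (h := fun p : α × Unit => un (g p.1)) hf (hg.comp fst)).of_eq fun a =>
    flatMap_un (f a) (g a)

theorem un_pow {f : α → ℕ} (hf : Poly (fun a => un (f a))) (k : ℕ) :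
    Poly (fun a => un (f a ^ k)) := by
  induction k with
  | zero => exact (un_const 1).of_eq fun a => by rw [pow_zero]
  | succ k ih => exact (un_mul ih hf).of_eq fun a => by rw [pow_succ]

/-- a polynomial with natural coefficients, in unary -/
theorem un_eval {f : α → ℕ} (hf : Poly (fun a => un (f a))) (P : Polynomial ℕ) :
    Poly (fun a => un (P.eval (f a))) := by
  induction P using Polynomial.induction_on' with
  | add p q hp hq => exact (un_add hp hq).of_eq fun a => by rw [Polynomial.eval_add]
  | monomial n c =>
    exact (un_mul (un_const c) (un_pow hf n)).of_eq fun a => by rw [Polynomial.eval_monomial]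

/-- from unary to binary -/
theorem of_un {f : α → ℕ} (hf : Poly (fun a => un (f a))) : Poly f :=
  (length hf).of_eq fun a => List.length_replicate

theorem length_un (n : ℕ) : (un n).length = n := List.length_replicate

/-- `[un 0, un 1, …, un (n-1)]` as a fold -/
theorem range_foldl (l : List Unit) : ∀ (k : ℕ) (out : List (List Unit)),
    l.foldl (fun (s : List Unit × List (List Unit)) _ => (() :: s.1, s.1 :: s.2)) (un k, out) =
      (un (k + l.length), ((List.range' k l.length).map un).reverse ++ out) := by
  induction l with
  | nil => intro k out; simp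
  | cons b l ih =>
    intro k out
    rw [List.foldl_cons]
    have h : (() :: un k) = un (k + 1) := rfl
    simp only [h]
    rw [ih, List.length_cons, List.range'_succ]
    simp only [List.map_cons, List.reverse_cons, List.append_assoc, List.singleton_append,
      Prod.mk.injEq, and_true]
    congr 1
    omega

theorem sz_range_un (k n : ℕ) : sz ((List.range' k n).map un) ≤ n * (2 * (k + n) + 2) + 1 := by
  induction n generalizing k with
  | zero => simp
  | succ n ih =>
    rw [List.range'_succ, List.map_cons, sz_cons, sz_un]
    have h1 := ih (k + 1)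
    have h2 : n * (2 * (k + 1 + n) + 2) = n * (2 * (k + (n + 1)) + 2) := by ring
    have h4 : (n + 1) * (2 * (k + (n + 1)) + 2) =
      n * (2 * (k + (n + 1)) + 2) + (2 * (k + (n + 1)) + 2) := by ring
    rw [h4]
    omega

theorem sz_un' (l : List Unit) : sz l = 2 * l.length + 1 := by
  have h : l = un l.length := by
    induction l with
    | nil => rfl
    | cons b l ih => rw [List.length_cons]; exact congrArg (List.cons ()) ih
  rw [h, sz_un, length_un]

/-- the list of the unary numbers below `n` -/
theorem range_un {n : α → ℕ} (hn : Poly (fun a => un (n a))) :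
    Poly (fun a => (List.range (n a)).map un) := by
  obtain ⟨F, hF⟩ := hn.size
  have h1 := foldl (f := fun a => un (n a)) (g := fun _ => ((un 0), ([] : List (List Unit))))
    (h := fun p : α × ((List Unit × List (List Unit)) × Unit) => (() :: p.2.1.1,
      p.2.1.1 :: p.2.1.2)) hn (const _)
    (((const ()).cons Poly.id.snd'.fst'.fst').pair
      (Poly.id.snd'.fst'.fst'.cons Poly.id.snd'.fst'.snd'))
    (2 * F + 1 + (F * (2 * F + 2) + 1) + 1) (by
      intro a k
      simp only
      rw [range_foldl, sz_pair, List.append_nil, sz_reverse, zero_add, sz_un]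
      have h3 := sz_range_un 0 ((un (n a)).take k).length
      have h5 := length_lt_sz (un (n a))
      have h6 := hF a
      have h7 : ((un (n a)).take k).length ≤ F.eval (sz a) := by
        rw [List.length_take]; omega
      have h8 : ((un (n a)).take k).length * (2 * (0 + ((un (n a)).take k).length) + 2) ≤
          F.eval (sz a) * (2 * F.eval (sz a) + 2) := Nat.mul_le_mul h7 (by omega)
      simp only [Polynomial.eval_add, Polynomial.eval_mul, Polynomial.eval_ofNat,
        Polynomial.eval_one]
      omega)
  refine (reverse h1.snd').of_eq fun a => ?_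
  simp only
  rw [range_foldl]
  simp only [List.append_nil, List.reverse_reverse, length_un]
  rw [List.range_eq_range']

omit [Enc γ] in
theorem flatMap_map_un (l : List ℕ) (g : ℕ → List γ) :
    (l.map un).flatMap (fun u => g u.length) = l.flatMap g := by
  rw [List.flatMap_map]
  congr 1
  funext i
  rw [length_un]

/-- loop over `i < n` (the index is available in unary) -/
theorem flatMap_range {n : α → ℕ} {h : α → ℕ → List γ} (hn : Poly (fun a => un (n a)))
    (hh : Poly (fun p : α × List Unit => h p.1 p.2.length)) :
    Poly (fun a => (List.range (n a)).flatMap (h a)) :=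
  (flatMap (h := fun p : α × List Unit => h p.1 p.2.length) (range_un hn) hh).of_eq fun a =>
    flatMap_map_un (List.range (n a)) (h a)

/-- loop over `i < n` (the index is available in unary) -/
theorem map_range {n : α → ℕ} {h : α → ℕ → γ} (hn : Poly (fun a => un (n a)))
    (hh : Poly (fun p : α × List Unit => h p.1 p.2.length)) :
    Poly (fun a => (List.range (n a)).map (h a)) :=
  (map (h := fun p : α × List Unit => h p.1 p.2.length) (range_un hn) hh).of_eq fun a => by
    rw [List.map_map]
    apply List.map_congr_left
    intro i _
    simp only [comp_apply, length_un]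

/-- `range n`, in binary -/
theorem range {n : α → ℕ} (hn : Poly (fun a => un (n a))) :
    Poly (fun a => List.range (n a)) :=
  (map_range (h := fun _ i => i) hn (length Poly.id.snd')).of_eq fun a => by
    rw [List.map_id']

omit [Enc β] in
theorem drop_foldl (l : List Unit) : ∀ (x : List β), l.foldl (fun x _ => x.tail) x =
    x.drop l.length := by
  induction l with
  | nil => intro x; rfl
  | cons b l ih =>
    intro x
    rw [List.foldl_cons, ih, List.length_cons, List.drop_tail]

/-- `drop`, the number being available in unary -/
theorem drop_un {f : α → List β} {n : α → ℕ} (hf : Poly f) (hn : Poly (fun a => un (n a))) :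
    Poly (fun a => (f a).drop (n a)) := by
  obtain ⟨F, hF⟩ := hf.size
  have h1 := foldl (f := fun a => un (n a)) (g := f)
    (h := fun p : α × (List β × Unit) => p.2.1.tail) hn hf (tail Poly.id.snd'.fst') F (by
      intro a k
      simp only
      rw [drop_foldl]
      exact (sz_drop_le _ _).trans (hF a))
  refine h1.of_eq fun a => ?_
  simp only
  rw [drop_foldl, length_un]

/-- the head, as an option -/
theorem head? {f : α → List β} (hf : Poly f) : Poly (fun a => (f a).head?) := by
  refine (list_cases (g := fun _ => (none : Option β))
    (h := fun p : α × (β × List β) => Option.some p.2.1) hf (const _)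
    (Poly.id.snd'.fst'.some)).of_eq fun a => ?_
  cases f a <;> rfl

/-- the `n`-th entry, as an option, `n` being available in unary -/
theorem getElem? {f : α → List β} {n : α → ℕ} (hf : Poly f) (hn : Poly (fun a => un (n a))) :
    Poly (fun a => (f a)[n a]?) :=
  (head? (drop_un hf hn)).of_eq fun a => by rw [List.head?_drop]

/-- case distinction on an option -/
theorem option_cases {f : α → Option β} {g : α → γ} {h : α × β → γ} (hf : Poly f)
    (hg : Poly g) (hh : Poly h) :
    Poly (fun a => match f a with | none => g a | Option.some b => h (a, b)) := by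
  have hl : Poly (fun a => (f a).toList) := hf
  exact (list_cases (g := g) (h := fun p : α × (β × List β) => h (p.1, p.2.1)) hl hg
    (hh.comp (Poly.id.fst'.pair Poly.id.snd'.fst'))).of_eq fun a => by cases f a <;> rfl

end Poly.NPC

end Pool.Agent.TM2Lib
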