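import Pool.Agent.TM2Lib.Unary

/-!
# From unary to binary
-/

namespace Pool.Agent.TM2Lib

variable {α : Type} [Enc α]

/-- the step of the conversion -/
def bitStep (s : Un × List Bool) : Un × List Bool :=
  if decide (1 ≤ s.1.n) then (⟨s.1.n / 2⟩, s.2 ++ [decide (s.1.n % 2 = 1)]) else s

theorem bitStep_iter : ∀ (k r : ℕ) (l : List Bool), r ≤ k →
    bitStep^[k] (⟨r⟩, l) = (⟨0⟩, l ++ r.bits) := by
  intro k
  induction k with
  | zero =>
    intro r l hr
    have : r = 0 := by omega
    subst this
    simp
  | succ k ih =>
    intro r l hr
    rw [Function.iterate_succ_apply]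
    by_cases h : 1 ≤ r
    · have h1 : bitStep (⟨r⟩, l) = (⟨r / 2⟩, l ++ [decide (r % 2 = 1)]) := by
        unfold bitStep
        simp [h]
      rw [h1, ih _ _ (by omega)]
      have h2 : Nat.bit (decide (r % 2 = 1)) (r / 2) = r := by
        rcases Nat.mod_two_eq_zero_or_one r with h3 | h3
        · rw [h3]
          have : decide ((0 : ℕ) = 1) = false := rfl
          rw [this, Nat.bit_false]
          show 2 * (r / 2) = r
          omega
        · rw [h3]
          have : decide ((1 : ℕ) = 1) = true := rfl
          rw [this, Nat.bit_true]
          show 2 * (r / 2) + 1 = r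
          omega
      have h3 : r.bits = decide (r % 2 = 1) :: (r / 2).bits := by
        conv_lhs => rw [← h2]
        rw [Nat.bits_append_bit]
        intro h4
        have : r = 1 := by omega
        subst this
        rfl
      rw [h3]
      simp
    · have : r = 0 := by omega
      subst this
      have h1 : bitStep (⟨0⟩, l) = (⟨0⟩, l) := by
        unfold bitStep
        simp
      rw [h1, Function.iterate_fixed h1]
      simp

/-- **unary numbers to binary numbers** -/
theorem UPoly.toNat {f : α → ℕ} (hf : UPoly f) : Poly f := by
  have hst : Poly bitStep :=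
    Poly.ite (UPoly.le (UPoly.const 1) (UPoly.n.comp Poly.id.fst'))
      ((UPoly.div (UPoly.n.comp Poly.id.fst') (UPoly.const 2)).pair
        (Poly.append Poly.id.snd' (Poly.cons (UPoly.eq (UPoly.mod (UPoly.n.comp Poly.id.fst')
          (UPoly.const 2)) (UPoly.const 1)) (Poly.const [])))) Poly.id
  have h1 := Poly.iter (f := fun a => un (f a)) (g := fun a => ((⟨f a⟩, []) : Un × List Bool))
    (step := bitStep) hf.list (Poly.pair hf (Poly.const [])) hst (5 * Polynomial.X) (by
      intro a k hk
      have h2 : ∀ j (s : Un × List Bool), sz (bitStep^[j] s) ≤ sz s + 4 * j := by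
        intro j
        induction j with
        | zero => intro s; exact le_rfl
        | succ j ih =>
          intro s
          rw [Function.iterate_succ_apply]
          refine (ih _).trans ?_
          have : sz (bitStep s) ≤ sz s + 4 := by
            obtain ⟨x, y⟩ := s
            unfold bitStep
            split_ifs with h
            · have h5 := Poly.sz_append y [decide (x.n % 2 = 1)]
              have h6 := Poly.sz_bool_le (decide (x.n % 2 = 1))
              rw [sz_cons, sz_nil] at h5
              simp only [sz_pair, sz_Un]
              omega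
            · omega
          omega
      have h3 := h2 k ((⟨f a⟩, []) : Un × List Bool)
      rw [List.length_replicate] at hk
      simp only [Polynomial.eval_mul, Polynomial.eval_ofNat, Polynomial.eval_X]
      have h7 := sz_un (f a)
      simp only [sz_pair, sz_Un, sz_nil] at h3 ⊢
      omega)
  have h2 : Poly (fun a => ((⟨0⟩, (f a).bits) : Un × List Bool)) :=
    h1.of_eq fun a => by
      rw [List.length_replicate, bitStep_iter (f a) (f a) [] le_rfl, List.nil_append]
  exact h2.snd'

/-- equality of binary numbers -/
theorem Poly.nat_eq {f g : α → ℕ} (hf : Poly f) (hg : Poly g) :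
    Poly (fun a => decide (f a = g a)) :=
  ((nat_le hf hg).and (nat_le hg hf)).of_eq fun a => by
    rw [Bool.eq_iff_iff, Bool.and_eq_true, decide_eq_true_iff, decide_eq_true_iff,
      decide_eq_true_iff]
    omega

end Pool.Agent.TM2Lib
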