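import Pool.Agent.TM2Lib.Poly
import Pool.Agent.TM2Lib.Bits

/-!
# Decision problems, P, NP, polynomial time many-one reductions, NP-completeness, 3-SAT

Polynomial time is Mathlib's `Turing.TM2ComputableInPolyTime`.
-/

namespace Pool.Agent.TM2Lib.NPC

open Pool.Agent.TM2Lib

/-- A decision problem: its instances, a coding of the instances by bit strings, and the set of
yes-instances.  Only (codes of) instances are inputs. -/
structure DecProb where
  /-- instances -/
  Inst : Type
  /-- coding of the instances -/
  code : Inst → List Bool
  /-- yes-instances -/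
  yes : Inst → Prop

/-- `f` is computable in polynomial time, inputs being coded by `ca` and outputs by `cb` -/
def PolyTime {α β : Type} (ca : α → List Bool) (cb : β → List Bool) (f : α → β) : Prop :=
  Nonempty (Turing.TM2ComputableInPolyTime ca cb f)

/-- a Boolean answer is written as one bit -/
def bitCode (b : Bool) : List Bool := [b]

/-- a pair of strings as one string -/
def pairCode (p : List Bool × List Bool) : List Bool :=
  D.encD (D.cons (D.ofBits p.1) (D.ofBits p.2))

/-- `Q` can be decided in polynomial time -/
def InP (Q : DecProb) : Prop :=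
  ∃ f : Q.Inst → Bool, PolyTime Q.code bitCode f ∧ ∀ x, f x = true ↔ Q.yes x

/-- `Q` has polynomial-time verifiable certificates of polynomial length -/
def InNP (Q : DecProb) : Prop :=
  ∃ (V : Q.Inst × List Bool → Bool) (p : Polynomial ℕ),
    PolyTime (fun z : Q.Inst × List Bool => pairCode (Q.code z.1, z.2)) bitCode V ∧
    ∀ x, Q.yes x ↔ ∃ y : List Bool, y.length ≤ p.eval (Q.code x).length ∧ V (x, y) = true

/-- a language as a decision problem: every string is an instance -/
def Lang (L : Set (List Bool)) : DecProb := ⟨List Bool, id, fun x => x ∈ L⟩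

/-- polynomial-time many-one reducibility -/
def Reduces (Q R : DecProb) : Prop :=
  ∃ f : Q.Inst → R.Inst, PolyTime Q.code R.code f ∧ ∀ x, Q.yes x ↔ R.yes (f x)

/-- every language in NP reduces to `R` -/
def NPHard (R : DecProb) : Prop := ∀ L : Set (List Bool), InNP (Lang L) → Reduces (Lang L) R

/-- NP-completeness -/
def NPComplete (R : DecProb) : Prop := InNP R ∧ NPHard R

/-- the bit string coding an object -/
def code {α : Type} [Enc α] (a : α) : List Bool := D.encD (enc a)

/-- a literal: the variable and its sign -/
abbrev Lit : Type := ℕ × Bool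

/-- a clause with three literals -/
abbrev Clause : Type := Lit × Lit × Lit

/-- the three variables of the clause are distinct -/
def Clause.Dist (c : Clause) : Prop := c.1.1 ≠ c.2.1.1 ∧ c.1.1 ≠ c.2.2.1 ∧ c.2.1.1 ≠ c.2.2.1

/-- the clause is satisfied by the assignment `β` -/
def Clause.Holds (β : ℕ → Bool) (c : Clause) : Prop :=
  β c.1.1 = c.1.2 ∨ β c.2.1.1 = c.2.1.2 ∨ β c.2.2.1 = c.2.2.2

/-- satisfiability of a list of clauses -/
def Satis (φ : List Clause) : Prop := ∃ β : ℕ → Bool, ∀ c ∈ φ, c.Holds β

/-- 3-SAT, each clause having three literals with distinct variables -/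
def SAT3 : DecProb := ⟨{φ : List Clause // ∀ c ∈ φ, c.Dist}, code, fun φ => Satis φ.1⟩

end Pool.Agent.TM2Lib.NPC
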