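import Pool.Agent.TM2Lib.Closure

/-!
# Typed layer: polynomial time functions between encoded types
-/

namespace Pool.Agent.TM2Lib

open Function Turing D

theorem Comp.congr {α : Type} {x y x' y' : α → List Bool} (h : Comp x y)
    (h1 : ∀ a, x a = x' a) (h2 : ∀ a, y a = y' a) : Comp x' y' := by
  have e1 : x = x' := funext h1
  have e2 : y = y' := funext h2
  exact e1 ▸ e2 ▸ h

/-- size of the code -/
def sz {α : Type} [Enc α] (a : α) : ℕ := (enc a).size

section
variable {α β γ δ σ : Type} [Enc α] [Enc β] [Enc γ] [Enc δ] [Enc σ]

@[simp] theorem enc_nil : enc ([] : List α) = nil := rfl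
@[simp] theorem enc_cons (a : α) (l : List α) : enc (a :: l) = cons (enc a) (enc l) := rfl
@[simp] theorem enc_pair (a : α) (b : β) : enc (a, b) = cons (enc a) (enc b) := rfl
@[simp] theorem enc_none : enc (none : Option α) = nil := rfl
@[simp] theorem enc_some (a : α) : enc (some a) = cons (enc a) nil := rfl

@[simp] theorem sz_nil : sz ([] : List α) = 1 := rfl
@[simp] theorem sz_cons (a : α) (l : List α) : sz (a :: l) = sz a + sz l + 1 := size_cons _ _
@[simp] theorem sz_pair (a : α) (b : β) : sz (a, b) = sz a + sz b + 1 := size_cons _ _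
theorem sz_pos (a : α) : 0 < sz a := size_pos _

theorem len_enc (l : List α) : (enc l).len = l.length := by
  induction l with
  | nil => rfl
  | cons a l ih => simp only [enc_cons, D.len, ih, List.length_cons]

theorem length_lt_sz (l : List α) : l.length < sz l := by
  rw [← len_enc]
  exact len_lt_size _

/-- case distinction on a list -/
def lcase {β γ : Type} (g : γ) (h : β → List β → γ) : List β → γ
  | [] => g
  | b :: l => h b l

/-- Polynomial time functions. -/
def Poly (f : α → β) : Prop := Comp (fun a => encD (enc a)) (fun a => encD (enc (f a)))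

namespace Poly

theorem size {f : α → β} (h : Poly f) : ∃ P : Polynomial ℕ, ∀ a, sz (f a) ≤ P.eval (sz a) :=
  Comp.size h

theorem id : Poly (fun a : α => a) := Comp.refl _

theorem comp {g : β → γ} {f : α → β} (hg : Poly g) (hf : Poly f) : Poly (fun a => g (f a)) :=
  Comp.trans hf (Comp.reindex hg f)

theorem const (b : β) : Poly (fun _ : α => b) := Comp.const _ _

theorem pair {f : α → β} {g : α → γ} (hf : Poly f) (hg : Poly g) :
    Poly (fun a => (f a, g a)) := Comp.pair hf hg

theorem fst : Poly (fun p : α × β => p.1) := Comp.hd (fun p : α × β => enc p.1) _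

theorem snd : Poly (fun p : α × β => p.2) := Comp.tl (fun p : α × β => enc p.1) _

theorem fst' {f : α → β × γ} (hf : Poly f) : Poly (fun a => (f a).1) := fst.comp hf

theorem snd' {f : α → β × γ} (hf : Poly f) : Poly (fun a => (f a).2) := snd.comp hf

theorem cons {f : α → β} {g : α → List β} (hf : Poly f) (hg : Poly g) :
    Poly (fun a => f a :: g a) := Comp.pair hf hg

theorem some {f : α → β} (hf : Poly f) : Poly (fun a => Option.some (f a)) :=
  Comp.pair hf (Comp.const _ _)

theorem of_eq {f g : α → β} (hf : Poly f) (h : ∀ a, f a = g a) : Poly g := by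
  have : f = g := funext h
  exact this ▸ hf

/-- functions that do not change the code -/
theorem of_enc {f : α → β} (h : ∀ a, enc (f a) = enc a) : Poly f := by
  unfold Poly
  simp only [h]
  exact Comp.refl _

theorem ite {c : α → Bool} {f g : α → β} (hc : Poly c) (hf : Poly f) (hg : Poly g) :
    Poly (fun a => if c a then f a else g a) := by
  refine Comp.trans (Comp.pair hc (Comp.refl _)) (Comp.ite c enc ?_ ?_)
  · refine (Comp.reindex hf (fun a : {a // c a = true} => a.1)).congr (fun _ => rfl) ?_
    rintro ⟨a, ha⟩
    simp only [ha, if_true]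
  · refine (Comp.reindex hg (fun a : {a // c a = false} => a.1)).congr (fun _ => rfl) ?_
    rintro ⟨a, ha⟩
    simp only [ha]
    rfl

theorem cond {c : α → Bool} {f g : α → β} (hc : Poly c) (hf : Poly f) (hg : Poly g) :
    Poly (fun a => cond (c a) (f a) (g a)) :=
  (ite hc hf hg).of_eq fun a => by cases c a <;> rfl

theorem not {c : α → Bool} (hc : Poly c) : Poly (fun a => !(c a)) :=
  (ite hc (const false) (const true)).of_eq fun a => by cases c a <;> rfl

theorem and {c d : α → Bool} (hc : Poly c) (hd : Poly d) : Poly (fun a => c a && d a) :=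
  (ite hc hd (const false)).of_eq fun a => by cases c a <;> rfl

theorem or {c d : α → Bool} (hc : Poly c) (hd : Poly d) : Poly (fun a => c a || d a) :=
  (ite hc (const true) hd).of_eq fun a => by cases c a <;> rfl

theorem bne {c d : α → Bool} (hc : Poly c) (hd : Poly d) : Poly (fun a => xor (c a) (d a)) :=
  (ite hc (not hd) hd).of_eq fun a => by cases c a <;> cases d a <;> rfl

/-- Iteration: the step is repeated as many times as the list `f a` is long. -/
theorem iter {f : α → List β} {g : α → σ} {step : σ → σ} (hf : Poly f) (hg : Poly g)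
    (hs : Poly step) (B : Polynomial ℕ)
    (hB : ∀ a, ∀ k ≤ (f a).length, sz (step^[k] (g a)) ≤ B.eval (sz (f a) + sz (g a))) :
    Poly (fun a => step^[(f a).length] (g a)) := by
  have h1 := Comp.iter (encσ := (enc : σ → D)) (step := step) hs (fun a => enc (f a)) g B
    (fun a k hk => by
      rw [len_enc] at hk
      refine (hB a k hk).trans (eval_mono _ ?_)
      have : (encD (D.cons (enc (f a)) (enc (g a)))).length = sz (f a) + sz (g a) + 1 :=
        size_cons _ _
      omega)
  simp only [len_enc] at h1
  exact Comp.trans (Comp.pair hf hg) h1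

/-- emptiness of a list -/
theorem isEmpty {f : α → List β} (hf : Poly f) : Poly (fun a => (f a).isEmpty) := by
  have h := iter (σ := Bool) (f := f) (g := fun _ => true) (step := fun _ => false) hf
    (const true) (const false) (Polynomial.C 3) (by
      intro a k _
      have : ∀ b : Bool, sz b ≤ 3 := by decide
      simpa using this _)
  refine h.of_eq fun a => ?_
  rcases f a with _ | ⟨b, l⟩
  · rfl
  · simp only [List.length_cons, List.isEmpty_cons]
    rw [Function.iterate_succ_apply']

theorem list_cases {f : α → List β} {g : α → γ} {h : α × (β × List β) → γ} (hf : Poly f)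
    (hg : Poly g) (hh : Poly h) :
    Poly (fun a => lcase (g a) (fun b l => h (a, (b, l))) (f a)) := by
  have h1 : Comp (fun a : α => encD (enc a))
      (fun a => encD (D.cons (ofBool (!(f a).isEmpty)) (enc (a, f a)))) :=
    Comp.pair (not (isEmpty hf)) (pair Poly.id hf)
  refine Comp.trans h1 (Comp.ite (fun a => !(f a).isEmpty) (fun a => enc (a, f a)) ?_ ?_)
  · have h2 : ∀ a : {a // (!(f a).isEmpty) = true}, f a.1 ≠ [] := by
      rintro ⟨a, ha⟩ h
      simp only at h
      simp [h] at ha
    refine (Comp.reindex hh (fun a : {a // (!(f a).isEmpty) = true} =>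
      (a.1, ((f a.1).head (h2 a), (f a.1).tail)))).congr ?_ ?_
    · intro a
      have : f a.1 = (f a.1).head (h2 a) :: (f a.1).tail := (List.cons_head_tail _).symm
      conv_rhs => rw [this]
      rfl
    · rintro ⟨a, ha⟩
      have h3 : f a ≠ [] := h2 ⟨a, ha⟩
      have aux : ∀ (l : List β) (hl : l ≠ []), h (a, (l.head hl, l.tail)) =
          lcase (g a) (fun b l => h (a, (b, l))) l := by
        intro l hl
        cases l with
        | nil => exact absurd rfl hl
        | cons b l => rfl
      show encD (enc (h (a, ((f a).head h3, (f a).tail)))) = _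
      rw [aux]
  · refine (Comp.reindex (hg.comp (fst (α := α) (β := List β)))
      (fun a : {a // (!(f a).isEmpty) = false} => (a.1, f a.1))).congr (fun _ => rfl) ?_
    rintro ⟨a, ha⟩
    show _ = encD (enc (lcase (g a) (fun b l => h (a, (b, l))) (f a)))
    rcases hl : f a with _ | ⟨b, l⟩
    · rfl
    · simp [hl] at ha

/-- one step of `foldl` -/
def foldStep (h : α × (σ × β) → σ) (p : α × (List β × σ)) : α × (List β × σ) :=
  lcase p (fun b l => (p.1, (l, h (p.1, (p.2.2, b))))) p.2.1

omit [Enc α] [Enc β] [Enc σ] in
theorem foldStep_iter (h : α × (σ × β) → σ) (a : α) : ∀ (k : ℕ) (l : List β) (s : σ),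
    (foldStep h)^[k] (a, (l, s)) =
      (a, (l.drop k, (l.take k).foldl (fun s b => h (a, (s, b))) s)) := by
  intro k
  induction k with
  | zero => intro l s; rfl
  | succ k ih =>
    intro l s
    rw [Function.iterate_succ_apply]
    rcases l with _ | ⟨b, l⟩
    · exact (ih [] s).trans (by simp)
    · exact (ih l _).trans (by simp)

theorem poly_foldStep {h : α × (σ × β) → σ} (hh : Poly h) : Poly (foldStep h) := by
  refine list_cases (α := α × (List β × σ)) (f := fun p => p.2.1) (g := fun p => p)
    (h := fun q : (α × (List β × σ)) × (β × List β) =>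
      (q.1.1, (q.2.2, h (q.1.1, (q.1.2.2, q.2.1))))) Poly.id.snd'.fst' Poly.id ?_
  exact Poly.id.fst'.fst'.pair (Poly.id.snd'.snd'.pair
    (hh.comp (Poly.id.fst'.fst'.pair (Poly.id.fst'.snd'.snd'.pair Poly.id.snd'.fst'))))

theorem sz_drop_le (l : List β) : ∀ k, sz (l.drop k) ≤ sz l := by
  induction l with
  | nil => intro k; simp
  | cons b l ih =>
    intro k
    rcases k with _ | k
    · exact le_rfl
    · rw [List.drop_succ_cons, sz_cons]
      have := ih k
      omega

theorem sz_take_le (l : List β) : ∀ k, sz (l.take k) ≤ sz l := by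
  induction l with
  | nil => intro k; simp
  | cons b l ih =>
    intro k
    rcases k with _ | k
    · rw [List.take_zero, sz_nil]
      exact sz_pos _
    · rw [List.take_succ_cons, sz_cons, sz_cons]
      have := ih k
      omega

/-- Left folds with polynomially bounded intermediate values. -/
theorem foldl {f : α → List β} {g : α → σ} {h : α × (σ × β) → σ} (hf : Poly f) (hg : Poly g)
    (hh : Poly h) (B : Polynomial ℕ)
    (hB : ∀ a k, sz (((f a).take k).foldl (fun s b => h (a, (s, b))) (g a)) ≤
      B.eval (sz a)) :
    Poly (fun a => (f a).foldl (fun s b => h (a, (s, b))) (g a)) := by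
  have h1 := iter (f := f) (g := fun a => (a, (f a, g a))) (step := foldStep h) hf
    (Poly.id.pair (hf.pair hg)) (poly_foldStep hh) (2 * Polynomial.X + B + 2) (by
      intro a k _
      rw [foldStep_iter, sz_pair, sz_pair, sz_pair, sz_pair]
      have h2 := sz_drop_le (f a) k
      have h3 := hB a k
      have h4 : B.eval (sz a) ≤ B.eval (sz (f a) + (sz a + (sz (f a) + sz (g a) + 1) + 1)) :=
        eval_mono _ (by omega)
      simp only [Polynomial.eval_add, Polynomial.eval_mul, Polynomial.eval_ofNat,
        Polynomial.eval_X]
      omega)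
  have h2 := h1.snd'.snd'
  refine h2.of_eq fun a => ?_
  rw [foldStep_iter, List.take_length]

/-- Left folds in which each step adds at most a polynomial amount to the size. -/
theorem foldl_add {f : α → List β} {g : α → σ} {h : α × (σ × β) → σ} (hf : Poly f)
    (hg : Poly g) (hh : Poly h) (B : Polynomial ℕ)
    (hB : ∀ a s b, b ∈ f a → sz (h (a, (s, b))) ≤ sz s + B.eval (sz a)) :
    Poly (fun a => (f a).foldl (fun s b => h (a, (s, b))) (g a)) := by
  obtain ⟨F, hF⟩ := hf.size
  obtain ⟨G, hG⟩ := hg.size
  refine foldl hf hg hh (G + F * B) ?_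
  intro a k
  have key : ∀ (l : List β) (s : σ), (∀ b ∈ l, b ∈ f a) →
      sz (l.foldl (fun s b => h (a, (s, b))) s) ≤ sz s + l.length * B.eval (sz a) := by
    intro l
    induction l with
    | nil => intro s _; simp
    | cons b l ih =>
      intro s hl
      rw [List.foldl_cons]
      have h1 := ih (h (a, (s, b))) (fun b' hb' => hl b' (List.mem_cons_of_mem _ hb'))
      have h2 := hB a s b (hl b List.mem_cons_self)
      rw [List.length_cons, Nat.succ_mul]
      omega
  have h1 := key ((f a).take k) (g a) (fun b hb => List.mem_of_mem_take hb)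
  have h2 := length_lt_sz ((f a).take k)
  have h3 := sz_take_le (f a) k
  have h4 := hF a
  have h5 := hG a
  have h6 : ((f a).take k).length * B.eval (sz a) ≤ F.eval (sz a) * B.eval (sz a) :=
    Nat.mul_le_mul_right _ (by omega)
  simp only [Polynomial.eval_add, Polynomial.eval_mul]
  omega

theorem sz_mem_le {b : β} {l : List β} (h : b ∈ l) : sz b ≤ sz l := by
  induction l with
  | nil => simp at h
  | cons c l ih =>
    rw [sz_cons]
    rcases List.mem_cons.1 h with rfl | h
    · omega
    · have := ih h
      omega

theorem reverse {f : α → List β} (hf : Poly f) : Poly (fun a => (f a).reverse) := by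
  obtain ⟨F, hF⟩ := hf.size
  have h := foldl_add (σ := List β) (f := f) (g := fun _ => [])
    (h := fun p : α × (List β × β) => p.2.2 :: p.2.1) hf (const []) (Poly.id.snd'.snd'.cons
      Poly.id.snd'.fst') (F + 1) (by
      intro a s b hb
      have h1 := sz_mem_le hb
      have h2 := hF a
      simp only [sz_cons, Polynomial.eval_add, Polynomial.eval_one]
      omega)
  refine h.of_eq fun a => ?_
  simp only
  rw [List.foldl_flip_cons_eq_append']
  simp

/-- Map, with the variable `a` as a parameter. -/
theorem map {f : α → List β} {h : α × β → γ} (hf : Poly f) (hh : Poly h) :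
    Poly (fun a => (f a).map (fun b => h (a, b))) := by
  obtain ⟨F, hF⟩ := hf.size
  obtain ⟨H, hH⟩ := hh.size
  have h1 := foldl_add (σ := List γ) (f := f) (g := fun _ => [])
    (h := fun p : α × (List γ × β) => h (p.1, p.2.2) :: p.2.1) hf (const [])
    ((hh.comp (Poly.id.fst'.pair Poly.id.snd'.snd')).cons Poly.id.snd'.fst')
    (H.comp (Polynomial.X + F + 1) + 1) (by
      intro a s b hb
      have h1 := sz_mem_le hb
      have h2 := hF a
      have h3 := hH (a, b)
      rw [sz_pair] at h3
      have h4 : H.eval (sz a + sz b + 1) ≤ H.eval (sz a + F.eval (sz a) + 1) :=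
        eval_mono _ (by omega)
      simp only [sz_cons, Polynomial.eval_add, Polynomial.eval_one, Polynomial.eval_comp,
        Polynomial.eval_X]
      omega)
  refine h1.reverse.of_eq fun a => ?_
  have key : ∀ (l : List β) (s : List γ),
      (l.foldl (fun s b => h (a, b) :: s) s).reverse = s.reverse ++ l.map (fun b => h (a, b)) := by
    intro l
    induction l with
    | nil => intro s; simp
    | cons b l ih => intro s; rw [List.foldl_cons, ih]; simp
  exact key (f a) []

theorem foldr {f : α → List β} {g : α → σ} {h : α × (σ × β) → σ} (hf : Poly f) (hg : Poly g)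
    (hh : Poly h) (B : Polynomial ℕ)
    (hB : ∀ a k, sz (((f a).drop k).foldr (fun b s => h (a, (s, b))) (g a)) ≤
      B.eval (sz a)) :
    Poly (fun a => (f a).foldr (fun b s => h (a, (s, b))) (g a)) := by
  have h1 := foldl (f := fun a => (f a).reverse) hf.reverse hg hh B (by
    intro a k
    rw [List.take_reverse, List.foldl_reverse]
    exact hB a _)
  refine h1.of_eq fun a => ?_
  rw [List.foldl_reverse]

theorem append {f g : α → List β} (hf : Poly f) (hg : Poly g) :
    Poly (fun a => f a ++ g a) := by
  obtain ⟨F, hF⟩ := hf.size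
  have h := foldl_add (σ := List β) (f := fun a => (f a).reverse) (g := g)
    (h := fun p : α × (List β × β) => p.2.2 :: p.2.1) hf.reverse hg (Poly.id.snd'.snd'.cons
      Poly.id.snd'.fst') (F + 1) (by
      intro a s b hb
      have h1 := sz_mem_le (List.mem_reverse.1 hb)
      have h2 := hF a
      simp only [sz_cons, Polynomial.eval_add, Polynomial.eval_one]
      omega)
  refine h.of_eq fun a => ?_
  simp only
  rw [List.foldl_flip_cons_eq_append']
  simp

@[simp] theorem sz_append (l l' : List β) : sz (l ++ l') + 1 = sz l + sz l' := by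
  induction l with
  | nil => rw [List.nil_append, sz_nil]; ring
  | cons b l ih => rw [List.cons_append, sz_cons, sz_cons]; omega

theorem flatten {f : α → List (List β)} (hf : Poly f) : Poly (fun a => (f a).flatten) := by
  obtain ⟨F, hF⟩ := hf.size
  have h := foldl_add (σ := List β) (f := f) (g := fun _ => [])
    (h := fun p : α × (List β × List β) => p.2.1 ++ p.2.2) hf (const [])
    (append Poly.id.snd'.fst' Poly.id.snd'.snd') F (by
      intro a s b hb
      have h1 := sz_mem_le hb
      have h2 := hF a
      have h3 := sz_append s b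
      simp only
      omega)
  refine h.of_eq fun a => ?_
  have key : ∀ (l : List (List β)) (s : List β),
      l.foldl (fun s b => s ++ b) s = s ++ l.flatten := by
    intro l
    induction l with
    | nil => intro s; simp
    | cons b l ih => intro s; rw [List.foldl_cons, ih]; simp
  exact key (f a) []

theorem flatMap {f : α → List β} {h : α × β → List γ} (hf : Poly f) (hh : Poly h) :
    Poly (fun a => (f a).flatMap (fun b => h (a, b))) :=
  (map hf hh).flatten

theorem filter {f : α → List β} {h : α × β → Bool} (hf : Poly f) (hh : Poly h) :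
    Poly (fun a => (f a).filter (fun b => h (a, b))) := by
  have h1 := flatMap (h := fun p : α × β => if h p then [p.2] else []) hf
    (ite hh (Poly.id.snd'.cons (const [])) (const []))
  refine h1.of_eq fun a => ?_
  induction f a with
  | nil => rfl
  | cons b l ih =>
    rw [List.flatMap_cons, ih, List.filter_cons]
    by_cases hb : h (a, b) = true <;> simp [hb]

theorem any {f : α → List β} {h : α × β → Bool} (hf : Poly f) (hh : Poly h) :
    Poly (fun a => (f a).any (fun b => h (a, b))) := by
  have h1 := (isEmpty (filter hf hh)).not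
  refine h1.of_eq fun a => ?_
  induction f a with
  | nil => rfl
  | cons b l ih =>
    rw [List.filter_cons, List.any_cons]
    by_cases hb : h (a, b) = true
    · simp [hb]
    · simp only [hb]
      simpa using ih

theorem all {f : α → List β} {h : α × β → Bool} (hf : Poly f) (hh : Poly h) :
    Poly (fun a => (f a).all (fun b => h (a, b))) := by
  have h1 := (any hf (h := fun p => !(h p)) hh.not).not
  refine h1.of_eq fun a => ?_
  simp [List.all_eq_not_any_not]

theorem tail {f : α → List β} (hf : Poly f) : Poly (fun a => (f a).tail) := by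
  have h := list_cases (γ := List β) (g := fun _ => [])
    (h := fun p : α × (β × List β) => p.2.2) hf (const []) Poly.id.snd'.snd'
  refine h.of_eq fun a => ?_
  cases f a <;> rfl

theorem headD {f : α → List β} {g : α → β} (hf : Poly f) (hg : Poly g) :
    Poly (fun a => (f a).headD (g a)) := by
  have h := list_cases (γ := β) (g := g)
    (h := fun p : α × (β × List β) => p.2.1) hf hg Poly.id.snd'.fst'
  refine h.of_eq fun a => ?_
  cases f a <;> rfl

/-- forget the entries: the length in unary -/
theorem unary {f : α → List β} (hf : Poly f) : Poly (fun a => (f a).map (fun _ => ())) :=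
  map (h := fun _ : α × β => ()) hf (const ())

theorem ofFn {m : ℕ} {f : Fin m → α → β} (hf : ∀ i, Poly (f i)) :
    Poly (fun a => List.ofFn (fun i => f i a)) := by
  induction m with
  | zero => exact (const []).of_eq fun a => by simp
  | succ m ih =>
    refine (cons (hf 0) (ih (f := fun i => f i.succ) fun i => hf i.succ)).of_eq fun a => ?_
    rw [List.ofFn_succ]

end Poly

end

end Pool.Agent.TM2Lib
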