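import Pool.Agent.TM2Lib.Arith

/-!
# Unary arithmetic, tables, elements of finite types in polynomial time
-/

namespace Pool.Agent.TM2Lib

open Function Turing D

/-- natural numbers coded in unary -/
structure Un where
  /-- the number -/
  n : ℕ

instance : Enc Un := ⟨fun a => enc (un a.n)⟩

theorem sz_Un (a : Un) : sz a = 2 * a.n + 1 := sz_un a.n

/-- elements of finite types, coded in unary by their number -/
structure Fc (F : Type) where
  /-- the element -/
  val : F

noncomputable instance {F : Type} [Fintype F] : Enc (Fc F) :=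
  ⟨fun x => enc (un (Fintype.equivFin F x.val))⟩

section
variable {α β γ δ σ : Type} [Enc α] [Enc β] [Enc γ] [Enc δ] [Enc σ]

/-- the number `f a` can be computed in unary in polynomial time -/
def UPoly (f : α → ℕ) : Prop := Poly (fun a => (⟨f a⟩ : Un))

/-- polynomial time functions with values in a finite type -/
def FPoly {F : Type} [Fintype F] (f : α → F) : Prop := Poly (fun a => (⟨f a⟩ : Fc F))

/-- iterate the tail -/
theorem Poly.dropU {f : α → List β} {g : α → ℕ} (hf : Poly f) (hg : UPoly g) :
    Poly (fun a => (f a).drop (g a)) := by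
  have hl : Poly (fun a => un (g a)) := (Poly.of_enc (f := fun u : Un => un u.n) fun _ => rfl).comp hg
  have key : ∀ (k : ℕ) (l : List β), (fun l : List β => l.tail)^[k] l = l.drop k := by
    intro k
    induction k with
    | zero => intro l; rfl
    | succ k ih =>
      intro l
      rw [Function.iterate_succ_apply, ih]
      cases l <;> simp
  have h1 := Poly.iter (f := fun a => un (g a)) (g := f) (step := fun l : List β => l.tail)
    hl hf (Poly.tail Poly.id) Polynomial.X (by
      intro a k _
      rw [key, Polynomial.eval_X]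
      have := Poly.sz_drop_le (f a) k
      omega)
  refine h1.of_eq fun a => ?_
  rw [key, List.length_replicate]

/-- random access -/
theorem Poly.getD {f : α → List β} {g : α → ℕ} {h : α → β} (hf : Poly f) (hg : UPoly g)
    (hh : Poly h) : Poly (fun a => (f a).getD (g a) (h a)) := by
  refine (Poly.headD (Poly.dropU hf hg) hh).of_eq fun a => ?_
  rw [List.headD_eq_head?_getD, List.head?_drop, List.getD_eq_getElem?_getD]

namespace UPoly

theorem list {f : α → ℕ} (hf : UPoly f) : Poly (fun a => un (f a)) :=
  (Poly.of_enc (f := fun u : Un => un u.n) fun _ => rfl).comp hf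

theorem of_list {f : α → ℕ} (hf : Poly (fun a => un (f a))) : UPoly f :=
  (Poly.of_enc (f := fun l : List Unit => (⟨l.length⟩ : Un)) (fun l => by
    show enc (un l.length) = enc l
    congr 1
    exact (List.eq_replicate_of_mem fun _ _ => rfl).symm)).comp hf |>.of_eq fun a => by
      simp

theorem length {f : α → List β} (hf : Poly f) : UPoly (fun a => (f a).length) :=
  of_list (hf.unary.of_eq fun a => by rw [List.map_const'])

theorem of_eq {f g : α → ℕ} (hf : UPoly f) (h : ∀ a, f a = g a) : UPoly g := by
  have : f = g := funext h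
  exact this ▸ hf

theorem comp {g : β → ℕ} {f : α → β} (hg : UPoly g) (hf : Poly f) : UPoly (fun a => g (f a)) :=
  Poly.comp (g := fun b => (⟨g b⟩ : Un)) hg hf

theorem n : UPoly (fun u : Un => u.n) := Poly.id

theorem const (k : ℕ) : UPoly (fun _ : α => k) := Poly.const _

theorem add {f g : α → ℕ} (hf : UPoly f) (hg : UPoly g) : UPoly (fun a => f a + g a) :=
  of_list ((Poly.append hf.list hg.list).of_eq fun a => by
    rw [un, un, un, List.replicate_append_replicate])

theorem mul {f g : α → ℕ} (hf : UPoly f) (hg : UPoly g) : UPoly (fun a => f a * g a) :=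
  (length (Poly.flatMap (h := fun p : α × Unit => un (g p.1)) hf.list
    (hg.list.comp Poly.fst))).of_eq fun a => by
      simp [List.length_flatMap, un]

theorem sub {f g : α → ℕ} (hf : UPoly f) (hg : UPoly g) : UPoly (fun a => f a - g a) :=
  (length (Poly.dropU hf.list hg)).of_eq fun a => by simp [un]

theorem ite {c : α → Bool} {f g : α → ℕ} (hc : Poly c) (hf : UPoly f) (hg : UPoly g) :
    UPoly (fun a => if c a then f a else g a) :=
  Poly.of_eq (Poly.ite (f := fun a => (⟨f a⟩ : Un)) (g := fun a => (⟨g a⟩ : Un)) hc hf hg)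
    fun a => by
      show _ = (⟨if c a then f a else g a⟩ : Un)
      cases c a <;> rfl

/-- comparison -/
theorem le {f g : α → ℕ} (hf : UPoly f) (hg : UPoly g) :
    Poly (fun a => decide (f a ≤ g a)) := by
  refine (Poly.isEmpty (hf.sub hg).list).of_eq fun a => ?_
  rw [Bool.eq_iff_iff, List.isEmpty_iff, decide_eq_true_iff, un, List.replicate_eq_nil_iff]
  omega

theorem lt {f g : α → ℕ} (hf : UPoly f) (hg : UPoly g) :
    Poly (fun a => decide (f a < g a)) :=
  (le (hf.add (const 1)) hg).of_eq fun a => by
    rw [Bool.eq_iff_iff, decide_eq_true_iff, decide_eq_true_iff]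
    omega

theorem eq {f g : α → ℕ} (hf : UPoly f) (hg : UPoly g) :
    Poly (fun a => decide (f a = g a)) :=
  ((le hf hg).and (le hg hf)).of_eq fun a => by
    rw [Bool.eq_iff_iff, Bool.and_eq_true, decide_eq_true_iff, decide_eq_true_iff,
      decide_eq_true_iff]
    omega

/-- the step of the division -/
def dmStep (s : Un × (Un × Un)) : Un × (Un × Un) :=
  if decide (1 ≤ s.2.1.n) && decide (s.2.1.n ≤ s.1.n) then
    (⟨s.1.n - s.2.1.n⟩, (s.2.1, ⟨s.2.2.n + 1⟩)) else s

theorem dmStep_iter (M : ℕ) : ∀ (k r q : ℕ), r ≤ k →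
    dmStep^[k] (⟨r⟩, (⟨M⟩, ⟨q⟩)) = (⟨r % M⟩, (⟨M⟩, ⟨q + r / M⟩)) := by
  intro k
  induction k with
  | zero =>
    intro r q hr
    have : r = 0 := by omega
    subst this
    simp
  | succ k ih =>
    intro r q hr
    rw [Function.iterate_succ_apply]
    by_cases h : 1 ≤ M ∧ M ≤ r
    · have h1 : dmStep (⟨r⟩, (⟨M⟩, ⟨q⟩)) = (⟨r - M⟩, (⟨M⟩, ⟨q + 1⟩)) := by
        unfold dmStep
        simp [h.1, h.2]
      rw [h1, ih _ _ (by omega), Nat.mod_eq_sub_mod h.2, Nat.div_eq_sub_div h.1 h.2]
      simp only [Prod.mk.injEq, Un.mk.injEq, true_and]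
      omega
    · have h1 : dmStep (⟨r⟩, (⟨M⟩, ⟨q⟩)) = (⟨r⟩, (⟨M⟩, ⟨q⟩)) := by
        unfold dmStep
        rw [if_neg]
        simpa using h
      rw [h1]
      rcases Nat.eq_zero_or_pos M with h0 | h0
      · subst h0
        by_cases hr' : r ≤ k
        · exact ih r q hr'
        · have h2 : ∀ j, dmStep^[j] (⟨r⟩, (⟨0⟩, ⟨q⟩)) = (⟨r⟩, (⟨0⟩, ⟨q⟩)) := by
            intro j
            exact Function.iterate_fixed h1 j
          rw [h2]
          simp
      · have h3 : r < M := by omega
        rw [Nat.mod_eq_of_lt h3, Nat.div_eq_of_lt h3]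
        exact Function.iterate_fixed h1 k

theorem poly_dmStep : Poly dmStep :=
  Poly.ite ((le (const 1) (n.comp Poly.id.snd'.fst')).and
    (le (n.comp Poly.id.snd'.fst') (n.comp Poly.id.fst')))
    ((sub (n.comp Poly.id.fst') (n.comp Poly.id.snd'.fst')).pair
      (Poly.id.snd'.fst'.pair (add (n.comp Poly.id.snd'.snd') (const 1)))) Poly.id

theorem sz_dmStep (s : Un × (Un × Un)) : sz (dmStep s) ≤ sz s := by
  unfold dmStep
  split_ifs with h
  · simp only [Bool.and_eq_true, decide_eq_true_iff] at h
    obtain ⟨h1, h2⟩ := h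
    obtain ⟨a, b, c⟩ := s
    simp only [sz_pair, sz_Un] at h1 h2 ⊢
    omega
  · exact le_rfl

theorem poly_dm {f g : α → ℕ} (hf : UPoly f) (hg : UPoly g) :
    Poly (fun a => ((⟨f a % g a⟩, (⟨g a⟩, ⟨f a / g a⟩)) : Un × (Un × Un))) := by
  have h1 := Poly.iter (f := fun a => un (f a)) (g := fun a => ((⟨f a⟩, (⟨g a⟩, ⟨0⟩)) :
    Un × (Un × Un))) (step := dmStep) hf.list (Poly.pair hf (Poly.pair hg (Poly.const (⟨0⟩ : Un))))
    poly_dmStep Polynomial.X (by
      intro a k _
      have h2 : ∀ j, sz (dmStep^[j] ((⟨f a⟩, (⟨g a⟩, ⟨0⟩)) : Un × (Un × Un))) ≤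
          sz ((⟨f a⟩, (⟨g a⟩, ⟨0⟩)) : Un × (Un × Un)) := by
        intro j
        induction j with
        | zero => exact le_rfl
        | succ j ih =>
          rw [Function.iterate_succ_apply']
          exact (sz_dmStep _).trans ih
      have := h2 k
      rw [Polynomial.eval_X]
      omega)
  refine h1.of_eq fun a => ?_
  rw [List.length_replicate, dmStep_iter (g a) (f a) (f a) 0 le_rfl, zero_add]

theorem mod {f g : α → ℕ} (hf : UPoly f) (hg : UPoly g) : UPoly (fun a => f a % g a) :=
  (poly_dm hf hg).fst'

theorem div {f g : α → ℕ} (hf : UPoly f) (hg : UPoly g) : UPoly (fun a => f a / g a) :=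
  (poly_dm hf hg).snd'.snd'

/-- the step of the binary length -/
def szStep (s : Un × Un) : Un × Un :=
  if decide (1 ≤ s.1.n) then (⟨s.1.n / 2⟩, ⟨s.2.n + 1⟩) else s

theorem szStep_iter : ∀ (k r q : ℕ), r ≤ k →
    szStep^[k] (⟨r⟩, ⟨q⟩) = (⟨0⟩, ⟨q + Nat.size r⟩) := by
  intro k
  induction k with
  | zero =>
    intro r q hr
    have : r = 0 := by omega
    subst this
    simp
  | succ k ih =>
    intro r q hr
    rw [Function.iterate_succ_apply]
    by_cases h : 1 ≤ r
    · have h1 : szStep (⟨r⟩, ⟨q⟩) = (⟨r / 2⟩, ⟨q + 1⟩) := by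
        unfold szStep
        simp [h]
      rw [h1, ih _ _ (by omega)]
      have h2 : Nat.size r = Nat.size (r / 2) + 1 := by
        have h3 : Nat.bit (r.bodd) (r / 2) = r := by
          rw [← Nat.div2_val]
          exact Nat.bit_bodd_div2 r
        conv_lhs => rw [← h3]
        rw [Nat.size_bit]
        rw [h3]
        omega
      simp only [Prod.mk.injEq, Un.mk.injEq, true_and]
      omega
    · have : r = 0 := by omega
      subst this
      have h1 : szStep (⟨0⟩, ⟨q⟩) = (⟨0⟩, ⟨q⟩) := by
        unfold szStep
        simp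
      rw [h1, Function.iterate_fixed h1]
      simp

/-- the binary length -/
theorem size {f : α → ℕ} (hf : UPoly f) : UPoly (fun a => Nat.size (f a)) := by
  have hst : Poly szStep :=
    Poly.ite (le (const 1) (n.comp Poly.id.fst'))
      ((div (n.comp Poly.id.fst') (const 2)).pair (add (n.comp Poly.id.snd') (const 1))) Poly.id
  have h1 := Poly.iter (f := fun a => un (f a)) (g := fun a => ((⟨f a⟩, ⟨0⟩) : Un × Un))
    (step := szStep) hf.list (Poly.pair hf (Poly.const (⟨0⟩ : Un))) hst (3 * Polynomial.X) (by
      intro a k hk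
      have h2 : ∀ j (s : Un × Un), sz (szStep^[j] s) ≤ sz s + 2 * j := by
        intro j
        induction j with
        | zero => intro s; exact le_rfl
        | succ j ih =>
          intro s
          rw [Function.iterate_succ_apply]
          refine (ih _).trans ?_
          have : sz (szStep s) ≤ sz s + 2 := by
            obtain ⟨x, y⟩ := s
            unfold szStep
            split_ifs with h
            · simp only [sz_pair, sz_Un]
              omega
            · omega
          omega
      have h3 := h2 k ((⟨f a⟩, ⟨0⟩) : Un × Un)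
      rw [List.length_replicate] at hk
      simp only [Polynomial.eval_mul, Polynomial.eval_ofNat, Polynomial.eval_X]
      simp only [sz_pair, sz_Un] at h3 ⊢
      omega)
  have h2 : Poly (fun a => ((⟨0⟩, ⟨Nat.size (f a)⟩) : Un × Un)) :=
    h1.of_eq fun a => by
      rw [List.length_replicate, szStep_iter (f a) (f a) 0 le_rfl, zero_add]
  exact h2.snd'

/-- evaluation of a polynomial -/
theorem eval {f : α → ℕ} (hf : UPoly f) (P : Polynomial ℕ) : UPoly (fun a => P.eval (f a)) := by
  induction P using Polynomial.induction_on' with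
  | add p q hp hq => exact (hp.add hq).of_eq fun a => by rw [Polynomial.eval_add]
  | monomial k c =>
    have h1 : UPoly (fun a => f a ^ k) := by
      induction k with
      | zero => exact (const 1).of_eq fun a => by simp
      | succ k ih => exact (ih.mul hf).of_eq fun a => by rw [pow_succ]
    exact ((const c).mul h1).of_eq fun a => by rw [Polynomial.eval_monomial]

end UPoly

namespace Poly

/-- the numbers below `f a` -/
theorem range {f : α → ℕ} (hf : UPoly f) : Poly (fun a => (List.range (f a)).map Un.mk) := by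
  have key : ∀ k, (fun l : List Un => (⟨0⟩ : Un) :: l.map (fun u => (⟨u.n + 1⟩ : Un)))^[k] [] =
      (List.range k).map Un.mk := by
    intro k
    induction k with
    | zero => rfl
    | succ k ih =>
      rw [Function.iterate_succ_apply', ih, List.range_succ_eq_map]
      simp [List.map_map, Function.comp_def]
  have h1 := Poly.iter (f := fun a => un (f a)) (g := fun _ => ([] : List Un))
    (step := fun l : List Un => (⟨0⟩ : Un) :: l.map (fun u => (⟨u.n + 1⟩ : Un)))
    hf.list (Poly.const []) ((Poly.const _).cons (Poly.map (h := fun p : List Un × Un =>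
      (⟨p.2.n + 1⟩ : Un)) Poly.id (UPoly.add (UPoly.n.comp Poly.id.snd') (UPoly.const 1))))
    (Polynomial.X * (2 * Polynomial.X + 2) + 1) (by
      intro a k hk
      rw [key]
      rw [List.length_replicate] at hk
      have h2 : ∀ (l : List ℕ) (b : ℕ), (∀ x ∈ l, x < b) →
          sz (l.map Un.mk) ≤ l.length * (2 * b + 2) + 1 := by
        intro l b
        induction l with
        | nil => intro _; simp
        | cons x l ih =>
          intro h
          rw [List.map_cons, sz_cons, sz_Un, List.length_cons, Nat.add_mul, one_mul]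
          have h3 := ih fun y hy => h y (List.mem_cons_of_mem _ hy)
          have h4 := h x List.mem_cons_self
          simp only
          omega
      have h5 := h2 (List.range k) (f a) (fun x hx => by
        have := List.mem_range.1 hx
        omega)
      rw [List.length_range] at h5
      simp only [Polynomial.eval_add, Polynomial.eval_mul, Polynomial.eval_ofNat,
        Polynomial.eval_X, Polynomial.eval_one, sz_un, sz_nil]
      refine h5.trans ?_
      have h6 : k ≤ 2 * f a + 1 + 1 := by omega
      have h7 : 2 * f a + 2 ≤ 2 * (2 * f a + 1 + 1) + 2 := by omega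
      have := Nat.mul_le_mul h6 h7
      omega)
  refine h1.of_eq fun a => ?_
  rw [List.length_replicate, key]

/-- tables -/
theorem tab {f : α → ℕ} {h : α × Un → β} (hf : UPoly f) (hh : Poly h) :
    Poly (fun a => (List.range (f a)).map (fun i => h (a, ⟨i⟩))) :=
  (map (h := h) (range hf) hh).of_eq fun a => by rw [List.map_map]; rfl

end Poly

namespace FPoly

variable {F G I : Type} [Fintype F] [Fintype G] [Fintype I]

/-- case distinction over the elements of a finite type -/
theorem cases {g : α → F} {h : α → F → β} (hg : FPoly g) (hh : ∀ x, Poly (fun a => h a x)) :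
    Poly (fun a => h a (g a)) := by
  have hidx : UPoly (fun a => (Fintype.equivFin F (g a) : ℕ)) :=
    Poly.comp (g := fun x : Fc F => (⟨(Fintype.equivFin F x.val : ℕ)⟩ : Un))
      (Poly.of_enc fun _ => rfl) hg
  by_cases hne : Nonempty F
  · obtain ⟨x0⟩ := hne
    have h1 := Poly.getD (Poly.ofFn (f := fun (i : Fin (Fintype.card F)) a =>
      h a ((Fintype.equivFin F).symm i)) (fun i => hh _)) hidx (hh x0)
    refine h1.of_eq fun a => ?_
    rw [List.getD_eq_getElem _ _ (by simp), List.getElem_ofFn]
    simp
  · have : IsEmpty F := not_nonempty_iff.1 hne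
    have hα : IsEmpty α := ⟨fun a => this.elim (g a)⟩
    exact Poly.of_enc (fun a => hα.elim a)

theorem map {g : α → F} (hg : FPoly g) (φ : F → β) : Poly (fun a => φ (g a)) :=
  cases (h := fun _ x => φ x) hg fun x => Poly.const _

theorem fmap {g : α → F} (hg : FPoly g) (φ : F → G) : FPoly (fun a => φ (g a)) :=
  map hg (fun x => (⟨φ x⟩ : Fc G))

theorem umap {g : α → F} (hg : FPoly g) (φ : F → ℕ) : UPoly (fun a => φ (g a)) :=
  map hg (fun x => (⟨φ x⟩ : Un))

theorem const (x : F) : FPoly (fun _ : α => x) := Poly.const _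

theorem comp {g : β → F} {f : α → β} (hg : FPoly g) (hf : Poly f) : FPoly (fun a => g (f a)) :=
  Poly.comp (g := fun b => (⟨g b⟩ : Fc F)) hg hf

theorem val : FPoly (fun x : Fc F => x.val) := Poly.id

theorem of_eq {f g : α → F} (hf : FPoly f) (h : ∀ a, f a = g a) : FPoly g := by
  have : f = g := funext h
  exact this ▸ hf

theorem fin_pi {n : ℕ} : ∀ (f : Fin n → α → F), (∀ i, FPoly (f i)) → ∀ h : (Fin n → F) → β,
    Poly (fun a => h (fun i => f i a)) := by
  induction n with
  | zero =>
    intro f _ h
    exact (Poly.const (h Fin.elim0)).of_eq fun a => congrArg h (funext fun i => i.elim0)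
  | succ n ih =>
    intro f hf h
    have h1 := cases (g := f 0) (h := fun a x => h (Fin.cons x (fun i => f i.succ a))) (hf 0)
      (fun x => ih (fun i => f i.succ) (fun i => hf _) (fun y => h (Fin.cons x y)))
    refine h1.of_eq fun a => congrArg h ?_
    funext i
    refine Fin.cases ?_ (fun j => ?_) i <;> simp

/-- finite families -/
theorem pi {f : α → I → F} (hf : ∀ i, FPoly (fun a => f a i)) (h : (I → F) → β) :
    Poly (fun a => h (f a)) := by
  have h1 := fin_pi (fun (i : Fin (Fintype.card I)) a => f a ((Fintype.equivFin I).symm i))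
    (fun i => hf _) (fun y => h (fun i => y (Fintype.equivFin I i)))
  refine h1.of_eq fun a => congrArg h ?_
  funext i
  simp

theorem pair {f : α → F} {g : α → G} (hf : FPoly f) (hg : FPoly g) :
    FPoly (fun a => (f a, g a)) :=
  cases (h := fun a x => (⟨(x, g a)⟩ : Fc (F × G))) hf
    fun x => cases (h := fun _ y => (⟨(x, y)⟩ : Fc (F × G))) hg fun y => Poly.const _

end FPoly

end

end Pool.Agent.TM2Lib
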