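import Pool.Agent.TM2Lib.NPGlue
import Pool.Agent.PCP.ModCL

/-!
# 3-SAT is NP-hard, from the Cook–Levin tableau
-/

namespace Pool.Agent.TM2Lib.NPC

open Function Turing D
open Pool.Agent.PCP (Info info ModCL)

/-! ### functions depending on a component with values in a finite type -/

/-- case distinction on the value of a `Poly` function with values in `X` -/
def CasesPoly (X : Type) [Enc X] : Prop :=
  ∀ (α β : Type) [Enc α] [Enc β] (F : X → α → β) (f : α → X), (∀ x, Poly (F x)) → Poly f →
    Poly (fun a => F (f a) a)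

theorem casesPoly_bool : CasesPoly Bool := by
  intro α β _ _ F f hF hf
  exact (Poly.cond hf (hF true) (hF false)).of_eq fun a => by cases f a <;> rfl

theorem casesPoly_prod {X Y : Type} [Enc X] [Enc Y] (hX : CasesPoly X) (hY : CasesPoly Y) :
    CasesPoly (X × Y) := by
  intro α β _ _ F f hF hf
  exact hX α β (fun x a => F (x, (f a).2) a) (fun a => (f a).1)
    (fun x => hY α β (fun y a => F (x, y) a) (fun a => (f a).2) (fun y => hF (x, y)) hf.snd')
    hf.fst'

theorem casesPoly_option {X : Type} [Enc X] (hX : CasesPoly X) : CasesPoly (Option X) := by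
  intro α β _ _ F f hF hf
  have h1 : Poly (fun p : α × X => F (some p.2) p.1) :=
    hX (α × X) β (fun x p => F (some x) p.1) (fun p => p.2)
      (fun x => (hF (some x)).comp Poly.fst) Poly.snd
  exact (Poly.NPC.option_cases hf (hF none) h1).of_eq fun a => by cases f a <;> rfl

theorem casesPoly_info : CasesPoly Info :=
  casesPoly_prod (casesPoly_prod casesPoly_bool casesPoly_bool)
    (casesPoly_prod (casesPoly_prod casesPoly_bool (casesPoly_prod casesPoly_bool casesPoly_bool))
      (casesPoly_option casesPoly_bool))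

/-- `flatMap` over a constant list -/
theorem poly_flatMap_const {α β ι : Type} [Enc α] [Enc β] (l : List ι) {F : ι → α → List β}
    (hF : ∀ q, Poly (F q)) : Poly (fun a => l.flatMap (fun q => F q a)) := by
  induction l with
  | nil => exact Poly.const []
  | cons q l ih => exact (Poly.append (hF q) ih).of_eq fun a => by rw [List.flatMap_cons]

/-! ### clauses with at most three literals -/

/-- the literal `a` -/
def c1 (a : Lit) : List Clause :=
  [(a, (0, true), (1, true)), (a, (0, true), (1, false)), (a, (0, false), (1, true)),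
    (a, (0, false), (1, false))]

/-- `a ∨ b` -/
def c2 (a b : Lit) : List Clause := [(a, b, (0, true)), (a, b, (0, false))]

theorem c1_iff (β : ℕ → Bool) (a : Lit) : (∀ c ∈ c1 a, c.Holds β) ↔ β a.1 = a.2 := by
  simp only [c1, Clause.Holds, List.mem_cons, List.not_mem_nil, or_false, forall_eq_or_imp,
    forall_eq]
  cases β 0 <;> cases β 1 <;> simp

theorem c2_iff (β : ℕ → Bool) (a b : Lit) :
    (∀ c ∈ c2 a b, c.Holds β) ↔ β a.1 = a.2 ∨ β b.1 = b.2 := by
  simp only [c2, Clause.Holds, List.mem_cons, List.not_mem_nil, or_false, forall_eq_or_imp,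
    forall_eq]
  cases β 0 <;> simp

theorem c1_dist {a : Lit} (h : 2 ≤ a.1) : ∀ c ∈ c1 a, c.Dist := by
  intro c hc
  simp only [c1, List.mem_cons, List.not_mem_nil, or_false] at hc
  rcases hc with rfl | rfl | rfl | rfl <;>
    exact ⟨by simp only; omega, by simp only; omega, by simp⟩

theorem c2_dist {a b : Lit} (h : 2 ≤ a.1) (h' : 2 ≤ b.1) (hab : a.1 ≠ b.1) :
    ∀ c ∈ c2 a b, c.Dist := by
  intro c hc
  simp only [c2, List.mem_cons, List.not_mem_nil, or_false] at hc
  rcases hc with rfl | rfl <;>
    exact ⟨hab, by simp only; omega, by simp only; omega⟩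

section formula

variable {c : ℕ} (H V : Fin c → Fin c → Bool) (U : Info → Fin c → Bool) (w : List Bool) (m : ℕ)

/-- number of the variable saying that the cell `(i, j)` has the content `q` -/
def vv (c m i j q : ℕ) : ℕ := 2 + 2 * ((i * m + j) * (c + 1) + q)

/-- number of the variable saying that the content of the cell `(i, j)` is at least `q` -/
def ss (c m i j q : ℕ) : ℕ := 3 + 2 * ((i * m + j) * (c + 1) + q)

/-- the clauses for the cell `(i, j)` -/
def cellF (i j : ℕ) : List Clause :=
  c1 (ss c m i j 0, true) ++ (c1 (ss c m i j c, false) ++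
  ((List.finRange c).flatMap (fun t : Fin c =>
    [((ss c m i j t, false), (vv c m i j t, true), (ss c m i j (t + 1), true))]) ++
  ((List.finRange c).flatMap (fun q =>
    if U (info w m i j) q then [] else c1 (vv c m i j q, false)) ++
  ((if decide (j + 1 < m) then (List.finRange c).flatMap (fun q => (List.finRange c).flatMap (fun q' =>
    if H q q' then [] else c2 (vv c m i j q, false) (vv c m i (j + 1) q', false))) else []) ++
  (if decide (i + 1 < m) then (List.finRange c).flatMap (fun q => (List.finRange c).flatMap (fun q' =>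
    if V q q' then [] else c2 (vv c m i j q, false) (vv c m (i + 1) j q', false))) else [])))))

/-- the formula -/
def formula : List Clause :=
  (List.range m).flatMap fun i => (List.range m).flatMap fun j => cellF H V U w m i j

theorem cell_dist (i j : ℕ) : ∀ x ∈ cellF H V U w m i j, x.Dist := by
  intro x hx
  simp only [cellF, List.mem_append, List.mem_flatMap] at hx
  rcases hx with hx | hx | hx | hx | hx | hx
  · exact c1_dist (by simp only [ss]; omega) x hx
  · exact c1_dist (by simp only [ss]; omega) x hx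
  · obtain ⟨t, _, ht⟩ := hx
    rw [List.mem_singleton] at ht
    subst ht
    refine ⟨?_, ?_, ?_⟩ <;> simp only [ss, vv] <;> omega
  · obtain ⟨q, _, hq⟩ := hx
    split_ifs at hq
    · exact absurd hq List.not_mem_nil
    · exact c1_dist (by simp only [vv]; omega) x hq
  · split_ifs at hx
    · rw [List.mem_flatMap] at hx
      obtain ⟨q, _, hx⟩ := hx
      rw [List.mem_flatMap] at hx
      obtain ⟨q', _, hx⟩ := hx
      split_ifs at hx
      · exact absurd hx List.not_mem_nil
      · refine c2_dist (by simp only [vv]; omega) (by simp only [vv]; omega) ?_ x hx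
        simp only [vv]
        intro h
        have h1 : (i * m + j) * (c + 1) + (q : ℕ) = (i * m + (j + 1)) * (c + 1) + (q' : ℕ) := by
          omega
        have h2 : (i * m + (j + 1)) * (c + 1) = (i * m + j) * (c + 1) + (c + 1) := by ring
        have := q.2
        omega
    · exact absurd hx List.not_mem_nil
  · split_ifs at hx with him
    · rw [List.mem_flatMap] at hx
      obtain ⟨q, _, hx⟩ := hx
      rw [List.mem_flatMap] at hx
      obtain ⟨q', _, hx⟩ := hx
      split_ifs at hx
      · exact absurd hx List.not_mem_nil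
      · refine c2_dist (by simp only [vv]; omega) (by simp only [vv]; omega) ?_ x hx
        simp only [vv]
        intro h
        have h0 : 1 ≤ m := by
          simp only [decide_eq_true_eq] at him
          omega
        have h1 : (i * m + j) * (c + 1) + (q : ℕ) = ((i + 1) * m + j) * (c + 1) + (q' : ℕ) := by
          omega
        have h2 : ((i + 1) * m + j) * (c + 1) = (i * m + j) * (c + 1) + m * (c + 1) := by ring
        have h3 : c + 1 ≤ m * (c + 1) := Nat.le_mul_of_pos_left _ h0
        have := q.2
        omega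
    · exact absurd hx List.not_mem_nil

theorem formula_dist : ∀ x ∈ formula H V U w m, x.Dist := by
  intro x hx
  rw [formula, List.mem_flatMap] at hx
  obtain ⟨i, _, hx⟩ := hx
  rw [List.mem_flatMap] at hx
  obtain ⟨j, _, hx⟩ := hx
  exact cell_dist H V U w m i j x hx

/-- the constraints on the board -/
def Board (σ : ℕ → ℕ → Fin c) : Prop :=
  ∀ i j, i < m → j < m → U (info w m i j) (σ i j) = true ∧
    (j + 1 < m → H (σ i j) (σ i (j + 1)) = true) ∧
    (i + 1 < m → V (σ i j) (σ (i + 1) j) = true)

theorem cell_iff (β : ℕ → Bool) (i j : ℕ) : (∀ x ∈ cellF H V U w m i j, x.Holds β) ↔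
    β (ss c m i j 0) = true ∧ β (ss c m i j c) = false ∧
    (∀ t : Fin c, β (ss c m i j t) = false ∨ β (vv c m i j t) = true ∨
      β (ss c m i j (t + 1)) = true) ∧
    (∀ q, U (info w m i j) q = false → β (vv c m i j q) = false) ∧
    (j + 1 < m → ∀ q q', H q q' = false →
      β (vv c m i j q) = false ∨ β (vv c m i (j + 1) q') = false) ∧
    (i + 1 < m → ∀ q q', V q q' = false →
      β (vv c m i j q) = false ∨ β (vv c m (i + 1) j q') = false) := by
  unfold cellF
  simp only [List.forall_mem_append, List.forall_mem_flatMap, List.mem_finRange, forall_true_left,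
    c1_iff]
  refine and_congr Iff.rfl (and_congr Iff.rfl (and_congr ?_ (and_congr ?_ (and_congr ?_ ?_))))
  · simp only [List.mem_singleton, forall_eq, Clause.Holds]
  · refine forall_congr' fun q => ?_
    cases h : U (info w m i j) q
    · simp only [Bool.false_eq_true, if_false, c1_iff, forall_true_left]
    · simp
  · by_cases hj : j + 1 < m
    · simp only [hj, decide_true, if_true, forall_true_left, List.forall_mem_flatMap,
        List.mem_finRange]
      refine forall_congr' fun q => forall_congr' fun q' => ?_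
      cases h : H q q'
      · simp only [Bool.false_eq_true, if_false, c2_iff, forall_true_left]
      · simp
    · simp [hj]
  · by_cases hi : i + 1 < m
    · simp only [hi, decide_true, if_true, forall_true_left, List.forall_mem_flatMap,
        List.mem_finRange]
      refine forall_congr' fun q => forall_congr' fun q' => ?_
      cases h : V q q'
      · simp only [Bool.false_eq_true, if_false, c2_iff, forall_true_left]
      · simp
    · simp [hi]

theorem formula_iff (β : ℕ → Bool) : (∀ x ∈ formula H V U w m, x.Holds β) ↔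
    ∀ i j, i < m → j < m → ∀ x ∈ cellF H V U w m i j, x.Holds β := by
  unfold formula
  simp only [List.forall_mem_flatMap, List.mem_range]
  constructor
  · intro h i j hi hj; exact h i hi j hj
  · intro h i hi j hj; exact h i j hi hj

theorem board_of_sat (hc : 0 < c) {β : ℕ → Bool} (h : ∀ x ∈ formula H V U w m, x.Holds β) :
    ∃ σ : ℕ → ℕ → Fin c, Board H V U w m σ := by
  rw [formula_iff] at h
  have key : ∀ i j, i < m → j < m → ∃ q : Fin c, β (vv c m i j q) = true := by
    intro i j hi hj
    obtain ⟨h0, hcc, hch, -⟩ := (cell_iff H V U w m β i j).1 (h i j hi hj)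
    by_contra hcon
    push Not at hcon
    have hall : ∀ t ≤ c, β (ss c m i j t) = true := by
      intro t
      induction t with
      | zero => intro _; exact h0
      | succ t ih =>
        intro ht
        have h1 := ih (by omega)
        rcases hch ⟨t, by omega⟩ with h2 | h2 | h2
        · simp only at h2; rw [h1] at h2; exact absurd h2 (by simp)
        · exact absurd h2 (hcon ⟨t, by omega⟩)
        · exact h2
    rw [hall c le_rfl] at hcc
    exact absurd hcc (by simp)
  classical
  refine ⟨fun i j => if hij : ∃ q : Fin c, β (vv c m i j q) = true then hij.choose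
    else ⟨0, hc⟩, ?_⟩
  have hσ : ∀ i j, i < m → j < m → β (vv c m i j
      ((if hij : ∃ q : Fin c, β (vv c m i j q) = true then hij.choose else ⟨0, hc⟩ : Fin c))) =
        true := by
    intro i j hi hj
    have h1 := key i j hi hj
    rw [dif_pos h1]
    exact h1.choose_spec
  intro i j hi hj
  obtain ⟨-, -, -, hU, hH, hV⟩ := (cell_iff H V U w m β i j).1 (h i j hi hj)
  refine ⟨?_, ?_, ?_⟩
  · by_contra hcon
    have h1 := hU _ (Bool.eq_false_of_not_eq_true hcon)
    rw [hσ i j hi hj] at h1
    exact absurd h1 (by simp)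
  · intro hj1
    by_contra hcon
    rcases hH hj1 _ _ (Bool.eq_false_of_not_eq_true hcon) with h1 | h1
    · rw [hσ i j hi hj] at h1
      exact absurd h1 (by simp)
    · rw [hσ i (j + 1) hi hj1] at h1
      exact absurd h1 (by simp)
  · intro hi1
    by_contra hcon
    rcases hV hi1 _ _ (Bool.eq_false_of_not_eq_true hcon) with h1 | h1
    · rw [hσ i j hi hj] at h1
      exact absurd h1 (by simp)
    · rw [hσ (i + 1) j hi1 hj] at h1
      exact absurd h1 (by simp)

/-- the assignment describing a board -/
def bAsg (σ : ℕ → ℕ → Fin c) (n : ℕ) : Bool :=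
  if n % 2 = 0 then decide (((n - 2) / 2) % (c + 1) =
    (σ (((n - 2) / 2) / (c + 1) / m) (((n - 2) / 2) / (c + 1) % m) : ℕ))
  else decide (((n - 2) / 2) % (c + 1) ≤
    (σ (((n - 2) / 2) / (c + 1) / m) (((n - 2) / 2) / (c + 1) % m) : ℕ))

theorem bAsg_vv (σ : ℕ → ℕ → Fin c) {i j q : ℕ} (hj : j < m) (hq : q ≤ c) :
    bAsg m σ (vv c m i j q) = decide (q = (σ i j : ℕ)) := by
  have h1 : vv c m i j q % 2 = 0 := by unfold vv; omega
  have h2 : (vv c m i j q - 2) / 2 = (i * m + j) * (c + 1) + q := by unfold vv; omega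
  have h3 : ((i * m + j) * (c + 1) + q) % (c + 1) = q := by
    rw [Nat.mul_comm, Nat.mul_add_mod, Nat.mod_eq_of_lt (by omega)]
  have h4 : ((i * m + j) * (c + 1) + q) / (c + 1) = i * m + j := by
    rw [Nat.mul_comm, Nat.mul_add_div (by omega), Nat.div_eq_of_lt (by omega), add_zero]
  have h5 : (i * m + j) / m = i := by
    rw [Nat.mul_comm, Nat.mul_add_div (by omega), Nat.div_eq_of_lt (by omega), add_zero]
  have h6 : (i * m + j) % m = j := by
    rw [Nat.mul_comm, Nat.mul_add_mod, Nat.mod_eq_of_lt (by omega)]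
  unfold bAsg
  rw [if_pos h1, h2, h3, h4, h5, h6]

theorem bAsg_ss (σ : ℕ → ℕ → Fin c) {i j q : ℕ} (hj : j < m) (hq : q ≤ c) :
    bAsg m σ (ss c m i j q) = decide (q ≤ (σ i j : ℕ)) := by
  have h1 : ¬ ss c m i j q % 2 = 0 := by unfold ss; omega
  have h2 : (ss c m i j q - 2) / 2 = (i * m + j) * (c + 1) + q := by unfold ss; omega
  have h3 : ((i * m + j) * (c + 1) + q) % (c + 1) = q := by
    rw [Nat.mul_comm, Nat.mul_add_mod, Nat.mod_eq_of_lt (by omega)]
  have h4 : ((i * m + j) * (c + 1) + q) / (c + 1) = i * m + j := by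
    rw [Nat.mul_comm, Nat.mul_add_div (by omega), Nat.div_eq_of_lt (by omega), add_zero]
  have h5 : (i * m + j) / m = i := by
    rw [Nat.mul_comm, Nat.mul_add_div (by omega), Nat.div_eq_of_lt (by omega), add_zero]
  have h6 : (i * m + j) % m = j := by
    rw [Nat.mul_comm, Nat.mul_add_mod, Nat.mod_eq_of_lt (by omega)]
  unfold bAsg
  rw [if_neg h1, h2, h3, h4, h5, h6]

theorem sat_of_board {σ : ℕ → ℕ → Fin c} (h : Board H V U w m σ) :
    ∀ x ∈ formula H V U w m, x.Holds (bAsg m σ) := by
  rw [formula_iff]
  intro i j hi hj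
  rw [cell_iff]
  obtain ⟨hU, hH, hV⟩ := h i j hi hj
  refine ⟨?_, ?_, ?_, ?_, ?_, ?_⟩
  · rw [bAsg_ss m σ hj (Nat.zero_le _)]
    simp
  · rw [bAsg_ss m σ hj le_rfl]
    simp
  · intro t
    have ht := t.2
    rw [bAsg_ss m σ hj (by omega), bAsg_vv m σ hj (by omega), bAsg_ss m σ hj (by omega)]
    simp only [decide_eq_false_iff_not, decide_eq_true_eq]
    omega
  · intro q hq
    rw [bAsg_vv m σ hj (by omega), decide_eq_false_iff_not]
    intro hqs
    have : q = σ i j := Fin.ext hqs
    rw [this, hU] at hq
    exact absurd hq (by simp)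
  · intro hj1 q q' hqq
    rw [bAsg_vv m σ hj (by omega), bAsg_vv m σ hj1 (by omega), decide_eq_false_iff_not,
      decide_eq_false_iff_not]
    by_contra hcon
    push Not at hcon
    have h1 : q = σ i j := Fin.ext hcon.1
    have h2 : q' = σ i (j + 1) := Fin.ext hcon.2
    rw [h1, h2, hH hj1] at hqq
    exact absurd hqq (by simp)
  · intro hi1 q q' hqq
    rw [bAsg_vv m σ hj (by omega), bAsg_vv m σ hj (by omega), decide_eq_false_iff_not,
      decide_eq_false_iff_not]
    by_contra hcon
    push Not at hcon
    have h1 : q = σ i j := Fin.ext hcon.1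
    have h2 : q' = σ (i + 1) j := Fin.ext hcon.2
    rw [h1, h2, hV hi1] at hqq
    exact absurd hqq (by simp)

theorem satis_iff (hc : 0 < c) : Satis (formula H V U w m) ↔
    ∃ σ : ℕ → ℕ → Fin c, Board H V U w m σ :=
  ⟨fun ⟨_, h⟩ => board_of_sat H V U w m hc h, fun ⟨_, h⟩ => ⟨_, sat_of_board H V U w m h⟩⟩

end formula

/-! ### polynomial time -/

section poly
variable {α : Type} [Enc α]

theorem poly_vv (c : ℕ) {m i j : α → ℕ} (hm : Poly fun a => un (m a))
    (hi : Poly fun a => un (i a)) (hj : Poly fun a => un (j a)) (q : ℕ) :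
    Poly (fun a => vv c (m a) (i a) (j a) q) :=
  Poly.NPC.of_un (Poly.NPC.un_add (Poly.NPC.un_const 2) (Poly.NPC.un_mul (Poly.NPC.un_const 2)
    (Poly.NPC.un_add (Poly.NPC.un_mul (Poly.NPC.un_add (Poly.NPC.un_mul hi hm) hj)
      (Poly.NPC.un_const (c + 1))) (Poly.NPC.un_const q))))

theorem poly_ss (c : ℕ) {m i j : α → ℕ} (hm : Poly fun a => un (m a))
    (hi : Poly fun a => un (i a)) (hj : Poly fun a => un (j a)) (q : ℕ) :
    Poly (fun a => ss c (m a) (i a) (j a) q) :=
  Poly.NPC.of_un (Poly.NPC.un_add (Poly.NPC.un_const 3) (Poly.NPC.un_mul (Poly.NPC.un_const 2)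
    (Poly.NPC.un_add (Poly.NPC.un_mul (Poly.NPC.un_add (Poly.NPC.un_mul hi hm) hj)
      (Poly.NPC.un_const (c + 1))) (Poly.NPC.un_const q))))

theorem poly_c1 {f : α → Lit} (hf : Poly f) : Poly (fun a => c1 (f a)) :=
  (hf.pair (Poly.const _)).cons ((hf.pair (Poly.const _)).cons ((hf.pair (Poly.const _)).cons
    ((hf.pair (Poly.const _)).cons (Poly.const []))))

theorem poly_c2 {f g : α → Lit} (hf : Poly f) (hg : Poly g) : Poly (fun a => c2 (f a) (g a)) :=
  (hf.pair (hg.pair (Poly.const _))).cons ((hf.pair (hg.pair (Poly.const _))).cons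
    (Poly.const []))

theorem poly_info {w : α → List Bool} {m i j : α → ℕ} (hw : Poly w)
    (hm : Poly fun a => un (m a)) (hi : Poly fun a => un (i a)) (hj : Poly fun a => un (j a)) :
    Poly (fun a => info (w a) (m a) (i a) (j a)) := by
  have hm' := Poly.NPC.of_un hm
  have hi' := Poly.NPC.of_un hi
  have hj' := Poly.NPC.of_un hj
  have h0 : Poly (fun a => if decide (i a = 0) then (w a)[j a]? else none) :=
    Poly.ite (Poly.NPC.nat_eq hi' (Poly.const 0)) (Poly.NPC.getElem? hw hj) (Poly.const _)
  refine (((Poly.NPC.nat_eq hi' (Poly.const 0)).pair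
    (Poly.NPC.nat_eq (Poly.NPC.succ hi') hm')).pair (((Poly.NPC.nat_eq hj' (Poly.const 0)).pair
      ((Poly.NPC.nat_eq hj' (Poly.const 1)).pair
        (Poly.NPC.nat_eq (Poly.NPC.succ hj') hm'))).pair h0)).of_eq fun a => ?_
  unfold info
  by_cases h : i a = 0 <;> simp [h]

theorem poly_cell {c : ℕ} (H V : Fin c → Fin c → Bool) (U : Info → Fin c → Bool)
    {w : α → List Bool} {m i j : α → ℕ} (hw : Poly w)
    (hm : Poly fun a => un (m a)) (hi : Poly fun a => un (i a)) (hj : Poly fun a => un (j a)) :
    Poly (fun a => cellF H V U (w a) (m a) (i a) (j a)) := by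
  have hm' := Poly.NPC.of_un hm
  have hi' := Poly.NPC.of_un hi
  have hj' := Poly.NPC.of_un hj
  have hi1 : Poly (fun a => un (i a + 1)) := Poly.NPC.un_add hi (Poly.NPC.un_const 1)
  have hj1 : Poly (fun a => un (j a + 1)) := Poly.NPC.un_add hj (Poly.NPC.un_const 1)
  have lit : ∀ {f : α → ℕ} (b : Bool), Poly f → Poly (fun a => ((f a, b) : Lit)) :=
    fun b hf => hf.pair (Poly.const b)
  have hU : ∀ q, Poly (fun a => U (info (w a) (m a) (i a) (j a)) q) := fun q =>
    casesPoly_info α Bool (fun x _ => U x q) _ (fun x => Poly.const _) (poly_info hw hm hi hj)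
  unfold cellF
  refine Poly.append (poly_c1 (lit _ (poly_ss c hm hi hj 0))) (Poly.append
    (poly_c1 (lit _ (poly_ss c hm hi hj c))) (Poly.append (poly_flatMap_const _ fun t => ?_)
      (Poly.append (poly_flatMap_const _ fun q => ?_) (Poly.append ?_ ?_))))
  · exact (Poly.pair (lit _ (poly_ss c hm hi hj t)) (Poly.pair (lit _ (poly_vv c hm hi hj t))
      (lit _ (poly_ss c hm hi hj (t + 1))))).cons (Poly.const [])
  · exact Poly.ite (hU q) (Poly.const []) (poly_c1 (lit _ (poly_vv c hm hi hj q)))
  · refine Poly.ite (Poly.NPC.nat_lt (Poly.NPC.succ hj') hm') ?_ (Poly.const [])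
    refine poly_flatMap_const _ fun q => poly_flatMap_const _ fun q' => ?_
    exact Poly.ite (Poly.const _) (Poly.const []) (poly_c2 (lit _ (poly_vv c hm hi hj q))
      (lit _ (poly_vv c hm hi hj1 q')))
  · refine Poly.ite (Poly.NPC.nat_lt (Poly.NPC.succ hi') hm') ?_ (Poly.const [])
    refine poly_flatMap_const _ fun q => poly_flatMap_const _ fun q' => ?_
    exact Poly.ite (Poly.const _) (Poly.const []) (poly_c2 (lit _ (poly_vv c hm hi hj q))
      (lit _ (poly_vv c hm hi1 hj q')))

theorem poly_formula {c : ℕ} (H V : Fin c → Fin c → Bool) (U : Info → Fin c → Bool)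
    {w : α → List Bool} {m : α → ℕ} (hw : Poly w) (hm : Poly fun a => un (m a)) :
    Poly (fun a => formula H V U (w a) (m a)) := by
  unfold formula
  refine Poly.NPC.flatMap_range (h := fun a i => (List.range (m a)).flatMap fun j =>
    cellF H V U (w a) (m a) i j) hm ?_
  refine Poly.NPC.flatMap_range (n := fun p : α × List Unit => m p.1)
    (h := fun (p : α × List Unit) j => cellF H V U (w p.1) (m p.1) p.2.length j)
    (hm.comp Poly.fst) ?_
  exact poly_cell H V U (w := fun z : (α × List Unit) × List Unit => w z.1.1)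
    (m := fun z => m z.1.1) (i := fun z => z.1.2.length) (j := fun z => z.2.length)
    (hw.comp Poly.id.fst'.fst') (hm.comp Poly.id.fst'.fst')
    (Poly.NPC.un_length Poly.id.fst'.snd') (Poly.NPC.un_length Poly.id.snd')

end poly

/-- 3-SAT is NP-hard, given the tableau -/
theorem sat3_hard_of (h : ModCL) : NPHard SAT3 := by
  intro L hL
  obtain ⟨R, p, hR, hRp, hLR⟩ := exists_rel hL
  obtain ⟨Q, hQ, hQne, H, Vt, U, P, hP⟩ := h R p hR hRp
  classical
  let e : Q ≃ Fin (Fintype.card Q) := Fintype.equivFin Q
  have hc : 0 < Fintype.card Q := Fintype.card_pos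
  let H' : Fin (Fintype.card Q) → Fin (Fintype.card Q) → Bool := fun a b => H (e.symm a) (e.symm b)
  let V' : Fin (Fintype.card Q) → Fin (Fintype.card Q) → Bool := fun a b => Vt (e.symm a) (e.symm b)
  let U' : Info → Fin (Fintype.card Q) → Bool := fun x a => U x (e.symm a)
  let f : List Bool → {φ : List Clause // ∀ c ∈ φ, c.Dist} := fun x =>
    ⟨formula H' V' U' (encD (enc x)).reverse (P.eval x.length), formula_dist _ _ _ _ _⟩
  refine ⟨f, ?_, ?_⟩
  · have hw : Poly (fun x : List Bool => (encD (enc x)).reverse) :=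
      Poly.reverse (comp_enc_bits (fun x : List Bool => encD (enc x)))
    have h1 : Poly (fun x : List Bool => formula H' V' U' (encD (enc x)).reverse
        (P.eval x.length)) :=
      poly_formula H' V' U' hw (Poly.NPC.un_eval (Poly.NPC.un_length Poly.id) P)
    exact polyTime_of_poly (β := {φ : List Clause // ∀ c ∈ φ, c.Dist}) h1
  · intro (x : List Bool)
    change x ∈ L ↔ Satis (formula H' V' U' (encD (enc x)).reverse (P.eval x.length))
    rw [hLR x, hP x _ le_rfl, satis_iff _ _ _ _ _ hc]
    constructor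
    · rintro ⟨σ, hσ⟩
      refine ⟨fun i j => e (σ i j), fun i j hi hj => ?_⟩
      simp only [U', H', V', Equiv.symm_apply_apply]
      exact hσ i j hi hj
    · rintro ⟨σ, hσ⟩
      exact ⟨fun i j => e.symm (σ i j), fun i j hi hj => hσ i j hi hj⟩

/-- **3-SAT is NP-hard** (Cook–Levin). -/
theorem sat3_hard : NPHard SAT3 := sat3_hard_of Pool.Agent.PCP.modCL

end Pool.Agent.TM2Lib.NPC
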