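import Pool.Agent.TM2Lib.Poly

/-!
# Some binary arithmetic in polynomial time
-/

namespace Pool.Agent.TM2Lib

open Function Turing D

/-- value of a list of binary digits, least significant digit first -/
def bval : List Bool → ℕ
  | [] => 0
  | b :: l => Nat.bit b (bval l)

theorem bval_bits (n : ℕ) : bval n.bits = n := by
  induction n using Nat.binaryRec' with
  | zero => simp [bval]
  | bit b n h ih => rw [Nat.bits_append_bit n b h, bval, ih]

/-- remove leading zeros -/
def norm : List Bool → List Bool
  | [] => []
  | b :: l => if b || !(norm l).isEmpty then b :: norm l else []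

theorem bits_eq_nil_iff (n : ℕ) : n.bits = [] ↔ n = 0 := by
  constructor
  · intro h
    rw [← bval_bits n, h]
    rfl
  · rintro rfl
    exact Nat.zero_bits

theorem norm_eq (l : List Bool) : norm l = (bval l).bits := by
  induction l with
  | nil => simp [norm, bval]
  | cons b l ih =>
    rw [norm, ih, bval]
    by_cases h : bval l = 0
    · rcases b with _ | _
      · simp [h]
      · simp [h]
    · have h2 : (bval l).bits ≠ [] := fun h' => h ((bits_eq_nil_iff _).1 h')
      have h3 : (b || !(bval l).bits.isEmpty) = true := by
        have : (bval l).bits.isEmpty = false := by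
          rw [List.isEmpty_eq_false_iff]; exact h2
        simp [this]
      rw [if_pos h3, Nat.bits_append_bit _ _ (fun h' => absurd h' h)]

/-- comparison of binary numbers -/
def leBits : Bool → List Bool → List Bool → Bool
  | r, [], l2 => r || l2.any id
  | r, b :: l1, l2 => leBits (lcase (if b then false else r) (fun c _ => if xor b c then c else r)
      l2) l1 l2.tail

theorem any_id_iff (l : List Bool) : l.any id = true ↔ 0 < bval l := by
  induction l with
  | nil => simp [bval]
  | cons b l ih =>
    rw [List.any_cons, bval]
    cases b
    · simp only [id, Bool.false_or, ih, Nat.bit_false]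
      omega
    · simp only [id, Bool.true_or, Nat.bit_true, true_iff]
      omega

theorem leBits_iff (l1 : List Bool) : ∀ (r : Bool) (l2 : List Bool),
    leBits r l1 l2 = true ↔ bval l1 < bval l2 ∨ (bval l1 = bval l2 ∧ r = true) := by
  induction l1 with
  | nil =>
    intro r l2
    rw [leBits, Bool.or_eq_true, any_id_iff]
    have : bval ([] : List Bool) = 0 := rfl
    rw [this]
    cases r
    · simp
    · simp only [true_or, and_true, true_iff]
      omega
  | cons b l1 ih =>
    intro r l2
    rw [leBits, ih]
    rcases l2 with _ | ⟨c, l2⟩
    · simp only [lcase, List.tail_nil]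
      have h0 : bval ([] : List Bool) = 0 := rfl
      have h1 : bval (b :: l1) = Nat.bit b (bval l1) := rfl
      rw [h0, h1]
      cases b <;> cases r <;> simp
    · simp only [lcase, List.tail_cons]
      have h0 : bval (c :: l2) = Nat.bit c (bval l2) := rfl
      have h1 : bval (b :: l1) = Nat.bit b (bval l1) := rfl
      rw [h0, h1]
      cases b <;> cases c <;> cases r <;> simp <;> omega

theorem leBits_foldl (l1 : List Bool) : ∀ (r : Bool) (l2 : List Bool),
    leBits r l1 l2 = ((l1.foldl (fun (s : Bool × List Bool) b =>
      (lcase (if b then false else s.1) (fun c _ => if xor b c then c else s.1) s.2, s.2.tail))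
        (r, l2)).1 || (l1.foldl (fun (s : Bool × List Bool) b =>
      (lcase (if b then false else s.1) (fun c _ => if xor b c then c else s.1) s.2, s.2.tail))
        (r, l2)).2.any id) := by
  induction l1 with
  | nil => intro r l2; rfl
  | cons b l1 ih => intro r l2; rw [leBits, ih]; rfl

namespace Poly
variable {α β γ σ : Type} [Enc α] [Enc β] [Enc γ] [Enc σ]

/-- right folds with additive growth -/
theorem foldr_add {f : α → List β} {g : α → σ} {h : α × (σ × β) → σ} (hf : Poly f)
    (hg : Poly g) (hh : Poly h) (B : Polynomial ℕ)
    (hB : ∀ a s b, b ∈ f a → sz (h (a, (s, b))) ≤ sz s + B.eval (sz a)) :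
    Poly (fun a => (f a).foldr (fun b s => h (a, (s, b))) (g a)) := by
  have h1 := foldl_add (f := fun a => (f a).reverse) hf.reverse hg hh B (by
    intro a s b hb
    exact hB a s b (List.mem_reverse.1 hb))
  refine h1.of_eq fun a => ?_
  rw [List.foldl_reverse]

/-- binary digits -/
theorem bits {f : α → ℕ} (hf : Poly f) : Poly (fun a => (f a).bits) :=
  (of_enc (f := fun n : ℕ => n.bits) fun _ => rfl).comp hf

theorem sz_bool_le (b : Bool) : sz b ≤ 3 := by
  revert b; decide

/-- value of a list of binary digits -/
theorem bval {f : α → List Bool} (hf : Poly f) : Poly (fun a => bval (f a)) := by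
  have h1 := foldr_add (f := f) (g := fun _ => ([] : List Bool))
    (h := fun p : α × (List Bool × Bool) => if p.2.2 || !p.2.1.isEmpty then p.2.2 :: p.2.1
      else []) hf (const []) (ite (Poly.id.snd'.snd'.or (isEmpty Poly.id.snd'.fst').not)
        (Poly.id.snd'.snd'.cons Poly.id.snd'.fst') (const [])) (Polynomial.C 4) (by
      intro a s b _
      have h2 := sz_bool_le b
      have h3 := sz_pos s
      simp only [Polynomial.eval_C]
      split_ifs
      · rw [sz_cons]; omega
      · rw [sz_nil]; omega)
  have h2 : Poly (fun a => norm (f a)) := by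
    refine h1.of_eq fun a => ?_
    induction f a with
    | nil => rfl
    | cons b l ih =>
      rw [List.foldr_cons, norm, ← ih]
  show Comp _ (fun a => encD (enc (TM2Lib.bval (f a))))
  refine h2.congr (fun _ => rfl) (fun a => ?_)
  show (enc (norm (f a))).encD = _
  rw [norm_eq]
  rfl

/-- comparison of natural numbers -/
theorem nat_le {f g : α → ℕ} (hf : Poly f) (hg : Poly g) :
    Poly (fun a => decide (f a ≤ g a)) := by
  have h1 := foldl (f := fun a => (f a).bits) (g := fun a => (true, (g a).bits))
    (h := fun p : α × ((Bool × List Bool) × Bool) =>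
      (lcase (if p.2.2 then false else p.2.1.1)
        (fun c _ => if xor p.2.2 c then c else p.2.1.1) p.2.1.2, p.2.1.2.tail))
    hf.bits ((const true).pair hg.bits)
    ((list_cases (α := α × ((Bool × List Bool) × Bool)) (f := fun p => p.2.1.2)
      (g := fun p => if p.2.2 then false else p.2.1.1)
      (h := fun q => if xor q.1.2.2 q.2.1 then q.2.1 else q.1.2.1.1)
      Poly.id.snd'.fst'.snd' (ite Poly.id.snd'.snd' (const false) Poly.id.snd'.fst'.fst')
      (ite (bne Poly.id.fst'.snd'.snd' Poly.id.snd'.fst') Poly.id.snd'.fst'
        Poly.id.fst'.snd'.fst'.fst')).pair (tail Poly.id.snd'.fst'.snd'))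
  obtain ⟨G, hG⟩ := hg.size
  have h2 := h1 (G + 4) (by
    intro a k
    have key : ∀ (l : List Bool) (s : Bool × List Bool),
        sz (l.foldl (fun (s : Bool × List Bool) b =>
          (lcase (if b then false else s.1) (fun c _ => if xor b c then c else s.1) s.2,
            s.2.tail)) s) ≤ 4 + sz s.2 := by
      intro l
      induction l with
      | nil =>
        intro s
        obtain ⟨r, s⟩ := s
        have := sz_bool_le r
        rw [List.foldl_nil, sz_pair]
        simp only
        omega
      | cons b l ih =>
        intro s
        rw [List.foldl_cons]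
        refine (ih _).trans ?_
        simp only
        have := sz_drop_le s.2 1
        rw [List.drop_one] at this
        omega
    have h3 := key (((f a).bits).take k) (true, (g a).bits)
    have h4 := hG a
    simp only [Polynomial.eval_add, Polynomial.eval_ofNat]
    have h5 : 4 + sz ((true, (g a).bits) : Bool × List Bool).2 = 4 + sz (g a) := rfl
    refine (h3.trans_eq h5).trans ?_
    omega)
  have h3 := (h2.fst').or (any (α := α) (f := fun a => _) (h := fun p => p.2) h2.snd'
    Poly.id.snd')
  refine h3.of_eq fun a => ?_
  have h4 := leBits_foldl (f a).bits true (g a).bits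
  have h5 := leBits_iff (f a).bits true (g a).bits
  rw [bval_bits, bval_bits] at h5
  have h6 : leBits true (f a).bits (g a).bits = decide (f a ≤ g a) := by
    rw [Bool.eq_iff_iff, h5, decide_eq_true_iff]
    simp only [and_true]
    exact le_iff_lt_or_eq.symm
  rw [← h6, h4]
  rfl

/-- doubling -/
theorem double {f : α → ℕ} (hf : Poly f) : Poly (fun a => 2 * f a) := by
  refine (bval (f := fun a => false :: (f a).bits) ((const false).cons hf.bits)).of_eq
    fun a => ?_
  show Nat.bit false (TM2Lib.bval (f a).bits) = 2 * f a
  rw [bval_bits, Nat.bit_false]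

/-- dropping a constant number of entries -/
theorem drop {f : α → List β} (hf : Poly f) (k : ℕ) : Poly (fun a => (f a).drop k) := by
  induction k with
  | zero => exact hf.of_eq fun a => by simp
  | succ k ih =>
    refine (tail ih).of_eq fun a => ?_
    rw [List.tail_drop]

end Poly

/-! ### division by a constant -/

/-- unary numbers -/
abbrev un (n : ℕ) : List Unit := List.replicate n ()

theorem sz_un (n : ℕ) : sz (un n) = 2 * n + 1 := by
  induction n with
  | zero => rfl
  | succ n ih =>
    have : un (n + 1) = () :: un n := rfl
    rw [this, sz_cons, ih]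
    have : sz () = 1 := rfl
    omega

/-- One step of the division by `m`: the state is (quotient digits, remainder in unary), `b` is
the next digit. -/
def divStep (m : ℕ) (s : List Bool × List Unit) (b : Bool) : List Bool × List Unit :=
  let r := s.2 ++ (s.2 ++ (if b then [()] else []))
  if (r.drop (m - 1)).isEmpty then (if s.1.isEmpty then [] else false :: s.1, r)
  else (true :: s.1, r.drop m)

theorem divStep_len (m : ℕ) (l : List Bool) :
    (l.foldr (fun b s => divStep m s b) ([], [])).1.length ≤ l.length := by
  induction l with
  | nil => simp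
  | cons b l ih =>
    rw [List.foldr_cons, List.length_cons]
    have : ∀ s : List Bool × List Unit, (divStep m s b).1.length ≤ s.1.length + 1 := by
      intro s
      unfold divStep
      simp only
      split_ifs <;> simp
    exact (this _).trans (by omega)

theorem divStep_foldr {m : ℕ} (hm : 0 < m) (l : List Bool) :
    l.foldr (fun b s => divStep m s b) ([], []) = ((bval l / m).bits, un (bval l % m)) := by
  induction l with
  | nil =>
    have : bval ([] : List Bool) = 0 := rfl
    rw [this]
    simp
  | cons b l ih =>
    rw [List.foldr_cons, ih]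
    obtain ⟨v, hv⟩ : ∃ v, v = bval l := ⟨_, rfl⟩
    have h1 : bval (b :: l) = Nat.bit b v := by rw [hv]; rfl
    rw [h1, ← hv]
    unfold divStep
    simp only
    have h2 : (un (v % m) ++ (un (v % m) ++ if b = true then [()] else []) : List Unit) =
        un (2 * (v % m) + b.toNat) := by
      cases b
      · simp [un, two_mul]
      · simp only [if_true, un, Bool.toNat_true]
        rw [two_mul, add_assoc, List.replicate_add, List.replicate_add]
        rfl
    rw [h2]
    have h3 : Nat.bit b v = 2 * v + b.toNat := by cases b <;> simp
    have h4 : v = m * (v / m) + v % m := (Nat.div_add_mod v m).symm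
    have h5 : v % m < m := Nat.mod_lt v hm
    have hb : b.toNat ≤ 1 := Bool.toNat_le b
    obtain ⟨q, hq⟩ : ∃ q, q = v / m := ⟨_, rfl⟩
    obtain ⟨r, hr⟩ : ∃ r, r = v % m := ⟨_, rfl⟩
    rw [← hq, ← hr] at h4
    rw [← hr] at h5
    rw [h3, ← hq, ← hr]
    have h6 : 2 * v + b.toNat = 2 * r + b.toNat + m * (2 * q) := by rw [h4]; ring
    rw [h6, Nat.add_mul_div_left _ _ hm, Nat.add_mul_mod_self_left]
    by_cases hlt : 2 * r + b.toNat < m
    · have h7 : ((un (2 * r + b.toNat)).drop (m - 1)).isEmpty = true := by
        rw [List.isEmpty_iff, List.drop_eq_nil_iff]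
        simp only [List.length_replicate]
        omega
      rw [if_pos h7, Nat.div_eq_of_lt hlt, Nat.mod_eq_of_lt hlt, zero_add]
      congr 1
      by_cases hq0 : q = 0
      · subst hq0; simp
      · have h8 : q.bits.isEmpty = false := by
          rw [List.isEmpty_eq_false_iff]
          intro h
          exact hq0 ((bits_eq_nil_iff _).1 h)
        rw [h8]
        have h9 : 2 * q = Nat.bit false q := by simp
        rw [h9, Nat.bits_append_bit _ _ (fun h => absurd h hq0)]
        rfl
    · have h7 : ((un (2 * r + b.toNat)).drop (m - 1)).isEmpty = false := by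
        rw [List.isEmpty_eq_false_iff]
        intro h
        rw [List.drop_eq_nil_iff] at h
        simp only [List.length_replicate] at h
        omega
      have h8 : (2 * r + b.toNat) / m = 1 := by
        rw [Nat.div_eq_iff hm]
        omega
      have h9 : (2 * r + b.toNat) % m = 2 * r + b.toNat - m := by
        have := Nat.div_add_mod (2 * r + b.toNat) m
        rw [h8] at this
        omega
      rw [h7, h8, h9]
      simp only [Bool.false_eq_true, if_false]
      have h10 : 1 + 2 * q = Nat.bit true q := by simp; ring
      rw [h10, Nat.bits_append_bit _ _ (fun _ => rfl)]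
      simp [un]

namespace Poly
variable {α β γ σ : Type} [Enc α] [Enc β] [Enc γ] [Enc σ]

theorem poly_divStep (m : ℕ) : Poly (fun p : α × ((List Bool × List Unit) × Bool) =>
    divStep m p.2.1 p.2.2) := by
  unfold divStep
  simp only
  have hr : Poly (fun p : α × ((List Bool × List Unit) × Bool) =>
      (p.2.1.2 ++ (p.2.1.2 ++ (if p.2.2 then [()] else [])) : List Unit)) :=
    append Poly.id.snd'.fst'.snd' (append Poly.id.snd'.fst'.snd'
      (ite Poly.id.snd'.snd' (const _) (const _)))
  exact ite (isEmpty (drop hr _)) ((ite (isEmpty Poly.id.snd'.fst'.fst') (const [])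
    ((const false).cons Poly.id.snd'.fst'.fst')).pair hr)
    (((const true).cons Poly.id.snd'.fst'.fst').pair (drop hr _))

/-- division by a positive constant -/
theorem div_const {f : α → ℕ} (hf : Poly f) (m : ℕ) (hm : 0 < m) :
    Poly (fun a => f a / m) := by
  have h1 := foldr (f := fun a => (f a).bits) (g := fun _ => (([], []) : List Bool × List Unit))
    (h := fun p : α × ((List Bool × List Unit) × Bool) => divStep m p.2.1 p.2.2)
    hf.bits (const _) (poly_divStep m)
  obtain ⟨F, hF⟩ := hf.size
  have h2 := h1 (4 * F + 2 * Polynomial.C m + 10) (by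
    intro a k
    rw [divStep_foldr hm, sz_pair, sz_un]
    have h3 : (TM2Lib.bval ((f a).bits.drop k)) % m < m := Nat.mod_lt _ hm
    have h4 : ∀ n : ℕ, sz n.bits ≤ 4 * n.bits.length + 1 := by
      intro n
      induction n.bits with
      | nil => simp
      | cons b l ih =>
        rw [sz_cons, List.length_cons]
        have := sz_bool_le b
        omega
    have h5 : (TM2Lib.bval ((f a).bits.drop k) / m).bits.length ≤ (f a).bits.length := by
      have h5 := divStep_len m ((f a).bits.drop k)
      rw [divStep_foldr hm] at h5
      simp only [List.length_drop] at h5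
      omega
    have h6 := length_lt_sz (f a).bits
    have h7 : sz (f a).bits = sz (f a) := rfl
    have h8 := hF a
    have h9 := h4 (TM2Lib.bval ((f a).bits.drop k) / m)
    simp only [Polynomial.eval_add, Polynomial.eval_mul, Polynomial.eval_ofNat,
      Polynomial.eval_C]
    omega)
  have h3 := h2.fst'
  show Comp _ (fun a => encD (enc (f a / m)))
  refine h3.congr (fun _ => rfl) (fun a => ?_)
  simp only
  rw [divStep_foldr hm, bval_bits]
  rfl

end Poly

end Pool.Agent.TM2Lib
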