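import Pool.Agent.TM2Lib.Comp

/-!
# Basic programs and closure of `Comp` under composition
-/

namespace Pool.Agent.TM2Lib

open Function Turing

section prog
variable {K : Type} [DecidableEq K] {Γ : K → Type}

theorem Frag.Run.congr {F : Frag K Γ} {s s' t : ∀ k, List (Γ k)} {n m : ℕ} (h : F.Run s s' n)
    (h1 : s' = t) (h2 : n = m) : F.Run s t m := h1 ▸ h2 ▸ h

theorem Frag.Run.cast {F : Frag K Γ} {s s' t t' : ∀ k, List (Γ k)} {n : ℕ}
    (h : F.Run s s' n) (h1 : s = t) (h2 : s' = t') : F.Run t t' n := h1 ▸ h2 ▸ h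

/-- move everything from `j` to `k` (reversing the order) -/
def moveAll (j k : K) (f : Γ j → Bool) (g : Bool → Γ k) : Frag K Γ :=
  Frag.whl j (fun o => o.isSome) (Frag.mv j k f g)

theorem moveAll_run (j k : K) (hjk : j ≠ k) (f : Γ j → Bool) (g : Bool → Γ k)
    (x : List (Γ j)) : ∀ (s : ∀ k, List (Γ k)), s j = x →
    (moveAll j k f g).Run s
      (update (update s j []) k ((x.map (fun a => g (f a))).reverse ++ s k))
      (2 * x.length + 1) := by
  induction x with
  | nil =>
    intro s hs
    refine (Frag.whl_stop (by rw [hs]; rfl)).congr ?_ (by simp)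
    have h1 : update s j [] = s := by rw [update_eq_self_iff]; exact hs.symm
    rw [h1]
    simp
  | cons a l ih =>
    intro s hs
    have h1 := Frag.mv_run j k f g s a l hs
    have h2 := ih (update (update s j l) k (g (f a) :: (update s j l) k)) (by
      rw [update_of_ne hjk, update_self])
    refine (Frag.whl_go (by rw [hs]; rfl) h1 h2).congr ?_ (by simp; ring)
    funext m
    by_cases hm : m = k
    · subst hm
      simp [update_of_ne hjk.symm]
    · by_cases hmj : m = j
      · subst hmj
        simp [update_of_ne hm]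
      · simp [update_of_ne hm, update_of_ne hmj]

/-- move everything from `j` to `k` and `k'` (reversing the order) -/
def moveAll2 (j k k' : K) (f : Γ j → Bool) (g : Bool → Γ k) (g' : Bool → Γ k') : Frag K Γ :=
  Frag.whl j (fun o => o.isSome) (Frag.mv2 j k k' f g g')

theorem moveAll2_run (j k k' : K) (hjk : j ≠ k) (hjk' : j ≠ k') (hkk' : k ≠ k') (f : Γ j → Bool)
    (g : Bool → Γ k) (g' : Bool → Γ k') (x : List (Γ j)) :
    ∀ (s : ∀ k, List (Γ k)), s j = x →
    (moveAll2 j k k' f g g').Run s
      (update (update (update s j []) k ((x.map (fun a => g (f a))).reverse ++ s k)) k'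
        ((x.map (fun a => g' (f a))).reverse ++ s k'))
      (2 * x.length + 1) := by
  induction x with
  | nil =>
    intro s hs
    refine (Frag.whl_stop (by rw [hs]; rfl)).congr ?_ (by simp)
    have h1 : update s j [] = s := by rw [update_eq_self_iff]; exact hs.symm
    rw [h1]
    simp
  | cons a l ih =>
    intro s hs
    have h1 := Frag.mv2_run j k k' f g g' s a l hs
    have h2 := ih (update (update (update s j l) k (g (f a) :: (update s j l) k)) k'
        (g' (f a) :: (update (update s j l) k (g (f a) :: (update s j l) k)) k')) (by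
      rw [update_of_ne hjk', update_of_ne hjk, update_self])
    refine (Frag.whl_go (by rw [hs]; rfl) h1 h2).congr ?_ (by simp; ring)
    funext m
    by_cases hm' : m = k'
    · subst hm'
      simp [update_of_ne hjk'.symm, update_of_ne hkk'.symm]
    · by_cases hm : m = k
      · subst hm
        simp [update_of_ne hjk.symm, update_of_ne hkk']
      · by_cases hmj : m = j
        · subst hmj
          simp [update_of_ne hm, update_of_ne hm']
        · simp [update_of_ne hm, update_of_ne hmj, update_of_ne hm']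

/-- Specification of `moveAll` through the contents of the stacks, seen as Boolean strings. -/
theorem moveAll_spec (j k : K) (hjk : j ≠ k) (ej : Γ j ≃ Bool) (ek : Γ k ≃ Bool)
    (s s' : ∀ k, List (Γ k)) (x w : List Bool) (hj : s j = x.map ej.symm)
    (hk : s k = w.map ek.symm) (hj' : s' j = []) (hk' : s' k = (x.reverse ++ w).map ek.symm)
    (hm : ∀ m, m ≠ j → m ≠ k → s' m = s m) :
    (moveAll j k ej ek.symm).Run s s' (2 * x.length + 1) := by
  refine (moveAll_run j k hjk ej ek.symm _ s hj).congr ?_ (by simp)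
  funext m
  by_cases h1 : m = k
  · subst h1
    rw [update_self, hk', hk, List.map_append]
    congr 1
    simp [List.map_map, Function.comp_def]
  · rw [update_of_ne h1]
    by_cases h2 : m = j
    · subst h2
      rw [update_self, hj']
    · rw [update_of_ne h2, hm m h2 h1]

/-- Specification of `moveAll2` through the contents of the stacks, seen as Boolean strings. -/
theorem moveAll2_spec (j k k' : K) (hjk : j ≠ k) (hjk' : j ≠ k') (hkk' : k ≠ k')
    (ej : Γ j ≃ Bool) (ek : Γ k ≃ Bool) (ek' : Γ k' ≃ Bool)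
    (s s' : ∀ k, List (Γ k)) (x w w' : List Bool) (hj : s j = x.map ej.symm)
    (hk : s k = w.map ek.symm) (hk1 : s k' = w'.map ek'.symm)
    (hj' : s' j = []) (hk' : s' k = (x.reverse ++ w).map ek.symm)
    (hk2 : s' k' = (x.reverse ++ w').map ek'.symm)
    (hm : ∀ m, m ≠ j → m ≠ k → m ≠ k' → s' m = s m) :
    (moveAll2 j k k' ej ek.symm ek'.symm).Run s s' (2 * x.length + 1) := by
  refine (moveAll2_run j k k' hjk hjk' hkk' ej ek.symm ek'.symm _ s hj).congr ?_ (by simp)
  funext m
  by_cases h0 : m = k'
  · subst h0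
    rw [update_self, hk2, hk1, List.map_append]
    congr 1
    simp [List.map_map, Function.comp_def]
  · rw [update_of_ne h0]
    by_cases h1 : m = k
    · subst h1
      rw [update_self, hk', hk, List.map_append]
      congr 1
      simp [List.map_map, Function.comp_def]
    · rw [update_of_ne h1]
      by_cases h2 : m = j
      · subst h2
        rw [update_self, hj']
      · rw [update_of_ne h2, hm m h2 h1 h0]

/-- empty the stack `k` -/
def clearAll (k : K) : Frag K Γ := Frag.whl k (fun o => o.isSome) (Frag.pop k)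

theorem clearAll_run (k : K) (x : List (Γ k)) : ∀ (s : ∀ k, List (Γ k)), s k = x →
    (clearAll k : Frag K Γ).Run s (update s k []) (2 * x.length + 1) := by
  induction x with
  | nil =>
    intro s hs
    refine (Frag.whl_stop (by rw [hs]; rfl)).congr ?_ (by simp)
    rw [eq_comm, update_eq_self_iff]
    exact hs.symm
  | cons a l ih =>
    intro s hs
    have h1 := Frag.pop_run k s
    rw [hs] at h1
    have h2 := ih (update s k (a :: l).tail) (by simp)
    refine (Frag.whl_go (by rw [hs]; rfl) h1 h2).congr ?_ (by simp; ring)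
    simp

theorem clearAll_spec (k : K) (s s' : ∀ k, List (Γ k)) (hk' : s' k = [])
    (hm : ∀ m, m ≠ k → s' m = s m) :
    (clearAll k : Frag K Γ).Run s s' (2 * (s k).length + 1) := by
  refine (clearAll_run k _ s rfl).congr ?_ rfl
  funext m
  by_cases h : m = k
  · subst h; rw [update_self, hk']
  · rw [update_of_ne h, hm m h]

end prog

section single
variable {K1 K2 : Type} [DecidableEq K1] [DecidableEq K2] {Γ1 : K1 → Type} {Γ2 : K2 → Type}

/-- the empty store -/
abbrev emp {K : Type} {Γ : K → Type} : ∀ k, List (Γ k) := fun _ => []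

omit [DecidableEq K1] [DecidableEq K2] in
theorem join_emp : join (emp : ∀ k, List (Γ1 k)) (emp : ∀ k, List (Γ2 k)) = emp := by
  funext k
  rcases k with k | k <;> rfl

theorem single_inl (k : K1) (x : List (Γ1 k)) :
    single (Γ := SG Γ1 Γ2) (Sum.inl k) x = join (single k x) emp := by
  unfold single
  rw [← update_join_inl]
  congr 1
  exact join_emp.symm

theorem single_inr (k : K2) (x : List (Γ2 k)) :
    single (Γ := SG Γ1 Γ2) (Sum.inr k) x = join emp (single k x) := by
  unfold single
  rw [← update_join_inr]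
  congr 1
  exact join_emp.symm

omit [DecidableEq K2] in
@[simp] theorem update_single (k : K1) (x y : List (Γ1 k)) :
    update (single k x) k y = single k y := by
  unfold single
  simp

omit [DecidableEq K2] in
@[simp] theorem single_nil (k : K1) : single k ([] : List (Γ1 k)) = emp := by
  unfold single
  simp

omit [DecidableEq K2] in
theorem single_of_ne {k m : K1} (h : m ≠ k) (x : List (Γ1 k)) : single k x m = [] := by
  simp [single, update_of_ne h]

omit [DecidableEq K2] in
theorem update_emp (k : K1) (x : List (Γ1 k)) :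
    update (emp : ∀ k, List (Γ1 k)) k x = single k x := rfl

omit [DecidableEq K2] in
@[simp] theorem single_self (k : K1) (x : List (Γ1 k)) : single k x k = x := by
  simp [single]

end single

theorem map_refl (x : List Bool) : x.map (Equiv.refl Bool).symm = x := by
  simp

theorem map_map_equiv {A : Type} (e : A ≃ Bool) (x : List Bool) :
    (x.map e.symm).map e = x := by
  simp [List.map_map]

/-- Composition. -/
theorem Comp.trans {α : Type} {x y z : α → List Bool} (h1 : Comp x y) (h2 : Comp y z) :
    Comp x z := by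
  obtain ⟨S, hS⟩ := h1.size
  obtain ⟨P⟩ := h1
  obtain ⟨Q⟩ := h2
  let Γ0 : Unit → Type := fun _ => Bool
  let Γ : P.K ⊕ (Q.K ⊕ Unit) → Type := SG P.Γ (SG Q.Γ Γ0)
  let kp : P.K ⊕ (Q.K ⊕ Unit) := Sum.inl P.o
  let kt : P.K ⊕ (Q.K ⊕ Unit) := Sum.inr (Sum.inr ())
  let kq : P.K ⊕ (Q.K ⊕ Unit) := Sum.inr (Sum.inl Q.i)
  let F1 : Frag (P.K ⊕ (Q.K ⊕ Unit)) Γ := P.F.liftL
  let F2 : Frag (P.K ⊕ (Q.K ⊕ Unit)) Γ := moveAll kp kt P.eo (Equiv.refl Bool).symm
  let F3 : Frag (P.K ⊕ (Q.K ⊕ Unit)) Γ := moveAll kt kq (Equiv.refl Bool) Q.ei.symm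
  let F4 : Frag (P.K ⊕ (Q.K ⊕ Unit)) Γ := Frag.liftR (Q.F.liftL (K2 := Unit) (Γ2 := Γ0))
  refine ⟨⟨P.K ⊕ (Q.K ⊕ Unit), inferInstance, inferInstance, Γ,
    (F1.seq F2).seq (F3.seq F4), Sum.inl P.i, Sum.inr (Sum.inl Q.o), P.ei, Q.eo,
    P.T + (2 * S + 1) + ((2 * S + 1) + Q.T.comp S), ?_⟩⟩
  intro a
  obtain ⟨n1, hn1, hr1⟩ := P.spec a
  obtain ⟨n2, hn2, hr2⟩ := Q.spec a
  have r1 : F1.Run (join (single P.i ((x a).map P.ei.symm)) emp)
      (join (single P.o ((y a).map P.eo.symm)) emp) n1 := Frag.liftL_run hr1 _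
  have r2 : F2.Run (join (single P.o ((y a).map P.eo.symm)) emp)
      (join emp (join emp (single () (y a).reverse))) (2 * (y a).length + 1) := by
    refine moveAll_spec (Γ := Γ) kp kt (by simp [kp, kt]) P.eo (Equiv.refl Bool) _ _
      (y a) [] (by simp [kp]) (by simp [kt]) (by simp [kp]) (by
        rw [List.append_nil]; exact (map_refl _).symm) ?_
    intro m h1 h2
    rcases m with m | m | m
    · have : m ≠ P.o := fun h => h1 (by rw [h])
      exact (single_of_ne this _).symm
    · rfl
    · exact absurd rfl h2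
  have r3 : F3.Run (join emp (join emp (single () (y a).reverse)))
      (join emp (join (single Q.i ((y a).map Q.ei.symm)) emp)) (2 * (y a).reverse.length + 1) := by
    refine moveAll_spec (Γ := Γ) kt kq (by simp [kt, kq]) (Equiv.refl Bool) Q.ei _ _
      (y a).reverse [] (map_refl _).symm (by simp [kq]) (by simp [kt]) (by simp [kq]) ?_
    intro m h1 h2
    rcases m with m | m | m
    · rfl
    · have : m ≠ Q.i := fun h => h2 (by rw [h])
      exact single_of_ne this _
    · exact absurd rfl h1
  have r4 : F4.Run (join emp (join (single Q.i ((y a).map Q.ei.symm)) emp))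
      (join emp (join (single Q.o ((z a).map Q.eo.symm)) emp)) n2 :=
    Frag.liftR_run (Frag.liftL_run hr2 _) _
  have e1 : join (single P.i ((x a).map P.ei.symm)) emp =
      (single (Sum.inl P.i) ((x a).map P.ei.symm) : ∀ k, List (Γ k)) := (single_inl _ _).symm
  have e2 : join emp (join (single Q.o ((z a).map Q.eo.symm)) emp) =
      (single (Sum.inr (Sum.inl Q.o)) ((z a).map Q.eo.symm) : ∀ k, List (Γ k)) := by
    rw [← single_inl, ← single_inr]
  have r := (Frag.seq_run (Frag.seq_run r1 r2) (Frag.seq_run r3 r4)).cast e1 e2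
  refine ⟨_, ?_, r⟩
  · have h3 : Q.T.eval (y a).length ≤ Q.T.eval (S.eval (x a).length) := eval_mono _ (hS a)
    have h4 := hS a
    simp only [Polynomial.eval_add, Polynomial.eval_mul, Polynomial.eval_one,
      Polynomial.eval_comp, Polynomial.eval_ofNat, List.length_reverse]
    omega

/-- Call the procedure `P` on the contents of the stack `j`, using the scratch stack `b`. -/
def call {α : Type} {x y : α → List Bool} (P : Proc x y) {K2 : Type} [DecidableEq K2]
    {Γ2 : K2 → Type} (j b : K2) (ej : Γ2 j ≃ Bool) (eb : Γ2 b ≃ Bool) :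
    Frag (P.K ⊕ K2) (SG P.Γ Γ2) :=
  (moveAll (Γ := SG P.Γ Γ2) (Sum.inr j) (Sum.inr b) ej eb.symm).seq
    ((moveAll (Γ := SG P.Γ Γ2) (Sum.inr b) (Sum.inl P.i) eb P.ei.symm).seq
      (P.F.liftL.seq ((moveAll (Γ := SG P.Γ Γ2) (Sum.inl P.o) (Sum.inr b) P.eo eb.symm).seq
        (moveAll (Γ := SG P.Γ Γ2) (Sum.inr b) (Sum.inr j) eb ej.symm))))

theorem call_run {α : Type} {x y : α → List Bool} (P : Proc x y) {K2 : Type} [DecidableEq K2]
    {Γ2 : K2 → Type} (j b : K2) (hjb : j ≠ b) (ej : Γ2 j ≃ Bool) (eb : Γ2 b ≃ Bool) (a : α)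
    (t : ∀ k, List (Γ2 k)) (hj : t j = (x a).map ej.symm) (hb : t b = []) :
    ∃ n ≤ 4 * (x a).length + 4 * (y a).length + P.T.eval (x a).length + 4,
      (call P j b ej eb).Run (join emp t) (join emp (update t j ((y a).map ej.symm))) n := by
  obtain ⟨n, hn, hr⟩ := P.spec a
  have r1 : (moveAll (Γ := SG P.Γ Γ2) (Sum.inr j) (Sum.inr b) ej eb.symm).Run (join emp t)
      (join emp (update (update t j []) b ((x a).reverse.map eb.symm)))
      (2 * (x a).length + 1) := by
    refine moveAll_spec (Γ := SG P.Γ Γ2) (Sum.inr j) (Sum.inr b) (by simpa using hjb) ej eb _ _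
      (x a) [] hj hb (by simp [update_of_ne hjb]) (by simp) ?_
    intro m h1 h2
    rcases m with m | m
    · rfl
    · have h1' : m ≠ j := fun h => h1 (by rw [h])
      have h2' : m ≠ b := fun h => h2 (by rw [h])
      simp [update_of_ne h1', update_of_ne h2']
  have r2 : (moveAll (Γ := SG P.Γ Γ2) (Sum.inr b) (Sum.inl P.i) eb P.ei.symm).Run
      (join emp (update (update t j []) b ((x a).reverse.map eb.symm)))
      (join (single P.i ((x a).map P.ei.symm)) (update t j []))
      (2 * (x a).reverse.length + 1) := by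
    refine moveAll_spec (Γ := SG P.Γ Γ2) (Sum.inr b) (Sum.inl P.i) (by simp) eb P.ei _ _
      (x a).reverse [] (by simp) (by simp) (by simp [update_of_ne hjb.symm, hb])
      (by simp) ?_
    intro m h1 h2
    rcases m with m | m
    · have h2' : m ≠ P.i := fun h => h2 (by rw [h])
      simp [single_of_ne h2']
    · have h1' : m ≠ b := fun h => h1 (by rw [h])
      simp [update_of_ne h1']
  have r3 : (P.F.liftL (K2 := K2) (Γ2 := Γ2)).Run
      (join (single P.i ((x a).map P.ei.symm)) (update t j []))
      (join (single P.o ((y a).map P.eo.symm)) (update t j [])) n := Frag.liftL_run hr _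
  have r4 : (moveAll (Γ := SG P.Γ Γ2) (Sum.inl P.o) (Sum.inr b) P.eo eb.symm).Run
      (join (single P.o ((y a).map P.eo.symm)) (update t j []))
      (join emp (update (update t j []) b ((y a).reverse.map eb.symm)))
      (2 * (y a).length + 1) := by
    refine moveAll_spec (Γ := SG P.Γ Γ2) (Sum.inl P.o) (Sum.inr b) (by simp) P.eo eb _ _
      (y a) [] (by simp) (by simp [update_of_ne hjb.symm, hb]) (by simp)
      (by simp) ?_
    intro m h1 h2
    rcases m with m | m
    · have h1' : m ≠ P.o := fun h => h1 (by rw [h])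
      simp [single_of_ne h1']
    · have h2' : m ≠ b := fun h => h2 (by rw [h])
      simp [update_of_ne h2']
  have r5 : (moveAll (Γ := SG P.Γ Γ2) (Sum.inr b) (Sum.inr j) eb ej.symm).Run
      (join emp (update (update t j []) b ((y a).reverse.map eb.symm)))
      (join emp (update t j ((y a).map ej.symm)))
      (2 * (y a).reverse.length + 1) := by
    refine moveAll_spec (Γ := SG P.Γ Γ2) (Sum.inr b) (Sum.inr j) (by simpa using hjb.symm)
      eb ej _ _ (y a).reverse [] (by simp) (by simp [update_of_ne hjb])
      (by simp [update_of_ne hjb.symm, hb]) (by simp) ?_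
    intro m h1 h2
    rcases m with m | m
    · rfl
    · have h1' : m ≠ b := fun h => h1 (by rw [h])
      have h2' : m ≠ j := fun h => h2 (by rw [h])
      simp [update_of_ne h1', update_of_ne h2']
  refine ⟨_, ?_, Frag.seq_run r1 (Frag.seq_run r2 (Frag.seq_run r3 (Frag.seq_run r4 r5)))⟩
  simp only [List.length_reverse]
  omega

end Pool.Agent.TM2Lib
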