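import Pool.Agent.TM2Lib.Tree

/-!
# Closure of `Comp` under the basic operations on trees: head, tail, pairing, branching and
bounded iteration
-/

namespace Pool.Agent.TM2Lib

open Function Turing D

section
variable {α : Type} {A : Type} [DecidableEq A]

/-- the store with `x` on stack `i` only -/
abbrev one (i : A) (x : List Bool) : BS A := update (fun _ => []) i x

theorem Comp.ofB [Fintype A] {x y : α → List Bool} (F : Frag A (GB A)) (i o : A)
    (T : Polynomial ℕ)
    (h : ∀ a, ∃ n ≤ T.eval (x a).length, F.Run (one i (x a)) (one o (y a)) n) : Comp x y := by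
  refine ⟨⟨A, inferInstance, inferInstance, GB A, F, i, o, Equiv.refl Bool, Equiv.refl Bool, T,
    ?_⟩⟩
  intro a
  obtain ⟨n, hn, hr⟩ := h a
  refine ⟨n, hn, ?_⟩
  have e1 : one i (x a) = single (Γ := GB A) i ((x a).map (Equiv.refl Bool).symm) := by
    rw [map_refl]; rfl
  have e2 : one o (y a) = single (Γ := GB A) o ((y a).map (Equiv.refl Bool).symm) := by
    rw [map_refl]; rfl
  exact hr.cast e1 e2

end

/-! ### head and tail -/

theorem one4_0 (x : List Bool) : one (0 : Fin 4) x = ![x, [], [], []] := by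
  funext m; fin_cases m <;> rfl

theorem one4_1 (x : List Bool) : one (1 : Fin 4) x = ![[], x, [], []] := by
  funext m; fin_cases m <;> rfl

theorem one4_3 (x : List Bool) : one (3 : Fin 4) x = ![[], [], [], x] := by
  funext m; fin_cases m <;> rfl

theorem Comp.hd {α : Type} (u v : α → D) :
    Comp (fun a => encD (cons (u a) (v a))) (fun a => encD (u a)) := by
  refine Comp.ofB (A := Fin 4) ((Frag.pop 0).seq ((ext 0 1 2).seq ((clearAll 0).seq
    (moveAll 1 3 (Equiv.refl Bool) (Equiv.refl Bool).symm)))) 0 3 (8 * Polynomial.X + 20) ?_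
  intro a
  have r1 : (Frag.pop 0 : Frag (Fin 4) (GB (Fin 4))).Run ![encD (cons (u a) (v a)), [], [], []]
      ![encD (u a) ++ encD (v a), [], [], []] 1 := by
    refine popB 0 _ _ ?_ ?_
    · simp [encD]
    · intro m hm; fin_cases m <;> simp_all
  have r2 : (ext 0 1 2 : Frag (Fin 4) (GB (Fin 4))).Run ![encD (u a) ++ encD (v a), [], [], []]
      ![encD (v a), (encD (u a)).reverse, [], []] (4 * (u a).size + 2) := by
    refine ext_spec 0 1 2 (by decide) (by decide) (by decide) (u a) _ _ (encD (v a)) []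
      ?_ ?_ ?_ ?_ ?_ ?_ ?_ <;> try simp
    intro m h1 h2 h3; fin_cases m <;> simp_all
  have r3 : (clearAll 0 : Frag (Fin 4) (GB (Fin 4))).Run
      ![encD (v a), (encD (u a)).reverse, [], []]
      ![[], (encD (u a)).reverse, [], []] (2 * (encD (v a)).length + 1) := by
    refine clearB 0 _ _ _ ?_ ?_ ?_ <;> try simp
    intro m h1; fin_cases m <;> simp_all
  have r4 : (moveAll 1 3 (Equiv.refl Bool) (Equiv.refl Bool).symm :
      Frag (Fin 4) (GB (Fin 4))).Run ![[], (encD (u a)).reverse, [], []]
      ![[], [], [], encD (u a)] (2 * (encD (u a)).reverse.length + 1) := by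
    refine moveB 1 3 (by decide) _ _ (encD (u a)).reverse [] ?_ ?_ ?_ ?_ ?_ <;> try simp
    intro m h1; fin_cases m <;> simp_all
  refine ⟨_, ?_, (Frag.seq_run r1 (Frag.seq_run r2 (Frag.seq_run r3 r4))).cast
    (one4_0 _).symm (one4_3 _).symm⟩
  have h1 : (encD (cons (u a) (v a))).length = (u a).size + (v a).size + 1 := size_cons _ _
  have h2 : (encD (u a)).length = (u a).size := rfl
  have h3 : (encD (v a)).length = (v a).size := rfl
  simp only [List.length_reverse, Polynomial.eval_add, Polynomial.eval_mul, Polynomial.eval_X,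
    Polynomial.eval_ofNat, h1, h2, h3]
  omega

theorem Comp.tl {α : Type} (u v : α → D) :
    Comp (fun a => encD (cons (u a) (v a))) (fun a => encD (v a)) := by
  refine Comp.ofB (A := Fin 4) ((Frag.pop 0).seq ((ext 0 1 2).seq (clearAll 1))) 0 0
    (8 * Polynomial.X + 20) ?_
  intro a
  have r1 : (Frag.pop 0 : Frag (Fin 4) (GB (Fin 4))).Run ![encD (cons (u a) (v a)), [], [], []]
      ![encD (u a) ++ encD (v a), [], [], []] 1 := by
    refine popB 0 _ _ ?_ ?_
    · simp [encD]
    · intro m hm; fin_cases m <;> simp_all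
  have r2 : (ext 0 1 2 : Frag (Fin 4) (GB (Fin 4))).Run ![encD (u a) ++ encD (v a), [], [], []]
      ![encD (v a), (encD (u a)).reverse, [], []] (4 * (u a).size + 2) := by
    refine ext_spec 0 1 2 (by decide) (by decide) (by decide) (u a) _ _ (encD (v a)) []
      ?_ ?_ ?_ ?_ ?_ ?_ ?_ <;> try simp
    intro m h1 h2 h3; fin_cases m <;> simp_all
  have r3 : (clearAll 1 : Frag (Fin 4) (GB (Fin 4))).Run
      ![encD (v a), (encD (u a)).reverse, [], []]
      ![encD (v a), [], [], []] (2 * (encD (u a)).reverse.length + 1) := by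
    refine clearB 1 _ _ _ ?_ ?_ ?_ <;> try simp
    intro m h1; fin_cases m <;> simp_all
  refine ⟨_, ?_, (Frag.seq_run r1 (Frag.seq_run r2 r3)).cast
    (one4_0 _).symm (one4_0 _).symm⟩
  have h1 : (encD (cons (u a) (v a))).length = (u a).size + (v a).size + 1 := size_cons _ _
  have h2 : (encD (u a)).length = (u a).size := rfl
  simp only [List.length_reverse, Polynomial.eval_add, Polynomial.eval_mul, Polynomial.eval_X,
    Polynomial.eval_ofNat, h1, h2]
  omega

/-- constants -/
theorem Comp.const {α : Type} (x : α → List Bool) (c : List Bool) : Comp x (fun _ => c) := by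
  have key : ∀ c : List Bool, ∃ (F : Frag (Fin 4) (GB (Fin 4))) (k : ℕ),
      F.Run ![[], [], [], []] ![c, [], [], []] k := by
    intro c
    induction c with
    | nil =>
      refine ⟨Frag.skip, 1, ?_⟩
      exact Frag.skip_run _
    | cons b c ih =>
      obtain ⟨F, k, h⟩ := ih
      refine ⟨F.seq (Frag.push 0 b), k + 1, Frag.seq_run h ?_⟩
      refine pushB 0 b _ _ ?_ ?_
      · simp
      · intro m hm; fin_cases m <;> simp_all
  obtain ⟨F, k, h⟩ := key c
  refine Comp.ofB (A := Fin 4) ((clearAll 0).seq F) 0 0 (2 * Polynomial.X + 1 +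
    Polynomial.C k) ?_
  intro a
  have r1 : (clearAll 0 : Frag (Fin 4) (GB (Fin 4))).Run
      ![x a, [], [], []] ![[], [], [], []] (2 * (x a).length + 1) := by
    refine clearB 0 _ _ _ ?_ ?_ ?_ <;> try simp
    intro m h1; fin_cases m <;> simp_all
  refine ⟨_, ?_, (Frag.seq_run r1 h).cast (one4_0 _).symm (one4_0 _).symm⟩
  simp

/-! ### pairing -/

theorem map_refl' (x : List Bool) : x = x.map (Equiv.refl Bool).symm := (map_refl x).symm

theorem join_one {K1 A : Type} [DecidableEq K1] [DecidableEq A] (Γ1 : K1 → Type) (i : A)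
    (x : List Bool) : join (emp : ∀ k, List (Γ1 k)) (Γ2 := GB A) (one i x) =
      single (Γ := SG Γ1 (GB A)) (Sum.inr i) (x.map (Equiv.refl Bool).symm) := by
  rw [map_refl]
  exact (single_inr (Γ1 := Γ1) (Γ2 := GB A) i x).symm

theorem join_join_one {K1 K2 A : Type} [DecidableEq K1] [DecidableEq K2] [DecidableEq A]
    (Γ1 : K1 → Type) (Γ2 : K2 → Type) (i : A) (x : List Bool) :
    join (emp : ∀ k, List (Γ1 k)) (join (emp : ∀ k, List (Γ2 k)) (Γ2 := GB A) (one i x)) =
      single (Γ := SG Γ1 (SG Γ2 (GB A))) (Sum.inr (Sum.inr i))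
        (x.map (Equiv.refl Bool).symm) := by
  rw [join_one]
  exact (single_inr (Γ1 := Γ1) (Γ2 := SG Γ2 (GB A)) (Sum.inr i) _).symm

theorem Comp.pair {α : Type} {x : α → List Bool} {u v : α → D}
    (h1 : Comp x (fun a => encD (u a))) (h2 : Comp x (fun a => encD (v a))) :
    Comp x (fun a => encD (cons (u a) (v a))) := by
  obtain ⟨S, hS⟩ := h1.size
  obtain ⟨S', hS'⟩ := h2.size
  obtain ⟨P⟩ := h1
  obtain ⟨Q⟩ := h2
  let A := Fin 3
  let K2 := Q.K ⊕ A
  let Γ2 : K2 → Type := SG Q.Γ (GB A)
  let Γ : P.K ⊕ K2 → Type := SG P.Γ Γ2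
  let E : Equiv Bool Bool := Equiv.refl Bool
  let G1 : Frag A (GB A) := (moveAll2 0 1 2 E E.symm E.symm).seq
    ((moveAll 1 0 E E.symm).seq (moveAll 2 1 E E.symm))
  let G4 : Frag A (GB A) := (moveAll 0 2 E E.symm).seq ((moveAll 2 1 E E.symm).seq
    (Frag.push 1 true))
  let F1 : Frag (P.K ⊕ K2) Γ := Frag.liftR (Frag.liftR G1)
  let F2 : Frag (P.K ⊕ K2) Γ := call P (Γ2 := Γ2) (Sum.inr 0) (Sum.inr 2) E E
  let F3 : Frag (P.K ⊕ K2) Γ := Frag.liftR (call Q (Γ2 := GB A) 1 2 E E)
  let F4 : Frag (P.K ⊕ K2) Γ := Frag.liftR (Frag.liftR G4)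
  refine ⟨⟨P.K ⊕ K2, inferInstance, inferInstance, Γ, F1.seq (F2.seq (F3.seq F4)),
    Sum.inr (Sum.inr 0), Sum.inr (Sum.inr 1), E, E,
    20 * Polynomial.X + P.T + Q.T + 10 * S + 10 * S' + 100, ?_⟩⟩
  intro a
  have r1 : G1.Run ![x a, [], []] ![x a, x a, []] (2 * (x a).length + 1 +
      (2 * (x a).reverse.length + 1 + (2 * (x a).reverse.length + 1))) := by
    have t1 : (moveAll2 0 1 2 E E.symm E.symm : Frag A (GB A)).Run ![x a, [], []]
        ![[], (x a).reverse, (x a).reverse] (2 * (x a).length + 1) := by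
      refine move2B 0 1 2 (by decide) (by decide) (by decide) _ _ (x a) [] [] ?_ ?_ ?_ ?_ ?_ ?_ ?_
        <;> try simp
      intro m h1 h2 h3; fin_cases m <;> simp_all
    have t2 : (moveAll 1 0 E E.symm : Frag A (GB A)).Run
        ![[], (x a).reverse, (x a).reverse] ![x a, [], (x a).reverse]
        (2 * (x a).reverse.length + 1) := by
      refine moveB 1 0 (by decide) _ _ (x a).reverse [] ?_ ?_ ?_ ?_ ?_ <;> try simp
      intro m h1 h2; fin_cases m <;> simp_all
    have t3 : (moveAll 2 1 E E.symm : Frag A (GB A)).Run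
        ![x a, [], (x a).reverse] ![x a, x a, []]
        (2 * (x a).reverse.length + 1) := by
      refine moveB 2 1 (by decide) _ _ (x a).reverse [] ?_ ?_ ?_ ?_ ?_ <;> try simp
      intro m h1 h2; fin_cases m <;> simp_all
    exact Frag.seq_run t1 (Frag.seq_run t2 t3)
  have r1' : F1.Run (join emp (join emp (![x a, [], []] : BS A)))
      (join emp (join emp (![x a, x a, []] : BS A))) _ :=
    Frag.liftR_run (Frag.liftR_run r1 _) _
  obtain ⟨n2, hn2, r2⟩ := call_run P (Γ2 := Γ2) (Sum.inr 0) (Sum.inr 2)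
    (fun h => absurd (Sum.inr.inj h) (by decide)) E E a
    (join emp (![x a, x a, []] : BS A)) (map_refl' _) rfl
  have r2' : F2.Run (join emp (join emp (![x a, x a, []] : BS A)))
      (join emp (join emp (![encD (u a), x a, []] : BS A))) n2 := by
    refine r2.congr ?_ rfl
    congr 1
    rw [map_refl]
    have e := update_join_inr (Γ1 := Q.Γ) (Γ2 := GB A) emp (![x a, x a, []] : BS A) 0
      (encD (u a))
    refine e.trans ?_
    congr 1
    funext m; fin_cases m <;> rfl
  obtain ⟨n3, hn3, r3⟩ := call_run Q (Γ2 := GB A) 1 2 (by decide) E E a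
    (![encD (u a), x a, []] : BS A) (map_refl' _) rfl
  have r3' : F3.Run (join emp (join emp (![encD (u a), x a, []] : BS A)))
      (join emp (join emp (![encD (u a), encD (v a), []] : BS A))) n3 := by
    refine Frag.liftR_run (r3.congr ?_ rfl) _
    congr 1
    rw [map_refl]
    funext m; fin_cases m <;> rfl
  have r4 : G4.Run ![encD (u a), encD (v a), []] ![[], encD (cons (u a) (v a)), []]
      (2 * (encD (u a)).length + 1 + (2 * (encD (u a)).reverse.length + 1 + 1)) := by
    have t1 : (moveAll 0 2 E E.symm : Frag A (GB A)).Run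
        ![encD (u a), encD (v a), []] ![[], encD (v a), (encD (u a)).reverse]
        (2 * (encD (u a)).length + 1) := by
      refine moveB 0 2 (by decide) _ _ (encD (u a)) [] ?_ ?_ ?_ ?_ ?_ <;> try simp
      intro m h1 h2; fin_cases m <;> simp_all
    have t2 : (moveAll 2 1 E E.symm : Frag A (GB A)).Run
        ![[], encD (v a), (encD (u a)).reverse] ![[], encD (u a) ++ encD (v a), []]
        (2 * (encD (u a)).reverse.length + 1) := by
      refine moveB 2 1 (by decide) _ _ (encD (u a)).reverse (encD (v a)) ?_ ?_ ?_ ?_ ?_ <;>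
        try simp
      intro m h1 h2; fin_cases m <;> simp_all
    have t3 : (Frag.push 1 true : Frag A (GB A)).Run
        ![[], encD (u a) ++ encD (v a), []] ![[], encD (cons (u a) (v a)), []] 1 := by
      refine pushB 1 true _ _ ?_ ?_
      · simp [encD]
      · intro m h1; fin_cases m <;> simp_all
    exact Frag.seq_run t1 (Frag.seq_run t2 t3)
  have r4' : F4.Run (join emp (join emp (![encD (u a), encD (v a), []] : BS A)))
      (join emp (join emp (![[], encD (cons (u a) (v a)), []] : BS A))) _ :=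
    Frag.liftR_run (Frag.liftR_run r4 _) _
  have e1 : join emp (join emp (![x a, [], []] : BS A)) =
      (single (Sum.inr (Sum.inr 0)) ((x a).map E.symm) : ∀ k, List (Γ k)) := by
    rw [← join_join_one]
    congr 2
    funext m; fin_cases m <;> rfl
  have e2 : join emp (join emp (![[], encD (cons (u a) (v a)), []] : BS A)) =
      (single (Sum.inr (Sum.inr 1)) ((encD (cons (u a) (v a))).map E.symm) :
        ∀ k, List (Γ k)) := by
    rw [← join_join_one]
    congr 2
    funext m; fin_cases m <;> rfl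
  refine ⟨_, ?_, (Frag.seq_run r1' (Frag.seq_run r2' (Frag.seq_run r3' r4'))).cast e1 e2⟩
  have b1 := hS a
  have b2 := hS' a
  simp only [List.length_reverse, Polynomial.eval_add, Polynomial.eval_mul, Polynomial.eval_X,
    Polynomial.eval_ofNat]
  omega

/-! ### branching -/

theorem Comp.ite {α : Type} (c : α → Bool) (u : α → D) {y : α → List Bool}
    (h1 : Comp (fun a : {a // c a = true} => encD (u a.1)) (fun a => y a.1))
    (h2 : Comp (fun a : {a // c a = false} => encD (u a.1)) (fun a => y a.1)) :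
    Comp (fun a => encD (cons (ofBool (c a)) (u a))) y := by
  obtain ⟨S, hS⟩ := h1.size
  obtain ⟨S', hS'⟩ := h2.size
  obtain ⟨P⟩ := h1
  obtain ⟨Q⟩ := h2
  let A := Fin 2
  let K2 := Q.K ⊕ A
  let Γ2 : K2 → Type := SG Q.Γ (GB A)
  let Γ : P.K ⊕ K2 → Type := SG P.Γ Γ2
  let E : Equiv Bool Bool := Equiv.refl Bool
  let F0 : Frag (P.K ⊕ K2) Γ := Frag.liftR (Frag.liftR (Frag.pop (0 : A) : Frag A (GB A)))
  let F1 : Frag (P.K ⊕ K2) Γ := (F0.seq (F0.seq F0)).seq
    (call P (Γ2 := Γ2) (Sum.inr 0) (Sum.inr 1) E E)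
  let F2 : Frag (P.K ⊕ K2) Γ := F0.seq (Frag.liftR (call Q (Γ2 := GB A) 0 1 E E))
  refine ⟨⟨P.K ⊕ K2, inferInstance, inferInstance, Γ,
    F0.seq (Frag.ite (Γ := Γ) (Sum.inr (Sum.inr 0)) (fun o => o == some true) F1 F2),
    Sum.inr (Sum.inr 0), Sum.inr (Sum.inr 0), E, E,
    20 * Polynomial.X + P.T + Q.T + 10 * S + 10 * S' + 100, ?_⟩⟩
  intro a
  have p0 : ∀ (b : Bool) (l : List Bool),
      F0.Run (join emp (join emp (![b :: l, []] : BS A)))
        (join emp (join emp (![l, []] : BS A))) 1 := by
    intro b l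
    refine Frag.liftR_run (Frag.liftR_run (popB (0 : A) _ _ ?_ ?_) _) _
    · simp
    · intro m hm; fin_cases m <;> simp_all
  have e1 : ∀ l : List Bool, join emp (join emp (![l, []] : BS A)) =
      (single (Sum.inr (Sum.inr 0)) (l.map E.symm) : ∀ k, List (Γ k)) := by
    intro l
    rw [← join_join_one]
    congr 2
    funext m; fin_cases m <;> rfl
  rcases hc : c a with _ | _
  · -- false
    have hx : encD (cons (ofBool false) (u a)) = true :: false :: encD (u a) := by
      simp [encD, ofBool]
    rw [hx]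
    obtain ⟨n3, hn3, r3⟩ := call_run Q (Γ2 := GB A) 0 1 (by decide) E E ⟨a, hc⟩
      (![encD (u a), []] : BS A) (map_refl' _) rfl
    have r3' : (Frag.liftR (call Q (Γ2 := GB A) 0 1 E E) : Frag (P.K ⊕ K2) Γ).Run
        (join emp (join emp (![encD (u a), []] : BS A)))
        (join emp (join emp (![y a, []] : BS A))) n3 := by
      refine Frag.liftR_run (r3.congr ?_ rfl) _
      congr 1
      rw [map_refl]
      funext m; fin_cases m <;> rfl
    have r4 := Frag.ite_false (Γ := Γ) (k := Sum.inr (Sum.inr 0)) (F := F1)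
      (c := fun o => o == some true)
      (s := join emp (join emp (![false :: encD (u a), []] : BS A))) rfl
      (Frag.seq_run (p0 false (encD (u a))) r3')
    refine ⟨_, ?_, (Frag.seq_run (p0 true (false :: encD (u a))) r4).cast (e1 _) (e1 _)⟩
    have b1 := hS' ⟨a, hc⟩
    have b3 : Q.T.eval (encD (u a)).length ≤ Q.T.eval (true :: false :: encD (u a)).length :=
      eval_mono _ (by simp only [List.length_cons]; omega)
    have b4 : S'.eval (encD (u a)).length ≤ S'.eval (true :: false :: encD (u a)).length :=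
      eval_mono _ (by simp only [List.length_cons]; omega)
    have b5 : (true :: false :: encD (u a)).length = (encD (u a)).length + 2 := by simp
    simp only at b1 hn3
    simp only [Polynomial.eval_add, Polynomial.eval_mul,
      Polynomial.eval_X, Polynomial.eval_ofNat]
    rw [b5] at b3 b4 ⊢
    omega
  · -- true
    have hx : encD (cons (ofBool true) (u a)) = true :: true :: false :: false :: encD (u a) := by
      simp [encD, ofBool]
    rw [hx]
    obtain ⟨n3, hn3, r3⟩ := call_run P (Γ2 := Γ2) (Sum.inr 0) (Sum.inr 1)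
      (fun h => absurd (Sum.inr.inj h) (by decide)) E E ⟨a, hc⟩
      (join emp (![encD (u a), []] : BS A)) (map_refl' _) rfl
    have r3' : (call P (Γ2 := Γ2) (Sum.inr 0) (Sum.inr 1) E E).Run
        (join emp (join emp (![encD (u a), []] : BS A)))
        (join emp (join emp (![y a, []] : BS A))) n3 := by
      refine r3.congr ?_ rfl
      congr 1
      rw [map_refl]
      have e := update_join_inr (Γ1 := Q.Γ) (Γ2 := GB A) emp (![encD (u a), []] : BS A) 0
        (y a)
      refine e.trans ?_
      congr 1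
      funext m; fin_cases m <;> rfl
    have r4 := Frag.ite_true (Γ := Γ) (k := Sum.inr (Sum.inr 0)) (G := F2)
      (c := fun o => o == some true)
      (s := join emp (join emp (![true :: false :: false :: encD (u a), []] : BS A))) rfl
      (Frag.seq_run (Frag.seq_run (p0 true (false :: false :: encD (u a)))
        (Frag.seq_run (p0 false (false :: encD (u a))) (p0 false (encD (u a))))) r3')
    refine ⟨_, ?_, (Frag.seq_run (p0 true (true :: false :: false :: encD (u a))) r4).cast
      (e1 _) (e1 _)⟩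
    have b1 := hS ⟨a, hc⟩
    have b3 : P.T.eval (encD (u a)).length ≤
      P.T.eval (true :: true :: false :: false :: encD (u a)).length :=
      eval_mono _ (by simp only [List.length_cons]; omega)
    have b4 : S.eval (encD (u a)).length ≤
      S.eval (true :: true :: false :: false :: encD (u a)).length :=
      eval_mono _ (by simp only [List.length_cons]; omega)
    have b5 : (true :: true :: false :: false :: encD (u a)).length =
      (encD (u a)).length + 4 := by simp
    simp only at b1 hn3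
    simp only [Polynomial.eval_add, Polynomial.eval_mul,
      Polynomial.eval_X, Polynomial.eval_ofNat]
    rw [b5] at b3 b4 ⊢
    omega

/-! ### iteration -/

section iter
variable {α σ : Type} {encσ : σ → D} {step : σ → σ}

/-- body of the iteration loop -/
def iterBody (P : Proc (fun s => encD (encσ s)) (fun s => encD (encσ (step s)))) :
    Frag (P.K ⊕ Fin 4) (SG P.Γ (GB (Fin 4))) :=
  (Frag.liftR ((Frag.pop 0).seq ((ext 0 1 2).seq (clearAll 1)))).seq
    (call P (Γ2 := GB (Fin 4)) 3 1 (Equiv.refl Bool) (Equiv.refl Bool))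

theorem iter_loop (P : Proc (fun s => encD (encσ s)) (fun s => encD (encσ (step s))))
    (M W : ℕ) (c : D) : ∀ (s : σ), c.size ≤ W → (∀ k ≤ c.len, (encσ (step^[k] s)).size ≤ M) →
    ∃ n ≤ c.len * (6 * W + 8 * M + P.T.eval M + 9) + 1,
      (Frag.whl (Γ := SG P.Γ (GB (Fin 4))) (Sum.inr 0) (fun o => o == some true)
        (iterBody P)).Run
        (join emp (![encD c, [], [], encD (encσ s)] : BS (Fin 4)))
        (join emp (![encD nil, [], [], encD (encσ (step^[c.len] s))] : BS (Fin 4))) n := by
  induction c with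
  | nil =>
    intro s _ _
    exact ⟨1, by simp [D.len], Frag.whl_stop rfl⟩
  | cons h t _ iht =>
    intro s hW hM
    have hW' : t.size ≤ W := by rw [size_cons] at hW; omega
    have hM' : ∀ k ≤ t.len, (encσ (step^[k] (step s))).size ≤ M := by
      intro k hk
      have := hM (k + 1) (by simp only [D.len]; omega)
      rwa [Function.iterate_succ_apply] at this
    obtain ⟨n1, hn1, r1⟩ := iht (step s) hW' hM'
    have t1 : (Frag.pop 0 : Frag (Fin 4) (GB (Fin 4))).Run
        ![encD (cons h t), [], [], encD (encσ s)]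
        ![encD h ++ encD t, [], [], encD (encσ s)] 1 := by
      refine popB 0 _ _ ?_ ?_
      · simp [encD]
      · intro m hm; fin_cases m <;> simp_all
    have t2 : (ext 0 1 2 : Frag (Fin 4) (GB (Fin 4))).Run
        ![encD h ++ encD t, [], [], encD (encσ s)]
        ![encD t, (encD h).reverse, [], encD (encσ s)] (4 * h.size + 2) := by
      refine ext_spec 0 1 2 (by decide) (by decide) (by decide) h _ _ (encD t) []
        ?_ ?_ ?_ ?_ ?_ ?_ ?_ <;> try simp
      intro m h1 h2 h3; fin_cases m <;> simp_all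
    have t3 : (clearAll 1 : Frag (Fin 4) (GB (Fin 4))).Run
        ![encD t, (encD h).reverse, [], encD (encσ s)]
        ![encD t, [], [], encD (encσ s)] (2 * (encD h).reverse.length + 1) := by
      refine clearB 1 _ _ _ ?_ ?_ ?_ <;> try simp
      intro m h1; fin_cases m <;> simp_all
    have t4 : (Frag.liftR ((Frag.pop 0).seq ((ext 0 1 2).seq (clearAll 1))) :
        Frag (P.K ⊕ Fin 4) (SG P.Γ (GB (Fin 4)))).Run
        (join emp (![encD (cons h t), [], [], encD (encσ s)] : BS (Fin 4)))
        (join emp (![encD t, [], [], encD (encσ s)] : BS (Fin 4))) _ :=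
      Frag.liftR_run (Frag.seq_run t1 (Frag.seq_run t2 t3)) _
    obtain ⟨n2, hn2, r2⟩ := call_run P (Γ2 := GB (Fin 4)) 3 1 (by decide) (Equiv.refl Bool)
      (Equiv.refl Bool) s (![encD t, [], [], encD (encσ s)] : BS (Fin 4)) (map_refl' _) rfl
    have r2' : (call P (Γ2 := GB (Fin 4)) 3 1 (Equiv.refl Bool) (Equiv.refl Bool)).Run
        (join emp (![encD t, [], [], encD (encσ s)] : BS (Fin 4)))
        (join emp (![encD t, [], [], encD (encσ (step s))] : BS (Fin 4))) n2 := by
      refine r2.congr ?_ rfl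
      congr 1
      rw [map_refl]
      funext m; fin_cases m <;> rfl
    have r3 := Frag.whl_go (Γ := SG P.Γ (GB (Fin 4))) (k := Sum.inr 0)
      (c := fun o => o == some true) (F := iterBody P) rfl (Frag.seq_run t4 r2') r1
    refine ⟨_, ?_, r3⟩
    have b1 : (encD (encσ s)).length ≤ M := hM 0 (by omega)
    have b2 : (encD (encσ (step s))).length ≤ M := hM 1 (by simp only [D.len]; omega)
    have b3 : P.T.eval (encD (encσ s)).length ≤ P.T.eval M := eval_mono _ b1
    have b4 : (encD h).length = h.size := rfl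
    rw [size_cons] at hW
    simp only [D.len, List.length_reverse, b4]
    have b5 : (t.len + 1) * (6 * W + 8 * M + P.T.eval M + 9) =
      t.len * (6 * W + 8 * M + P.T.eval M + 9) + (6 * W + 8 * M + P.T.eval M + 9) := by ring
    rw [b5]
    omega

theorem Comp.iter (hs : Comp (fun s => encD (encσ s)) (fun s => encD (encσ (step s))))
    (cnt : α → D) (init : α → σ) (B : Polynomial ℕ)
    (hB : ∀ a, ∀ k ≤ (cnt a).len, (encσ (step^[k] (init a))).size ≤
      B.eval (encD (cons (cnt a) (encσ (init a)))).length) :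
    Comp (fun a => encD (cons (cnt a) (encσ (init a))))
      (fun a => encD (encσ (step^[(cnt a).len] (init a)))) := by
  obtain ⟨P⟩ := hs
  let A := Fin 4
  let Γ : P.K ⊕ A → Type := SG P.Γ (GB A)
  let E : Equiv Bool Bool := Equiv.refl Bool
  let G0 : Frag A (GB A) := (Frag.pop 0).seq ((ext 0 1 2).seq ((moveAll 0 2 E E.symm).seq
    ((moveAll 2 3 E E.symm).seq (moveAll 1 0 E E.symm))))
  refine ⟨⟨P.K ⊕ A, inferInstance, inferInstance, Γ,
    (Frag.liftR G0).seq ((Frag.whl (Γ := Γ) (Sum.inr 0) (fun o => o == some true)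
      (iterBody P)).seq (Frag.liftR (Frag.pop 0))),
    Sum.inr 0, Sum.inr 3, E, E,
    Polynomial.X * (6 * Polynomial.X + 8 * B + P.T.comp B + 9) + 20 * Polynomial.X + 20, ?_⟩⟩
  intro a
  obtain ⟨c, hc⟩ : ∃ c, c = cnt a := ⟨_, rfl⟩
  obtain ⟨s, hs⟩ : ∃ s, s = init a := ⟨_, rfl⟩
  have hBa := hB a
  simp only [← hc, ← hs] at hBa ⊢
  obtain ⟨N, hN⟩ : ∃ N, N = (encD (cons c (encσ s))).length := ⟨_, rfl⟩
  rw [← hN] at hBa ⊢
  have hN' : N = c.size + (encσ s).size + 1 := by rw [hN]; exact size_cons _ _
  have t1 : (Frag.pop 0 : Frag (Fin 4) (GB (Fin 4))).Run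
      ![encD (cons c (encσ s)), [], [], []]
      ![encD c ++ encD (encσ s), [], [], []] 1 := by
    refine popB 0 _ _ ?_ ?_
    · simp [encD]
    · intro m hm; fin_cases m <;> simp_all
  have t2 : (ext 0 1 2 : Frag (Fin 4) (GB (Fin 4))).Run
      ![encD c ++ encD (encσ s), [], [], []]
      ![encD (encσ s), (encD c).reverse, [], []] (4 * c.size + 2) := by
    refine ext_spec 0 1 2 (by decide) (by decide) (by decide) c _ _ (encD (encσ s)) []
      ?_ ?_ ?_ ?_ ?_ ?_ ?_ <;> try simp
    intro m h1 h2 h3; fin_cases m <;> simp_all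
  have t3 : (moveAll 0 2 E E.symm : Frag A (GB A)).Run
      ![encD (encσ s), (encD c).reverse, [], []]
      ![[], (encD c).reverse, (encD (encσ s)).reverse, []]
      (2 * (encD (encσ s)).length + 1) := by
    refine moveB 0 2 (by decide) _ _ (encD (encσ s)) [] ?_ ?_ ?_ ?_ ?_ <;> try simp
    intro m h1 h2; fin_cases m <;> simp_all
  have t4 : (moveAll 2 3 E E.symm : Frag A (GB A)).Run
      ![[], (encD c).reverse, (encD (encσ s)).reverse, []]
      ![[], (encD c).reverse, [], encD (encσ s)]
      (2 * (encD (encσ s)).reverse.length + 1) := by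
    refine moveB 2 3 (by decide) _ _ (encD (encσ s)).reverse [] ?_ ?_ ?_ ?_ ?_ <;> try simp
    intro m h1 h2; fin_cases m <;> simp_all
  have t5 : (moveAll 1 0 E E.symm : Frag A (GB A)).Run
      ![[], (encD c).reverse, [], encD (encσ s)]
      ![encD c, [], [], encD (encσ s)]
      (2 * (encD c).reverse.length + 1) := by
    refine moveB 1 0 (by decide) _ _ (encD c).reverse [] ?_ ?_ ?_ ?_ ?_ <;> try simp
    intro m h1 h2; fin_cases m <;> simp_all
  have t6 : (Frag.liftR G0 : Frag (P.K ⊕ A) Γ).Run
      (join emp (![encD (cons c (encσ s)), [], [], []] : BS A))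
      (join emp (![encD c, [], [], encD (encσ s)] : BS A)) _ :=
    Frag.liftR_run (Frag.seq_run t1 (Frag.seq_run t2 (Frag.seq_run t3 (Frag.seq_run t4 t5)))) _
  obtain ⟨n, hn, r⟩ := iter_loop P (B.eval N) c.size c s le_rfl hBa
  have t7 : (Frag.liftR (Frag.pop 0) : Frag (P.K ⊕ A) Γ).Run
      (join emp (![encD nil, [], [], encD (encσ (step^[c.len] s))] : BS A))
      (join emp (![[], [], [], encD (encσ (step^[c.len] s))] : BS A)) 1 := by
    refine Frag.liftR_run (popB 0 _ _ ?_ ?_) _
    · simp [encD]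
    · intro m hm; fin_cases m <;> simp_all
  have e1 : join emp (![encD (cons c (encσ s)), [], [], []] : BS A) =
      (single (Sum.inr 0) ((encD (cons c (encσ s))).map E.symm) : ∀ k, List (Γ k)) := by
    rw [← join_one]
    congr 1
    funext m; fin_cases m <;> rfl
  have e2 : join emp (![[], [], [], encD (encσ (step^[c.len] s))] : BS A) =
      (single (Sum.inr 3) ((encD (encσ (step^[c.len] s))).map E.symm) :
        ∀ k, List (Γ k)) := by
    rw [← join_one]
    congr 1
    funext m; fin_cases m <;> rfl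
  refine ⟨_, ?_, (Frag.seq_run t6 (Frag.seq_run r t7)).cast e1 e2⟩
  have b4 : (encD c).length = c.size := rfl
  have b5 : (encD (encσ s)).length = (encσ s).size := rfl
  have b6 := c.len_lt_size
  have b7 : c.len * (6 * c.size + 8 * B.eval N + P.T.eval (B.eval N) + 9) ≤
      N * (6 * N + 8 * B.eval N + P.T.eval (B.eval N) + 9) := by
    apply Nat.mul_le_mul (by omega)
    omega
  simp only [Polynomial.eval_add, Polynomial.eval_mul, Polynomial.eval_comp,
    Polynomial.eval_X, Polynomial.eval_ofNat, List.length_reverse, b4, b5]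
  omega

end iter

end Pool.Agent.TM2Lib
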