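import Pool.Agent.TM2Lib.Lift

/-!
# Polynomial time computability between families of strings

`Comp x y` (for `x y : α → List Bool`): one machine transforms `x a` into `y a`, for all `a`, in
time polynomial in the length of `x a`.
-/

namespace Pool.Agent.TM2Lib

open Function Turing

/-! ### output size -/

section size
variable {K : Type} [DecidableEq K] [Fintype K] {Γ : K → Type}

/-- total number of symbols on all stacks -/
def total (s : ∀ k, List (Γ k)) : ℕ := ∑ k, (s k).length

omit [DecidableEq K] in
theorem length_le_total (s : ∀ k, List (Γ k)) (k : K) : (s k).length ≤ total s :=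
  Finset.single_le_sum (f := fun k => (s k).length) (fun _ _ => Nat.zero_le _)
    (Finset.mem_univ k)

theorem total_update (s : ∀ k, List (Γ k)) (k : K) (x : List (Γ k)) :
    total (update s k x) + (s k).length = total s + x.length := by
  unfold total
  rw [← Finset.add_sum_erase _ _ (Finset.mem_univ k), ← Finset.add_sum_erase (a := k)
    (f := fun k => (s k).length) _ (Finset.mem_univ k)]
  have : ∑ j ∈ Finset.univ.erase k, (update s k x j).length =
      ∑ j ∈ Finset.univ.erase k, (s j).length := by
    apply Finset.sum_congr rfl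
    intro j hj
    rw [update_of_ne (Finset.ne_of_mem_erase hj)]
  rw [this, update_self]
  ring

/-- number of `push` in a statement -/
def pushes {L σ : Type} : TM2.Stmt Γ L σ → ℕ
  | .push _ _ q => pushes q + 1
  | .peek _ _ q => pushes q
  | .pop _ _ q => pushes q
  | .load _ q => pushes q
  | .branch _ q₁ q₂ => pushes q₁ + pushes q₂
  | .goto _ => 0
  | .halt => 0

theorem total_stepAux {L σ : Type} (q : TM2.Stmt Γ L σ) : ∀ (v : σ) (s : ∀ k, List (Γ k)),
    total (TM2.stepAux q v s).stk ≤ total s + pushes q := by
  induction q with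
  | push k f q ih =>
    intro v s
    simp only [TM2.stepAux, pushes]
    have h1 := ih v (update s k (f v :: s k))
    have h2 := total_update s k (f v :: s k)
    simp only [List.length_cons] at h2
    omega
  | peek k f q ih => intro v s; exact ih _ s
  | pop k f q ih =>
    intro v s
    simp only [TM2.stepAux, pushes]
    have h1 := ih (f v (s k).head?) (update s k (s k).tail)
    have h2 := total_update s k (s k).tail
    simp only [List.length_tail] at h2
    omega
  | load a q ih => intro v s; exact ih _ s
  | branch f q₁ q₂ ih₁ ih₂ =>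
    intro v s
    simp only [TM2.stepAux, pushes]
    cases f v
    · have := ih₂ v s
      simp only [cond_false]
      omega
    · have := ih₁ v s
      simp only [cond_true]
      omega
  | goto f => intro v s; simp [TM2.stepAux]
  | halt => intro v s; simp [TM2.stepAux]

theorem total_reach {L σ : Type} [Fintype L] (M : L → TM2.Stmt Γ L σ) (n : ℕ) :
    ∀ {c c' : TM2.Cfg Γ L σ}, Reach M n c c' →
      total c'.stk ≤ total c.stk + n * ∑ l, pushes (M l) := by
  induction n with
  | zero =>
    intro c c' h
    unfold Reach at h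
    simp only [Function.iterate_zero, id_eq, Option.some.injEq] at h
    subst h
    simp
  | succ n ih =>
    intro c c' h
    obtain ⟨c1, h1, h2⟩ := h.succ_inv
    have h3 := ih h2
    obtain ⟨l, v, s⟩ := c
    rcases l with _ | l
    · exact absurd h1 (by simp [TM2.step])
    · have e : TM2.step M ⟨some l, v, s⟩ = some (TM2.stepAux (M l) v s) := rfl
      rw [e] at h1
      have e1 := Option.some.inj h1
      have h4 := total_stepAux (M l) v s
      rw [e1] at h4
      have h5 : pushes (M l) ≤ ∑ l, pushes (M l) :=
        Finset.single_le_sum (f := fun l => pushes (M l)) (fun _ _ => Nat.zero_le _)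
          (Finset.mem_univ l)
      have h6 : (n + 1) * ∑ l, pushes (M l) = n * (∑ l, pushes (M l)) + ∑ l, pushes (M l) := by
        ring
      rw [h6]
      have h7 : total c1.stk ≤ total s + pushes (M l) := h4
      show total c'.stk ≤ total s + _
      omega

omit [Fintype K] in
theorem total_single [Fintype K] (k : K) (x : List (Γ k)) : total (single k x) = x.length := by
  have h := total_update (fun _ => []) k x
  have h0 : total (fun k => ([] : List (Γ k))) = 0 := by simp [total]
  rw [h0] at h
  simpa [single] using h

end size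

/-! ### procedures -/

/-- A procedure transforming `x a` into `y a`. -/
structure Proc {α : Type} (x y : α → List Bool) where
  K : Type
  decK : DecidableEq K
  finK : Fintype K
  Γ : K → Type
  F : Frag K Γ
  i : K
  o : K
  ei : Γ i ≃ Bool
  eo : Γ o ≃ Bool
  T : Polynomial ℕ
  spec : ∀ a, ∃ n ≤ T.eval (x a).length,
    F.Run (single i ((x a).map ei.symm)) (single o ((y a).map eo.symm)) n

attribute [instance] Proc.decK Proc.finK

/-- `y a` can be computed from `x a` in polynomial time, for all `a : α`. -/
def Comp {α : Type} (x y : α → List Bool) : Prop := Nonempty (Proc x y)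

theorem Comp.of_tm {α β : Type} {ea : α → List Bool} {eb : β → List Bool} {f : α → β}
    (h : TM2ComputableInPolyTime ea eb f) : Comp ea (fun a => eb (f a)) := by
  refine ⟨⟨h.tm.K, h.tm.kDecidableEq, h.tm.kFin, h.tm.Γ, Frag.ofTM h.tm, h.tm.k₀, h.tm.k₁,
    h.inputAlphabet, h.outputAlphabet, h.time + 1, ?_⟩⟩
  intro a
  obtain ⟨n, hn, hr⟩ := Frag.ofTM_run h.tm (h.outputsFun a)
  refine ⟨n, by simpa using hn, ?_⟩
  rw [initList_stk, haltList_stk] at hr
  exact hr

theorem Comp.to_tm {α β : Type} {ea : α → List Bool} {eb : β → List Bool} {f : α → β}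
    (h : Comp ea (fun a => eb (f a))) : Nonempty (TM2ComputableInPolyTime ea eb f) := by
  classical
  obtain ⟨P⟩ := h
  letI : Fintype (P.Γ P.i) := Fintype.ofEquiv Bool P.ei.symm
  have hs : ∀ a, Nonempty (TM2OutputsInTime (P.F.toTM P.i P.o) ((ea a).map P.ei.symm)
      (some ((eb (f a)).map P.eo.symm)) ((P.T + 1).eval (ea a).length)) := by
    intro a
    obtain ⟨n, hn, hr⟩ := P.spec a
    exact Frag.toTM_outputs P.F P.i P.o hr (by simpa using hn)
  exact ⟨⟨⟨P.F.toTM P.i P.o, P.ei, P.eo⟩, P.T + 1, fun a => (hs a).some⟩⟩

/-- polynomial evaluation is monotone -/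
theorem eval_mono (p : Polynomial ℕ) {m n : ℕ} (h : m ≤ n) : p.eval m ≤ p.eval n := by
  rw [Polynomial.eval_eq_sum, Polynomial.eval_eq_sum]
  unfold Polynomial.sum
  apply Finset.sum_le_sum
  intro i _
  exact Nat.mul_le_mul_left _ (Nat.pow_le_pow_left h i)

/-- the output of a polynomial time procedure has polynomial length -/
theorem Comp.size {α : Type} {x y : α → List Bool} (h : Comp x y) :
    ∃ P : Polynomial ℕ, ∀ a, (y a).length ≤ P.eval (x a).length := by
  obtain ⟨P⟩ := h
  letI := P.F.finΛ
  refine ⟨Polynomial.X + P.T * Polynomial.C (∑ l, pushes (P.F.M l)), fun a => ?_⟩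
  obtain ⟨n, hn, hr⟩ := P.spec a
  obtain ⟨v', hv⟩ := hr P.F.inh
  have h1 := total_reach _ n hv
  have h2 : total (single P.o ((y a).map P.eo.symm)) ≤ total (single P.i ((x a).map P.ei.symm))
    + n * ∑ l, pushes (P.F.M l) := h1
  rw [total_single, total_single, List.length_map, List.length_map] at h2
  simp only [Polynomial.eval_add, Polynomial.eval_X, Polynomial.eval_mul, Polynomial.eval_C]
  have h3 : n * ∑ l, pushes (P.F.M l) ≤ P.T.eval (x a).length * ∑ l, pushes (P.F.M l) :=
    Nat.mul_le_mul_right _ hn
  omega

theorem Comp.reindex {α β : Type} {x y : β → List Bool} (h : Comp x y) (f : α → β) :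
    Comp (fun a => x (f a)) (fun a => y (f a)) := by
  obtain ⟨P⟩ := h
  exact ⟨⟨P.K, P.decK, P.finK, P.Γ, P.F, P.i, P.o, P.ei, P.eo, P.T, fun a => P.spec (f a)⟩⟩

theorem Comp.refl {α : Type} (x : α → List Bool) : Comp x x :=
  ⟨⟨Unit, inferInstance, inferInstance, fun _ => Bool, Frag.skip, (), (), Equiv.refl _,
    Equiv.refl _, 1, fun a => ⟨1, by simp, Frag.skip_run _⟩⟩⟩

end Pool.Agent.TM2Lib
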