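import Mathlib

/-!
# Data as binary trees, and their codes as bit strings

Every finite object is coded by a binary tree: pairs are `cons`, lists are right-nested pairs
ending in `nil`, a natural number is the list of its binary digits (least significant first).
A tree is written as a bit string by its prefix code: `0` for `nil`, and `1`, the code of `a`,
the code of `b` for `cons a b`.
-/

namespace Pool.Agent.TM2Lib

/-- binary trees -/
inductive D : Type
  | nil : D
  | cons (a b : D) : D
deriving DecidableEq

namespace D

/-- prefix code of a tree -/
def encD : D → List Bool
  | nil => [false]
  | cons a b => true :: (encD a ++ encD b)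

/-- Boolean values as trees -/
def ofBool : Bool → D
  | false => nil
  | true => cons nil nil

/-- length of the right spine -/
def len : D → ℕ
  | nil => 0
  | cons _ b => len b + 1

/-- head -/
def hd : D → D
  | nil => nil
  | cons a _ => a

/-- tail -/
def tl : D → D
  | nil => nil
  | cons _ b => b

/-- size: length of the code -/
def size (x : D) : ℕ := (encD x).length

@[simp] theorem size_nil : size nil = 1 := rfl

@[simp] theorem size_cons (a b : D) : size (cons a b) = size a + size b + 1 := by
  simp [size, encD]

theorem len_lt_size (x : D) : x.len < x.size := by
  induction x with
  | nil => simp [len]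
  | cons a b _ ihb => simp only [len, size_cons]; omega

theorem size_pos (x : D) : 0 < x.size := by
  cases x <;> simp

end D

open D

/-- Types whose elements are coded by binary trees. -/
class Enc (α : Type) where
  /-- code of an element -/
  enc : α → D

export Enc (enc)

/-- code of a list -/
def encList {α : Type} (e : α → D) : List α → D
  | [] => nil
  | a :: l => cons (e a) (encList e l)

instance : Enc D := ⟨id⟩
instance : Enc Unit := ⟨fun _ => nil⟩
instance : Enc Bool := ⟨ofBool⟩
instance {α β : Type} [Enc α] [Enc β] : Enc (α × β) := ⟨fun p => cons (enc p.1) (enc p.2)⟩
instance {α : Type} [Enc α] : Enc (List α) := ⟨encList enc⟩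
instance {α : Type} [Enc α] : Enc (Option α) := ⟨fun o => encList enc o.toList⟩
instance : Enc ℕ := ⟨fun n => encList enc n.bits⟩
instance {α : Type} [Enc α] (p : α → Prop) : Enc {a // p a} := ⟨fun a => enc a.1⟩

end Pool.Agent.TM2Lib
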