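import Mathlib

/-!
# Code fragments for `Turing.TM2` machines and their composition

A `Frag K Γ` is a finite piece of `TM2` code on the stacks `K` with alphabets `Γ`, with one entry
label and one exit.  `F.Run s s' n` says that from the store `s`, whatever its registers hold,
the fragment reaches its exit after exactly `n` steps with store `s'`.
-/

namespace Pool.Agent.TM2Lib

open Function Turing

/-- Finite code fragment; the label `none` is the exit. -/
structure Frag (K : Type) (Γ : K → Type) where
  Λ : Type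
  σ : Type
  finΛ : Fintype Λ
  finσ : Fintype σ
  inh : σ
  entry : Λ
  code : Λ → TM2.Stmt Γ (Option Λ) σ

/-- The code of a fragment as a complete machine (the exit halts). -/
def Frag.M {K : Type} {Γ : K → Type} (F : Frag K Γ) :
    Option F.Λ → TM2.Stmt Γ (Option F.Λ) F.σ
  | none => .halt
  | some l => F.code l

/-- `n` steps of the machine `M` lead from `c` to `c'`. -/
def Reach {K L σ : Type} [DecidableEq K] {Γ : K → Type} (M : L → TM2.Stmt Γ L σ) (n : ℕ)
    (c c' : TM2.Cfg Γ L σ) : Prop :=
  (flip bind (TM2.step M))^[n] (some c) = some c'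

/-- From store `s` the fragment reaches its exit after `n` steps with store `s'`. -/
def Frag.Run {K : Type} [DecidableEq K] {Γ : K → Type} (F : Frag K Γ)
    (s s' : ∀ k, List (Γ k)) (n : ℕ) : Prop :=
  ∀ v, ∃ v', Reach F.M n ⟨some (some F.entry), v, s⟩ ⟨some none, v', s'⟩

/-- Transport of a statement to other labels and registers. -/
def mapStmt {K : Type} {Γ : K → Type} {L σ L' τ : Type} (fl : L → L') (get : τ → σ)
    (put : τ → σ → τ) : TM2.Stmt Γ L σ → TM2.Stmt Γ L' τ
  | .push k f q => .push k (fun w => f (get w)) (mapStmt fl get put q)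
  | .peek k f q => .peek k (fun w o => put w (f (get w) o)) (mapStmt fl get put q)
  | .pop k f q => .pop k (fun w o => put w (f (get w) o)) (mapStmt fl get put q)
  | .load a q => .load (fun w => put w (a (get w))) (mapStmt fl get put q)
  | .branch f q₁ q₂ => .branch (fun w => f (get w)) (mapStmt fl get put q₁)
      (mapStmt fl get put q₂)
  | .goto f => .goto (fun w => fl (f (get w)))
  | .halt => .halt

/-- `get`/`put` form a lens. -/
structure Lens {τ σ : Type} (get : τ → σ) (put : τ → σ → τ) : Prop where
  get_put : ∀ w v, get (put w v) = v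
  put_put : ∀ w v v', put (put w v) v' = put w v'
  put_get : ∀ w, put w (get w) = w

theorem stepAux_mapStmt {K : Type} [DecidableEq K] {Γ : K → Type} {L σ L' τ : Type}
    (fl : L → L') {get : τ → σ} {put : τ → σ → τ} (hl : Lens get put)
    (q : TM2.Stmt Γ L σ) : ∀ (w : τ) (s : ∀ k, List (Γ k)),
    TM2.stepAux (mapStmt fl get put q) w s =
      ⟨(TM2.stepAux q (get w) s).l.map fl, put w (TM2.stepAux q (get w) s).var,
        (TM2.stepAux q (get w) s).stk⟩ := by
  induction q with
  | push k f q ih => intro w s; simp only [mapStmt, TM2.stepAux]; rw [ih]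
  | peek k f q ih =>
    intro w s; simp only [mapStmt, TM2.stepAux]; rw [ih, hl.get_put, hl.put_put]
  | pop k f q ih =>
    intro w s; simp only [mapStmt, TM2.stepAux]; rw [ih, hl.get_put, hl.put_put]
  | load a q ih =>
    intro w s; simp only [mapStmt, TM2.stepAux]; rw [ih, hl.get_put, hl.put_put]
  | branch f q₁ q₂ ih₁ ih₂ =>
    intro w s
    simp only [mapStmt, TM2.stepAux]
    cases f (get w)
    · simp only [cond_false]; exact ih₂ w s
    · simp only [cond_true]; exact ih₁ w s
  | goto f =>
    intro w s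
    simp only [mapStmt, TM2.stepAux, Option.map_some]
    rw [hl.put_get]
  | halt =>
    intro w s
    simp only [mapStmt, TM2.stepAux, Option.map_none]
    rw [hl.put_get]

section reach
variable {K L σ : Type} [DecidableEq K] {Γ : K → Type} {M : L → TM2.Stmt Γ L σ}

theorem Reach.trans {n m : ℕ} {c1 c2 c3 : TM2.Cfg Γ L σ} (h1 : Reach M n c1 c2)
    (h2 : Reach M m c2 c3) : Reach M (n + m) c1 c3 := by
  unfold Reach at *
  rw [add_comm, Function.iterate_add_apply, h1, h2]

theorem Reach.one {l : L} {v : σ} {s : ∀ k, List (Γ k)} {c : TM2.Cfg Γ L σ}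
    (h : TM2.stepAux (M l) v s = c) : Reach M 1 ⟨some l, v, s⟩ c := by
  subst h
  rfl

theorem Reach.zero (c : TM2.Cfg Γ L σ) : Reach M 0 c c := rfl

theorem Reach.succ_inv {n : ℕ} {c c' : TM2.Cfg Γ L σ} (h : Reach M (n + 1) c c') :
    ∃ c1, TM2.step M c = some c1 ∧ Reach M n c1 c' := by
  unfold Reach at h
  rw [Function.iterate_succ_apply] at h
  have e : flip bind (TM2.step M) (some c) = TM2.step M c := rfl
  rw [e] at h
  rcases h1 : TM2.step M c with _ | c1
  · rw [h1] at h
    exfalso
    have hn : ∀ m : ℕ, (flip bind (TM2.step M))^[m] none = none := by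
      intro m
      induction m with
      | zero => rfl
      | succ m ih => rw [Function.iterate_succ_apply]; exact ih
    rw [hn] at h
    exact absurd h (by simp)
  · rw [h1] at h
    exact ⟨c1, rfl, h⟩

theorem Reach.of_step {n : ℕ} {c c1 c' : TM2.Cfg Γ L σ} (h1 : TM2.step M c = some c1)
    (h : Reach M n c1 c') : Reach M (n + 1) c c' := by
  unfold Reach at *
  rw [Function.iterate_succ_apply]
  have e : flip bind (TM2.step M) (some c) = TM2.step M c := rfl
  rw [e, h1, h]

end reach

/-- Simulation of a fragment inside a larger machine. -/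
theorem sim {K : Type} [DecidableEq K] {Γ : K → Type} (F : Frag K Γ) {L τ : Type}
    (M : L → TM2.Stmt Γ L τ) (fl : Option F.Λ → L) {get : τ → F.σ} {put : τ → F.σ → τ}
    (hl : Lens get put) (hM : ∀ l, M (fl (some l)) = mapStmt fl get put (F.code l))
    (n : ℕ) : ∀ (l : F.Λ) (w : τ) (s s' : ∀ k, List (Γ k)) (v' : F.σ),
      Reach F.M n ⟨some (some l), get w, s⟩ ⟨some none, v', s'⟩ →
      Reach M n ⟨some (fl (some l)), w, s⟩ ⟨some (fl none), put w v', s'⟩ := by
  induction n with
  | zero =>
    intro l w s s' v' h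
    exfalso
    unfold Reach at h
    simp at h
  | succ n ih =>
    intro l w s s' v' h
    obtain ⟨c1, hc1, h1⟩ := h.succ_inv
    have hc1' : c1 = TM2.stepAux (F.code l) (get w) s := by
      have : TM2.step F.M ⟨some (some l), get w, s⟩ =
        some (TM2.stepAux (F.code l) (get w) s) := rfl
      rw [this] at hc1
      exact (Option.some.inj hc1).symm
    have hstep : TM2.step M ⟨some (fl (some l)), w, s⟩ =
        some ⟨c1.l.map fl, put w c1.var, c1.stk⟩ := by
      have : TM2.step M ⟨some (fl (some l)), w, s⟩ =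
        some (TM2.stepAux (M (fl (some l))) w s) := rfl
      rw [this, hM, stepAux_mapStmt fl hl, ← hc1']
    refine Reach.of_step hstep ?_
    obtain ⟨cl, cv, cs⟩ := c1
    rcases cl with _ | cl
    · -- halted: impossible
      exfalso
      rcases n with _ | n
      · unfold Reach at h1
        simp at h1
      · obtain ⟨c2, hc2, -⟩ := h1.succ_inv
        exact absurd hc2 (by simp [TM2.step])
    · rcases cl with _ | l2
      · -- exit reached
        rcases n with _ | n
        · unfold Reach at h1
          simp only [Function.iterate_zero, id_eq, Option.some.injEq] at h1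
          cases h1
          exact Reach.zero _
        · exfalso
          obtain ⟨c2, hc2, h2⟩ := h1.succ_inv
          have e2 : c2 = ⟨none, cv, cs⟩ := by
            have : TM2.step F.M ⟨some none, cv, cs⟩ = some ⟨none, cv, cs⟩ := rfl
            rw [this] at hc2
            exact (Option.some.inj hc2).symm
          subst e2
          rcases n with _ | n
          · unfold Reach at h2
            simp at h2
          · obtain ⟨c3, hc3, -⟩ := h2.succ_inv
            exact absurd hc3 (by simp [TM2.step])
      · have := ih l2 (put w cv) cs s' v' (by rw [hl.get_put]; exact h1)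
        simp only [hl.put_put] at this
        simpa using this

/-- Run of a fragment from a store, restated for use inside a larger machine. -/
theorem Frag.Run.sim {K : Type} [DecidableEq K] {Γ : K → Type} {F : Frag K Γ} {L τ : Type}
    {s s' : ∀ k, List (Γ k)} {n : ℕ} (h : F.Run s s' n)
    (M : L → TM2.Stmt Γ L τ) (fl : Option F.Λ → L) {get : τ → F.σ} {put : τ → F.σ → τ}
    (hl : Lens get put) (hM : ∀ l, M (fl (some l)) = mapStmt fl get put (F.code l)) (w : τ) :
    ∃ w', Reach M n ⟨some (fl (some F.entry)), w, s⟩ ⟨some (fl none), w', s'⟩ := by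
  obtain ⟨v', hv'⟩ := h (get w)
  exact ⟨_, Pool.Agent.TM2Lib.sim F M fl hl hM n F.entry w s s' v' hv'⟩

namespace Frag

variable {K : Type} [DecidableEq K] {Γ : K → Type}

/-! ### sequential composition -/

/-- lens to the first component -/
theorem lensFst {α β : Type} : Lens (Prod.fst : α × β → α) (fun w v => (v, w.2)) :=
  ⟨fun _ _ => rfl, fun _ _ _ => rfl, fun _ => rfl⟩

/-- lens to the second component -/
theorem lensSnd {α β : Type} : Lens (Prod.snd : α × β → β) (fun w v => (w.1, v)) :=
  ⟨fun _ _ => rfl, fun _ _ _ => rfl, fun _ => rfl⟩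

/-- `F` then `G` -/
def seq (F G : Frag K Γ) : Frag K Γ where
  Λ := F.Λ ⊕ G.Λ
  σ := F.σ × G.σ
  finΛ := @instFintypeSum _ _ F.finΛ G.finΛ
  finσ := @instFintypeProd _ _ F.finσ G.finσ
  inh := (F.inh, G.inh)
  entry := Sum.inl F.entry
  code
    | Sum.inl l => mapStmt (fun o => o.elim (some (Sum.inr G.entry)) fun l => some (Sum.inl l))
        Prod.fst (fun w v => (v, w.2)) (F.code l)
    | Sum.inr l => mapStmt (Option.map Sum.inr) Prod.snd (fun w v => (w.1, v)) (G.code l)

theorem seq_run {F G : Frag K Γ} {s s1 s2 : ∀ k, List (Γ k)} {n m : ℕ} (hF : F.Run s s1 n)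
    (hG : G.Run s1 s2 m) : (seq F G).Run s s2 (n + m) := by
  intro w
  obtain ⟨w1, h1⟩ := hF.sim (seq F G).M
    (fun o => o.elim (some (Sum.inr G.entry)) fun l => some (Sum.inl l)) lensFst
    (fun l => rfl) w
  obtain ⟨w2, h2⟩ := hG.sim (seq F G).M (Option.map Sum.inr) lensSnd (fun l => rfl) w1
  exact ⟨w2, h1.trans h2⟩

/-! ### atomic fragments -/

/-- a fragment with one label -/
def atom {σ : Type} [Fintype σ] (i : σ) (q : TM2.Stmt Γ (Option Unit) σ) : Frag K Γ where
  Λ := Unit
  σ := σ
  finΛ := inferInstance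
  finσ := inferInstance
  inh := i
  entry := ()
  code _ := q

/-- do nothing -/
def skip : Frag K Γ := atom () (.goto fun _ => none)

omit [DecidableEq K] in
theorem skip_run [DecidableEq K] (s : ∀ k, List (Γ k)) : (skip : Frag K Γ).Run s s 1 :=
  fun v => ⟨v, Reach.one rfl⟩

/-- push a symbol -/
def push (k : K) (a : Γ k) : Frag K Γ := atom () (.push k (fun _ => a) (.goto fun _ => none))

theorem push_run (k : K) (a : Γ k) (s : ∀ k, List (Γ k)) :
    (push k a).Run s (update s k (a :: s k)) 1 :=
  fun v => ⟨v, Reach.one rfl⟩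

/-- pop a symbol -/
def pop (k : K) : Frag K Γ := atom () (.pop k (fun _ _ => ()) (.goto fun _ => none))

theorem pop_run (k : K) (s : ∀ k, List (Γ k)) :
    (pop k : Frag K Γ).Run s (update s k (s k).tail) 1 :=
  fun _ => ⟨(), Reach.one rfl⟩

/-- Pop a symbol of `j` and push it on `k` (through the translations `f`, `g`). -/
def mv (j k : K) (f : Γ j → Bool) (g : Bool → Γ k) : Frag K Γ :=
  atom (none : Option Bool) (.pop j (fun _ o => o.map f) (.branch (fun v => v.isSome)
    (.push k (fun v => g (v.getD false)) (.goto fun _ => none)) (.goto fun _ => none)))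

theorem mv_run (j k : K) (f : Γ j → Bool) (g : Bool → Γ k) (s : ∀ k, List (Γ k)) (a : Γ j)
    (l : List (Γ j)) (h : s j = a :: l) :
    (mv j k f g).Run s (update (update s j l) k (g (f a) :: (update s j l) k)) 1 := by
  intro v
  refine ⟨some (f a), Reach.one ?_⟩
  simp [mv, atom, Frag.M, TM2.stepAux, h]

/-- Pop a symbol of `j` and push it on `k` and on `k'`. -/
def mv2 (j k k' : K) (f : Γ j → Bool) (g : Bool → Γ k) (g' : Bool → Γ k') : Frag K Γ :=
  atom (none : Option Bool) (.pop j (fun _ o => o.map f) (.branch (fun v => v.isSome)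
    (.push k (fun v => g (v.getD false)) (.push k' (fun v => g' (v.getD false))
      (.goto fun _ => none))) (.goto fun _ => none)))

theorem mv2_run (j k k' : K) (f : Γ j → Bool) (g : Bool → Γ k) (g' : Bool → Γ k')
    (s : ∀ k, List (Γ k)) (a : Γ j) (l : List (Γ j)) (h : s j = a :: l) :
    (mv2 j k k' f g g').Run s
      (update (update (update s j l) k (g (f a) :: (update s j l) k)) k'
        (g' (f a) :: (update (update s j l) k (g (f a) :: (update s j l) k)) k')) 1 := by
  intro v
  refine ⟨some (f a), Reach.one ?_⟩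
  simp [mv2, atom, Frag.M, TM2.stepAux, h]

/-! ### branching -/

/-- branch on the top symbol of `k` -/
def ite (k : K) (c : Option (Γ k) → Bool) (F G : Frag K Γ) : Frag K Γ where
  Λ := Option (F.Λ ⊕ G.Λ)
  σ := Bool × (F.σ × G.σ)
  finΛ := @instFintypeOption _ (@instFintypeSum _ _ F.finΛ G.finΛ)
  finσ := @instFintypeProd _ _ inferInstance (@instFintypeProd _ _ F.finσ G.finσ)
  inh := (false, F.inh, G.inh)
  entry := none
  code
    | none => .peek k (fun w o => (c o, w.2))
        (.branch (fun w => w.1) (.goto fun _ => some (some (Sum.inl F.entry)))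
          (.goto fun _ => some (some (Sum.inr G.entry))))
    | some (Sum.inl l) => mapStmt (Option.map fun l => some (Sum.inl l))
        (fun w => w.2.1) (fun w v => (w.1, (v, w.2.2))) (F.code l)
    | some (Sum.inr l) => mapStmt (Option.map fun l => some (Sum.inr l))
        (fun w => w.2.2) (fun w v => (w.1, (w.2.1, v))) (G.code l)

theorem ite_true {k : K} {c : Option (Γ k) → Bool} {F G : Frag K Γ}
    {s s1 : ∀ k, List (Γ k)} {n : ℕ} (hc : c (s k).head? = true) (hF : F.Run s s1 n) :
    (ite k c F G).Run s s1 (n + 1) := by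
  intro w
  have hl : Lens (fun w : Bool × (F.σ × G.σ) => w.2.1) (fun w v => (w.1, (v, w.2.2))) :=
    ⟨fun _ _ => rfl, fun _ _ _ => rfl, fun _ => rfl⟩
  obtain ⟨w1, h1⟩ := hF.sim (ite k c F G).M (Option.map fun l => some (Sum.inl l)) hl
    (fun l => rfl) (c (s k).head?, w.2)
  refine ⟨w1, Reach.of_step ?_ h1⟩
  simp [ite, Frag.M, TM2.step, TM2.stepAux, hc]

theorem ite_false {k : K} {c : Option (Γ k) → Bool} {F G : Frag K Γ}
    {s s1 : ∀ k, List (Γ k)} {n : ℕ} (hc : c (s k).head? = false) (hG : G.Run s s1 n) :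
    (ite k c F G).Run s s1 (n + 1) := by
  intro w
  have hl : Lens (fun w : Bool × (F.σ × G.σ) => w.2.2) (fun w v => (w.1, (w.2.1, v))) :=
    ⟨fun _ _ => rfl, fun _ _ _ => rfl, fun _ => rfl⟩
  obtain ⟨w1, h1⟩ := hG.sim (ite k c F G).M (Option.map fun l => some (Sum.inr l)) hl
    (fun l => rfl) (c (s k).head?, w.2)
  refine ⟨w1, Reach.of_step ?_ h1⟩
  simp [ite, Frag.M, TM2.step, TM2.stepAux, hc]

/-! ### loops -/

/-- loop while the top symbol of `k` satisfies `c` -/
def whl (k : K) (c : Option (Γ k) → Bool) (F : Frag K Γ) : Frag K Γ where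
  Λ := Option F.Λ
  σ := Bool × F.σ
  finΛ := @instFintypeOption _ F.finΛ
  finσ := @instFintypeProd _ _ inferInstance F.finσ
  inh := (false, F.inh)
  entry := none
  code
    | none => .peek k (fun w o => (c o, w.2))
        (.branch (fun w => w.1) (.goto fun _ => some (some F.entry)) (.goto fun _ => none))
    | some l => mapStmt some Prod.snd (fun w v => (w.1, v)) (F.code l)

theorem whl_stop {k : K} {c : Option (Γ k) → Bool} {F : Frag K Γ}
    {s : ∀ k, List (Γ k)} (hc : c (s k).head? = false) :
    (whl k c F).Run s s 1 := by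
  intro w
  refine ⟨(c (s k).head?, w.2), Reach.one ?_⟩
  simp [whl, Frag.M, TM2.stepAux, hc]

theorem whl_go {k : K} {c : Option (Γ k) → Bool} {F : Frag K Γ}
    {s s1 s2 : ∀ k, List (Γ k)} {n m : ℕ} (hc : c (s k).head? = true) (hF : F.Run s s1 n)
    (hW : (whl k c F).Run s1 s2 m) : (whl k c F).Run s s2 (n + m + 1) := by
  intro w
  obtain ⟨w1, h1⟩ := hF.sim (whl k c F).M some lensSnd (fun l => rfl) (c (s k).head?, w.2)
  obtain ⟨w2, h2⟩ := hW w1
  refine ⟨w2, Reach.of_step ?_ (h1.trans h2)⟩
  simp [whl, Frag.M, TM2.step, TM2.stepAux, hc]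

end Frag

end Pool.Agent.TM2Lib
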