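import Pool.Agent.TM2Lib.Frag

/-!
# Lifting fragments to more stacks, and conversion from and to `Turing.FinTM2`
-/

namespace Pool.Agent.TM2Lib

open Function Turing

/-- alphabets of the disjoint union of two families of stacks -/
@[reducible] def SG {K1 K2 : Type} (Γ1 : K1 → Type) (Γ2 : K2 → Type) : K1 ⊕ K2 → Type
  | Sum.inl k => Γ1 k
  | Sum.inr k => Γ2 k

/-- joint store -/
def join {K1 K2 : Type} {Γ1 : K1 → Type} {Γ2 : K2 → Type} (s : ∀ k, List (Γ1 k))
    (t : ∀ k, List (Γ2 k)) : ∀ k, List (SG Γ1 Γ2 k)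
  | Sum.inl k => s k
  | Sum.inr k => t k

section join
variable {K1 K2 : Type} [DecidableEq K1] [DecidableEq K2] {Γ1 : K1 → Type} {Γ2 : K2 → Type}

omit [DecidableEq K1] [DecidableEq K2] in
@[simp] theorem join_inl (s : ∀ k, List (Γ1 k)) (t : ∀ k, List (Γ2 k)) (k : K1) :
    join s t (Sum.inl k) = s k := rfl

omit [DecidableEq K1] [DecidableEq K2] in
@[simp] theorem join_inr (s : ∀ k, List (Γ1 k)) (t : ∀ k, List (Γ2 k)) (k : K2) :
    join s t (Sum.inr k) = t k := rfl

@[simp] theorem update_join_inl (s : ∀ k, List (Γ1 k)) (t : ∀ k, List (Γ2 k)) (k : K1)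
    (x : List (Γ1 k)) :
    update (join s t) (Sum.inl k) (x : List (SG Γ1 Γ2 (Sum.inl k))) =
      join (update s k x) t := by
  funext j
  rcases j with j | j
  · by_cases h : j = k
    · subst h; simp
    · rw [update_of_ne (by simpa using h)]
      simp [join, update_of_ne h]
  · rw [update_of_ne (by simp)]
    rfl

@[simp] theorem update_join_inr (s : ∀ k, List (Γ1 k)) (t : ∀ k, List (Γ2 k)) (k : K2)
    (x : List (Γ2 k)) :
    update (join s t) (Sum.inr k) (x : List (SG Γ1 Γ2 (Sum.inr k))) =
      join s (update t k x) := by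
  funext j
  rcases j with j | j
  · rw [update_of_ne (by simp)]
    rfl
  · by_cases h : j = k
    · subst h; simp
    · rw [update_of_ne (by simpa using h)]
      simp [join, update_of_ne h]

end join

/-- lift a statement to more stacks, on the left -/
def liftStmtL {K1 K2 : Type} {Γ1 : K1 → Type} {Γ2 : K2 → Type} {L σ : Type} :
    TM2.Stmt Γ1 L σ → TM2.Stmt (SG Γ1 Γ2) L σ
  | .push k f q => .push (Sum.inl k) f (liftStmtL q)
  | .peek k f q => .peek (Sum.inl k) f (liftStmtL q)
  | .pop k f q => .pop (Sum.inl k) f (liftStmtL q)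
  | .load a q => .load a (liftStmtL q)
  | .branch f q₁ q₂ => .branch f (liftStmtL q₁) (liftStmtL q₂)
  | .goto f => .goto f
  | .halt => .halt

/-- lift a statement to more stacks, on the right -/
def liftStmtR {K1 K2 : Type} {Γ1 : K1 → Type} {Γ2 : K2 → Type} {L σ : Type} :
    TM2.Stmt Γ2 L σ → TM2.Stmt (SG Γ1 Γ2) L σ
  | .push k f q => .push (Sum.inr k) f (liftStmtR q)
  | .peek k f q => .peek (Sum.inr k) f (liftStmtR q)
  | .pop k f q => .pop (Sum.inr k) f (liftStmtR q)
  | .load a q => .load a (liftStmtR q)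
  | .branch f q₁ q₂ => .branch f (liftStmtR q₁) (liftStmtR q₂)
  | .goto f => .goto f
  | .halt => .halt

section lift
variable {K1 K2 : Type} [DecidableEq K1] [DecidableEq K2] {Γ1 : K1 → Type} {Γ2 : K2 → Type}

theorem stepAux_liftL {L σ : Type} (q : TM2.Stmt Γ1 L σ) :
    ∀ (w : σ) (s : ∀ k, List (Γ1 k)) (t : ∀ k, List (Γ2 k)),
    TM2.stepAux (liftStmtL (Γ2 := Γ2) q) w (join s t) =
      ⟨(TM2.stepAux q w s).l, (TM2.stepAux q w s).var, join (TM2.stepAux q w s).stk t⟩ := by
  induction q with
  | push k f q ih =>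
    intro w s t
    simp only [liftStmtL, TM2.stepAux]
    rw [← ih]
    congr 1
    exact update_join_inl s t k _
  | peek k f q ih => intro w s t; simp only [liftStmtL, TM2.stepAux]; rw [← ih]; rfl
  | pop k f q ih =>
    intro w s t
    simp only [liftStmtL, TM2.stepAux]
    rw [← ih]
    congr 1
    exact update_join_inl s t k _
  | load a q ih => intro w s t; simp only [liftStmtL, TM2.stepAux]; rw [← ih]
  | branch f q₁ q₂ ih₁ ih₂ =>
    intro w s t
    simp only [liftStmtL, TM2.stepAux]
    cases f w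
    · exact ih₂ w s t
    · exact ih₁ w s t
  | goto f => intro w s t; rfl
  | halt => intro w s t; rfl

theorem stepAux_liftR {L σ : Type} (q : TM2.Stmt Γ2 L σ) :
    ∀ (w : σ) (s : ∀ k, List (Γ1 k)) (t : ∀ k, List (Γ2 k)),
    TM2.stepAux (liftStmtR (Γ1 := Γ1) q) w (join s t) =
      ⟨(TM2.stepAux q w t).l, (TM2.stepAux q w t).var, join s (TM2.stepAux q w t).stk⟩ := by
  induction q with
  | push k f q ih =>
    intro w s t
    simp only [liftStmtR, TM2.stepAux]
    rw [← ih]
    congr 1
    exact update_join_inr s t k _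
  | peek k f q ih => intro w s t; simp only [liftStmtR, TM2.stepAux]; rw [← ih]; rfl
  | pop k f q ih =>
    intro w s t
    simp only [liftStmtR, TM2.stepAux]
    rw [← ih]
    congr 1
    exact update_join_inr s t k _
  | load a q ih => intro w s t; simp only [liftStmtR, TM2.stepAux]; rw [← ih]
  | branch f q₁ q₂ ih₁ ih₂ =>
    intro w s t
    simp only [liftStmtR, TM2.stepAux]
    cases f w
    · exact ih₂ w s t
    · exact ih₁ w s t
  | goto f => intro w s t; rfl
  | halt => intro w s t; rfl

/-- lift a fragment -/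
def Frag.liftL (F : Frag K1 Γ1) : Frag (K1 ⊕ K2) (SG Γ1 Γ2) where
  Λ := F.Λ
  σ := F.σ
  finΛ := F.finΛ
  finσ := F.finσ
  inh := F.inh
  entry := F.entry
  code l := liftStmtL (F.code l)

/-- lift a fragment -/
def Frag.liftR (F : Frag K2 Γ2) : Frag (K1 ⊕ K2) (SG Γ1 Γ2) where
  Λ := F.Λ
  σ := F.σ
  finΛ := F.finΛ
  finσ := F.finσ
  inh := F.inh
  entry := F.entry
  code l := liftStmtR (F.code l)

theorem Frag.liftL_run {F : Frag K1 Γ1} {s s' : ∀ k, List (Γ1 k)} {n : ℕ}
    (h : F.Run s s' n) (t : ∀ k, List (Γ2 k)) :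
    (F.liftL (K2 := K2) (Γ2 := Γ2)).Run (join s t) (join s' t) n := by
  intro v
  obtain ⟨v', hv'⟩ := h v
  refine ⟨v', ?_⟩
  have key : ∀ (n : ℕ) (l : Option (Option F.Λ)) (v : F.σ) (s : ∀ k, List (Γ1 k)),
      Reach F.M n ⟨l, v, s⟩ ⟨some none, v', s'⟩ →
      Reach (F.liftL (K2 := K2) (Γ2 := Γ2)).M n ⟨l, v, join s t⟩
        ⟨some none, v', join s' t⟩ := by
    intro n
    induction n with
    | zero =>
      intro l v s h
      unfold Reach at h
      simp only [Function.iterate_zero, id_eq, Option.some.injEq] at h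
      cases h
      exact Reach.zero _
    | succ n ih =>
      intro l v s h
      obtain ⟨⟨cl, cv, cs⟩, hc, h1⟩ := h.succ_inv
      refine Reach.of_step ?_ (ih cl cv cs h1)
      rcases l with _ | l
      · exact absurd hc (by simp [TM2.step])
      · have e : TM2.step F.M ⟨some l, v, s⟩ = some (TM2.stepAux (F.M l) v s) := rfl
        rw [e] at hc
        have hc' := Option.some.inj hc
        have e2 : TM2.step (F.liftL (K2 := K2) (Γ2 := Γ2)).M ⟨some l, v, join s t⟩ =
          some (TM2.stepAux ((F.liftL (K2 := K2) (Γ2 := Γ2)).M l) v (join s t)) := rfl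
        have e3 : (F.liftL (K2 := K2) (Γ2 := Γ2)).M l = liftStmtL (F.M l) := by
          cases l <;> rfl
        have e4 := stepAux_liftL (Γ2 := Γ2) (F.M l) v s t
        rw [hc'] at e4
        exact e2.trans (congrArg some
          ((congrArg (fun q => TM2.stepAux q v (join s t)) e3).trans e4))
  exact key n _ v s hv'

theorem Frag.liftR_run {F : Frag K2 Γ2} {t t' : ∀ k, List (Γ2 k)} {n : ℕ}
    (h : F.Run t t' n) (s : ∀ k, List (Γ1 k)) :
    (F.liftR (K1 := K1) (Γ1 := Γ1)).Run (join s t) (join s t') n := by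
  intro v
  obtain ⟨v', hv'⟩ := h v
  refine ⟨v', ?_⟩
  have key : ∀ (n : ℕ) (l : Option (Option F.Λ)) (v : F.σ) (t : ∀ k, List (Γ2 k)),
      Reach F.M n ⟨l, v, t⟩ ⟨some none, v', t'⟩ →
      Reach (F.liftR (K1 := K1) (Γ1 := Γ1)).M n ⟨l, v, join s t⟩
        ⟨some none, v', join s t'⟩ := by
    intro n
    induction n with
    | zero =>
      intro l v t h
      unfold Reach at h
      simp only [Function.iterate_zero, id_eq, Option.some.injEq] at h
      cases h
      exact Reach.zero _
    | succ n ih =>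
      intro l v t h
      obtain ⟨⟨cl, cv, cs⟩, hc, h1⟩ := h.succ_inv
      refine Reach.of_step ?_ (ih cl cv cs h1)
      rcases l with _ | l
      · exact absurd hc (by simp [TM2.step])
      · have e : TM2.step F.M ⟨some l, v, t⟩ = some (TM2.stepAux (F.M l) v t) := rfl
        rw [e] at hc
        have hc' := Option.some.inj hc
        have e2 : TM2.step (F.liftR (K1 := K1) (Γ1 := Γ1)).M ⟨some l, v, join s t⟩ =
          some (TM2.stepAux ((F.liftR (K1 := K1) (Γ1 := Γ1)).M l) v (join s t)) := rfl
        have e3 : (F.liftR (K1 := K1) (Γ1 := Γ1)).M l = liftStmtR (F.M l) := by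
          cases l <;> rfl
        have e4 := stepAux_liftR (Γ1 := Γ1) (F.M l) v s t
        rw [hc'] at e4
        exact e2.trans (congrArg some
          ((congrArg (fun q => TM2.stepAux q v (join s t)) e3).trans e4))
  exact key n _ v t hv'

end lift

/-! ### conversion from `FinTM2` -/

/-- replace `halt` by the exit -/
def exitStmt {K : Type} {Γ : K → Type} {L σ : Type} :
    TM2.Stmt Γ L σ → TM2.Stmt Γ (Option (Option L)) σ
  | .push k f q => .push k f (exitStmt q)
  | .peek k f q => .peek k f (exitStmt q)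
  | .pop k f q => .pop k f (exitStmt q)
  | .load a q => .load a (exitStmt q)
  | .branch f q₁ q₂ => .branch f (exitStmt q₁) (exitStmt q₂)
  | .goto f => .goto (fun w => some (some (f w)))
  | .halt => .goto (fun _ => none)

theorem stepAux_exit {K : Type} [DecidableEq K] {Γ : K → Type} {L σ : Type}
    (q : TM2.Stmt Γ L σ) : ∀ (w : σ) (s : ∀ k, List (Γ k)),
    TM2.stepAux (exitStmt q) w s =
      ⟨some ((TM2.stepAux q w s).l.map some), (TM2.stepAux q w s).var,
        (TM2.stepAux q w s).stk⟩ := by
  induction q with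
  | push k f q ih => intro w s; simp only [exitStmt, TM2.stepAux]; rw [ih]
  | peek k f q ih => intro w s; simp only [exitStmt, TM2.stepAux]; rw [ih]
  | pop k f q ih => intro w s; simp only [exitStmt, TM2.stepAux]; rw [ih]
  | load a q ih => intro w s; simp only [exitStmt, TM2.stepAux]; rw [ih]
  | branch f q₁ q₂ ih₁ ih₂ =>
    intro w s
    simp only [exitStmt, TM2.stepAux]
    cases f w
    · exact ih₂ w s
    · exact ih₁ w s
  | goto f => intro w s; rfl
  | halt => intro w s; rfl

/-- a `FinTM2` as a fragment -/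
def Frag.ofTM (tm : FinTM2) : Frag tm.K tm.Γ where
  Λ := Option tm.Λ
  σ := tm.σ
  finΛ := @instFintypeOption _ tm.ΛFin
  finσ := tm.σFin
  inh := tm.initialState
  entry := none
  code
    | none => .load (fun _ => tm.initialState) (.goto fun _ => some (some tm.main))
    | some l => exitStmt (tm.m l)

theorem Frag.ofTM_run (tm : FinTM2) {l : List (tm.Γ tm.k₀)} {l' : List (tm.Γ tm.k₁)} {m : ℕ}
    (h : TM2OutputsInTime tm l (some l') m) :
    ∃ n ≤ m + 1, (Frag.ofTM tm).Run (initList tm l).stk (haltList tm l').stk n := by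
  refine ⟨h.steps + 1, by have := h.steps_le_m; omega, ?_⟩
  intro v
  refine ⟨tm.initialState, ?_⟩
  have h0 : TM2.step (Frag.ofTM tm).M ⟨some (some (Frag.ofTM tm).entry), v, (initList tm l).stk⟩ =
    some ⟨some (some (some tm.main)), tm.initialState, (initList tm l).stk⟩ := rfl
  refine Reach.of_step h0 ?_
  have key : ∀ (n : ℕ) (l : tm.Λ) (v v' : tm.σ) (s s' : ∀ k, List (tm.Γ k)),
      Reach tm.m n ⟨some l, v, s⟩ ⟨none, v', s'⟩ →
      Reach (Frag.ofTM tm).M n ⟨some (some (some l)), v, s⟩ ⟨some none, v', s'⟩ := by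
    intro n
    induction n with
    | zero =>
      intro l v v' s s' h
      unfold Reach at h
      simp at h
    | succ n ih =>
      intro l v v' s s' h
      obtain ⟨⟨cl, cv, cs⟩, hc, h1⟩ := h.succ_inv
      have e : TM2.step tm.m ⟨some l, v, s⟩ = some (TM2.stepAux (tm.m l) v s) := rfl
      rw [e] at hc
      have hc' := Option.some.inj hc
      have e2 : TM2.step (Frag.ofTM tm).M ⟨some (some (some l)), v, s⟩ =
          some ⟨some (cl.map some), cv, cs⟩ := by
        have : TM2.step (Frag.ofTM tm).M ⟨some (some (some l)), v, s⟩ =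
          some (TM2.stepAux (exitStmt (tm.m l)) v s) := rfl
        rw [this, stepAux_exit, hc']
        rfl
      refine Reach.of_step e2 ?_
      rcases cl with _ | l2
      · rcases n with _ | n
        · unfold Reach at h1
          simp only [Function.iterate_zero, id_eq, Option.some.injEq] at h1
          cases h1
          exact Reach.zero _
        · exfalso
          obtain ⟨c2, hc2, -⟩ := h1.succ_inv
          exact absurd hc2 (by simp [TM2.step])
      · exact ih l2 cv v' cs s' h1
  refine key h.steps tm.main tm.initialState tm.initialState _ _ ?_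
  have := h.evals_in_steps
  exact this

/-- the store with `x` on stack `k` and nothing else -/
def single {K : Type} [DecidableEq K] {Γ : K → Type} (k : K) (x : List (Γ k)) :
    ∀ k, List (Γ k) := update (fun _ => []) k x

theorem initList_stk (tm : FinTM2) (l : List (tm.Γ tm.k₀)) :
    (initList tm l).stk = single tm.k₀ l := by
  funext k
  by_cases h : k = tm.k₀
  · subst h
    simp [initList, single]
  · simp [initList, single, h, update_of_ne]

theorem haltList_stk (tm : FinTM2) (l : List (tm.Γ tm.k₁)) :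
    (haltList tm l).stk = single tm.k₁ l := by
  funext k
  by_cases h : k = tm.k₁
  · subst h
    simp [haltList, single]
  · simp [haltList, single, h, update_of_ne]

/-! ### conversion to `FinTM2` -/

/-- a fragment as a machine -/
def Frag.toTM {K : Type} [DecidableEq K] [Fintype K] {Γ : K → Type} (F : Frag K Γ) (i o : K)
    [Fintype (Γ i)] : FinTM2 where
  K := K
  k₀ := i
  k₁ := o
  Γ := Γ
  Λ := Option F.Λ
  main := some F.entry
  ΛFin := @instFintypeOption _ F.finΛ
  σ := F.σ
  initialState := F.inh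
  σFin := F.finσ
  m
    | none => .load (fun _ => F.inh) .halt
    | some l => F.code l

theorem mapStmt_id {K : Type} {Γ : K → Type} {L σ : Type} (q : TM2.Stmt Γ L σ) :
    mapStmt id id (fun _ v => v) q = q := by
  induction q with
  | push k f q ih => simp only [mapStmt]; rw [ih]; rfl
  | peek k f q ih => simp only [mapStmt]; rw [ih]; rfl
  | pop k f q ih => simp only [mapStmt]; rw [ih]; rfl
  | load a q ih => simp only [mapStmt]; rw [ih]; rfl
  | branch f q₁ q₂ ih₁ ih₂ => simp only [mapStmt]; rw [ih₁, ih₂]; rfl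
  | goto f => rfl
  | halt => rfl

theorem Frag.toTM_outputs {K : Type} [DecidableEq K] [Fintype K] {Γ : K → Type}
    (F : Frag K Γ) (i o : K) [Fintype (Γ i)] {x : List (Γ i)} {y : List (Γ o)} {n m : ℕ}
    (h : F.Run (single i x) (single o y) n) (hm : n + 1 ≤ m) :
    Nonempty (TM2OutputsInTime (F.toTM i o) x (some y) m) := by
  have hl : Lens (id : F.σ → F.σ) (fun _ v => v) :=
    ⟨fun _ _ => rfl, fun _ _ _ => rfl, fun _ => rfl⟩
  obtain ⟨w', hw'⟩ := h.sim (F.toTM i o).m id hl (fun l => (mapStmt_id _).symm) F.inh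
  have h1 : Reach (F.toTM i o).m 1 ⟨some none, w', single o y⟩ ⟨none, F.inh, single o y⟩ :=
    Reach.one rfl
  have h2 := Reach.trans hw' h1
  refine ⟨⟨⟨n + 1, ?_⟩, hm⟩⟩
  have e1 : initList (F.toTM i o) x = ⟨some (some F.entry), F.inh, single i x⟩ := by
    have := initList_stk (F.toTM i o) x
    have e : initList (F.toTM i o) x =
      ⟨some (some F.entry), F.inh, (initList (F.toTM i o) x).stk⟩ := rfl
    rw [e, this]
    rfl
  have e2 : haltList (F.toTM i o) y = ⟨none, F.inh, single o y⟩ := by
    have := haltList_stk (F.toTM i o) y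
    have e : haltList (F.toTM i o) y =
      ⟨none, F.inh, (haltList (F.toTM i o) y).stk⟩ := rfl
    rw [e, this]
    rfl
  rw [Option.map_some, e1, e2]
  exact h2

end Pool.Agent.TM2Lib
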