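import Pool.Agent.TM2Lib.NP
import Pool.Agent.TM2Lib.PolyNat

/-!
# From `Poly` to P, NP and reductions
-/

namespace Pool.Agent.TM2Lib.NPC

open Function Turing D

/-! ### codes -/

theorem enc_eq_ofBits (l : List Bool) : (enc l : D) = ofBits l := by
  induction l with
  | nil => rfl
  | cons b l ih =>
    have h1 : (enc (b :: l) : D) = D.cons (enc b) (enc l) := rfl
    rw [h1, ih]
    rfl

/-! ### from bits to trees and back -/

theorem comp_bool {α : Type} {x : α → List Bool} {c : α → Bool}
    (h : Comp x (fun a => encD (enc (c a)))) (u v : List Bool) :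
    Comp x (fun a => if c a then u else v) := by
  have h1 : Comp x (fun a => encD (D.cons (ofBool (c a)) D.nil)) :=
    Comp.pair (u := fun a => enc (c a)) (v := fun _ => D.nil) h (Comp.const _ _)
  refine Comp.trans h1 (Comp.ite c (fun _ => D.nil) ?_ ?_)
  · refine (Comp.const _ u).congr (fun _ => rfl) ?_
    rintro ⟨a, ha⟩
    simp [ha]
  · refine (Comp.const _ v).congr (fun _ => rfl) ?_
    rintro ⟨a, ha⟩
    simp [ha]

/-- a Boolean result as a bit -/
theorem comp_bitCode {α : Type} {x : α → List Bool} {c : α → Bool}
    (h : Comp x (fun a => encD (enc (c a)))) : Comp x (fun a => bitCode (c a)) :=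
  (comp_bool h [true] [false]).congr (fun _ => rfl) fun a => by cases c a <;> rfl

/-- a bit as a Boolean result -/
theorem comp_of_bitCode {α : Type} {x : α → List Bool} {c : α → Bool}
    (h : Comp x (fun a => bitCode (c a))) : Comp x (fun a => encD (enc (c a))) := by
  have h1 : Comp (fun b : List Bool => encD (enc b)) (fun b => encD (enc (b.headD false))) :=
    Poly.headD (f := fun b : List Bool => b) (g := fun _ => false) Poly.id (Poly.const _)
  have h2 := Comp.bits (fun a => bitCode (c a))
  have h3 : Comp (fun a => encD (ofBits (bitCode (c a)))) (fun a => encD (enc (c a))) :=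
    (Comp.reindex h1 (fun a => bitCode (c a))).congr (fun a => by rw [enc_eq_ofBits])
      fun a => rfl
  exact h.trans (h2.trans h3)

/-- one round of the loop of `comp_unbits` -/
def unbitsBody : Frag (Fin 3) (GB (Fin 3)) :=
  (Frag.pop 0).seq (Frag.ite 0 (fun o => o == some true)
    ((Frag.pop 0).seq ((Frag.pop 0).seq ((Frag.pop 0).seq (Frag.push 1 true))))
    ((Frag.pop 0).seq (Frag.push 1 false)))

theorem unbits_loop (l : List Bool) : ∀ (r : List Bool),
    ∃ n ≤ 8 * l.length + 1,
      (Frag.whl 0 (fun o => o == some true) unbitsBody).Run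
        ![encD (ofBits l), r, []] ![[false], l.reverse ++ r, []] n := by
  induction l with
  | nil =>
    intro r
    exact ⟨1, by simp, Frag.whl_stop rfl⟩
  | cons b l ih =>
    intro r
    obtain ⟨n, hn, hr⟩ := ih (b :: r)
    have e : (b :: l).reverse ++ r = l.reverse ++ (b :: r) := by simp
    rw [e]
    rcases b with _ | _
    · have e0 : encD (ofBits (false :: l)) = true :: false :: encD (ofBits l) := by
        simp [encD, ofBits, ofBool]
      rw [e0]
      have r1 : (Frag.pop 0 : Frag (Fin 3) (GB (Fin 3))).Run
          ![true :: false :: encD (ofBits l), r, []] ![false :: encD (ofBits l), r, []] 1 := by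
        refine popB 0 _ _ ?_ ?_
        · simp
        · intro m hm; fin_cases m <;> simp_all
      have r2 : (Frag.pop 0 : Frag (Fin 3) (GB (Fin 3))).Run
          ![false :: encD (ofBits l), r, []] ![encD (ofBits l), r, []] 1 := by
        refine popB 0 _ _ ?_ ?_
        · simp
        · intro m hm; fin_cases m <;> simp_all
      have r3 : (Frag.push 1 false : Frag (Fin 3) (GB (Fin 3))).Run
          ![encD (ofBits l), r, []] ![encD (ofBits l), false :: r, []] 1 := by
        refine pushB 1 _ _ _ ?_ ?_
        · simp
        · intro m hm; fin_cases m <;> simp_all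
      have r4 : unbitsBody.Run ![true :: false :: encD (ofBits l), r, []]
          ![encD (ofBits l), false :: r, []] _ :=
        Frag.seq_run r1 (Frag.ite_false rfl (Frag.seq_run r2 r3))
      refine ⟨_, ?_, Frag.whl_go (c := fun o => o == some true) (k := (0 : Fin 3)) rfl r4 hr⟩
      simp only [List.length_cons]
      omega
    · have e0 : encD (ofBits (true :: l)) =
          true :: true :: false :: false :: encD (ofBits l) := by
        simp [encD, ofBits, ofBool]
      rw [e0]
      have r1 : ∀ (c : Bool) (t : List Bool), (Frag.pop 0 : Frag (Fin 3) (GB (Fin 3))).Run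
          ![c :: t, r, []] ![t, r, []] 1 := by
        intro c t
        refine popB 0 _ _ ?_ ?_
        · simp
        · intro m hm; fin_cases m <;> simp_all
      have r3 : (Frag.push 1 true : Frag (Fin 3) (GB (Fin 3))).Run
          ![encD (ofBits l), r, []] ![encD (ofBits l), true :: r, []] 1 := by
        refine pushB 1 _ _ _ ?_ ?_
        · simp
        · intro m hm; fin_cases m <;> simp_all
      have r4 : unbitsBody.Run ![true :: true :: false :: false :: encD (ofBits l), r, []]
          ![encD (ofBits l), true :: r, []] _ :=
        Frag.seq_run (r1 _ _) (Frag.ite_true rfl (Frag.seq_run (r1 _ _)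
          (Frag.seq_run (r1 _ _) (Frag.seq_run (r1 _ _) r3))))
      refine ⟨_, ?_, Frag.whl_go (c := fun o => o == some true) (k := (0 : Fin 3)) rfl r4 hr⟩
      simp only [List.length_cons]
      omega

theorem size_ofBits_ge (l : List Bool) : l.length ≤ (encD (ofBits l)).length := by
  induction l with
  | nil => simp
  | cons b l ih =>
    have : (encD (ofBits (b :: l))).length = (ofBool b).size + (ofBits l).size + 1 :=
      size_cons _ _
    have h2 : (ofBits l).size = (encD (ofBits l)).length := rfl
    simp only [List.length_cons]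
    omega

/-- the string from its bits as a tree -/
theorem comp_unbits {α : Type} (x : α → List Bool) : Comp (fun a => encD (ofBits (x a))) x := by
  refine Comp.ofB (A := Fin 3) ((Frag.whl 0 (fun o => o == some true) unbitsBody).seq
    ((Frag.pop 0).seq (moveAll 1 2 (Equiv.refl Bool) (Equiv.refl Bool).symm))) 0 2
    (10 * Polynomial.X + 3) ?_
  intro a
  obtain ⟨n, hn, hr⟩ := unbits_loop (x a) []
  rw [List.append_nil] at hr
  have r1 : (Frag.pop 0 : Frag (Fin 3) (GB (Fin 3))).Run
      ![[false], (x a).reverse, []] ![[], (x a).reverse, []] 1 := by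
    refine popB 0 _ _ ?_ ?_
    · simp
    · intro m hm; fin_cases m <;> simp_all
  have r2 : (moveAll 1 2 (Equiv.refl Bool) (Equiv.refl Bool).symm :
      Frag (Fin 3) (GB (Fin 3))).Run ![[], (x a).reverse, []]
      ![[], [], x a] (2 * (x a).reverse.length + 1) := by
    refine moveB 1 2 (by decide) _ _ (x a).reverse [] ?_ ?_ ?_ ?_ ?_ <;> try simp
    intro m h1; fin_cases m <;> simp_all
  refine ⟨_, ?_, (Frag.seq_run hr (Frag.seq_run r1 r2)).cast ?_ ?_⟩
  · have h1 := size_ofBits_ge (x a)
    simp only [List.length_reverse, Polynomial.eval_add, Polynomial.eval_mul,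
      Polynomial.eval_X, Polynomial.eval_ofNat]
    omega
  · funext m; fin_cases m <;> rfl
  · funext m; fin_cases m <;> rfl

/-- a string is transformed into its tree -/
theorem comp_enc_bits {α : Type} (x : α → List Bool) : Comp x (fun a => encD (enc (x a))) :=
  (Comp.bits x).congr (fun _ => rfl) fun a => by rw [enc_eq_ofBits]

/-- a tree is transformed into the string -/
theorem comp_enc_unbits {α : Type} (x : α → List Bool) : Comp (fun a => encD (enc (x a))) x :=
  (comp_unbits x).congr (fun a => by rw [enc_eq_ofBits]) fun _ => rfl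

/-- a `Poly` function of a string -/
theorem polyTime_of_poly {β : Type} [Enc β] {f : List Bool → β} (hf : Poly f) :
    PolyTime (id : List Bool → List Bool) code f :=
  Comp.to_tm (ea := (id : List Bool → List Bool)) (eb := (code : β → List Bool))
    ((comp_enc_bits (id : List Bool → List Bool)).trans hf)

theorem polyTime_code {α β : Type} [Enc α] [Enc β] {f : α → β} (hf : Poly f) :
    PolyTime code code f :=
  Comp.to_tm (ea := (code : α → List Bool)) (eb := (code : β → List Bool)) hf

theorem comp_of_polyTime {α β : Type} {ca : α → List Bool} {cb : β → List Bool} {f : α → β}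
    (h : PolyTime ca cb f) : Comp ca (fun a => cb (f a)) := by
  obtain ⟨h⟩ := h
  exact Comp.of_tm (ea := ca) (eb := cb) h

theorem polyTime_of_comp {α β : Type} {ca : α → List Bool} {cb : β → List Bool} {f : α → β}
    (h : Comp ca (fun a => cb (f a))) : PolyTime ca cb f :=
  Comp.to_tm (ea := ca) (eb := cb) h

/-- reductions compose -/
theorem Reduces.trans {P Q R : DecProb} (h1 : Reduces P Q) (h2 : Reduces Q R) : Reduces P R := by
  obtain ⟨f, hf, hf'⟩ := h1
  obtain ⟨g, hg, hg'⟩ := h2
  refine ⟨fun x => g (f x), ?_, fun x => (hf' x).trans (hg' (f x))⟩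
  have h3 := comp_of_polyTime hf
  have h4 := Comp.reindex (comp_of_polyTime hg) f
  exact polyTime_of_comp (h3.trans h4)

/-- a problem to which an NP-hard problem reduces is NP-hard -/
theorem NPHard.of_reduces {Q R : DecProb} (hQ : NPHard Q) (h : Reduces Q R) : NPHard R :=
  fun L hL => (hQ L hL).trans h

/-- a reduction from a `Poly` function -/
theorem reduces_of_poly {A B : Type} [Enc A] [Enc B] {yA : A → Prop} {yB : B → Prop} {f : A → B}
    (hf : Poly f) (h : ∀ a, yA a ↔ yB (f a)) : Reduces ⟨A, code, yA⟩ ⟨B, code, yB⟩ :=
  ⟨f, polyTime_code hf, h⟩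

/-! ### parsing -/

/-- one step of the parser, reading the code from right to left -/
def pstep (b : Bool) (st : List D) : List D :=
  if b then D.cons (st.headD D.nil) (st.tail.headD D.nil) :: st.tail.tail else D.nil :: st

/-- the tree with a given code -/
def parse (z : List Bool) : D := (z.foldr pstep []).headD D.nil

theorem foldr_pstep (d : D) : ∀ (z : List Bool) (st : List D),
    (encD d ++ z).foldr pstep st = d :: z.foldr pstep st := by
  induction d with
  | nil => intro z st; rfl
  | cons a b iha ihb =>
    intro z st
    have h1 : encD (D.cons a b) ++ z = true :: (encD a ++ (encD b ++ z)) := by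
      simp [encD]
    rw [h1, List.foldr_cons, iha, ihb]
    rfl

theorem parse_encD (d : D) : parse (encD d) = d := by
  have h := foldr_pstep d [] []
  rw [List.append_nil] at h
  rw [parse, h]
  rfl

theorem encD_injective : Injective encD := fun a b h => by
  rw [← parse_encD a, h, parse_encD]

variable {α β γ : Type} [Enc α] [Enc β] [Enc γ]

theorem poly_consD {f g : α → D} (hf : Poly f) (hg : Poly g) :
    Poly (fun a => D.cons (f a) (g a)) := hf.pair hg

theorem sz_D (d : D) : sz d = d.size := rfl

theorem sz_headD_tail (st : List D) :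
    sz (D.cons (st.headD D.nil) (st.tail.headD D.nil) :: st.tail.tail) ≤ sz st + 5 := by
  rcases st with _ | ⟨a, _ | ⟨b, st⟩⟩
  · simp [sz_D]
  · simp [sz_D]
  · simp [sz_D]; omega

theorem poly_parse {f : α → List Bool} (hf : Poly f) : Poly (fun a => parse (f a)) := by
  have h1 := Poly.foldr_add (f := f) (g := fun _ => ([] : List D))
    (h := fun p : α × (List D × Bool) => if p.2.2 then
      D.cons (p.2.1.headD D.nil) (p.2.1.tail.headD D.nil) :: p.2.1.tail.tail
      else D.nil :: p.2.1) hf (Poly.const _)
    (Poly.ite (Poly.id.snd'.snd')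
      (Poly.cons (poly_consD (Poly.headD Poly.id.snd'.fst' (Poly.const D.nil))
        (Poly.headD Poly.id.snd'.fst'.tail (Poly.const D.nil))) Poly.id.snd'.fst'.tail.tail)
      (Poly.cons (Poly.const D.nil) Poly.id.snd'.fst')) (Polynomial.C 5) (by
    intro a s b _
    rcases b with _ | _
    · simp only [Bool.false_eq_true, if_false, sz_cons, Polynomial.eval_C]
      have : sz D.nil = 1 := rfl
      omega
    · have := sz_headD_tail s
      simp only [if_true, Polynomial.eval_C]
      omega)
  exact (Poly.headD (g := fun _ => D.nil) h1 (Poly.const _)).of_eq fun a => rfl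

/-- the items on the right spine of a tree -/
def toL : D → List D
  | .nil => []
  | .cons a b => a :: toL b

theorem enc_toL (d : D) : enc (toL d) = d := by
  induction d with
  | nil => rfl
  | cons a b _ ih =>
    have h1 : (enc (toL (D.cons a b)) : D) = D.cons a (enc (toL b)) := rfl
    rw [h1, ih]

omit [Enc α] in
theorem toL_encList (e : α → D) (l : List α) : toL (encList e l) = l.map e := by
  induction l with
  | nil => rfl
  | cons a l ih =>
    have h1 : encList e (a :: l) = D.cons (e a) (encList e l) := rfl
    rw [h1, toL, ih, List.map_cons]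

theorem toL_enc (l : List α) : toL (enc l) = l.map enc := toL_encList _ _

theorem poly_toL {f : α → D} (hf : Poly f) : Poly (fun a => toL (f a)) :=
  hf.congr (fun _ => rfl) fun a => by rw [enc_toL]; rfl

/-- decoding -/
class Dec (α : Type) [Enc α] where
  /-- the decoding function -/
  dec : D → α
  dec_enc : ∀ a : α, dec (enc a) = a
  poly_dec : Poly dec

open Dec

theorem enc_injective [Dec α] : Injective (enc : α → D) := fun a b h => by
  rw [← dec_enc a, h, dec_enc]

theorem code_injective [Dec α] : Injective (code : α → List Bool) := fun a b h =>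
  enc_injective (encD_injective h)

instance : Dec D := ⟨id, fun _ => rfl, Poly.id⟩

instance : Dec Bool where
  dec d := !(toL d).isEmpty
  dec_enc b := by cases b <;> rfl
  poly_dec := Poly.not (Poly.isEmpty (poly_toL Poly.id))

instance : Dec Unit where
  dec _ := ()
  dec_enc _ := rfl
  poly_dec := Poly.const _

instance [Dec α] : Dec (List α) where
  dec d := (toL d).map dec
  dec_enc l := by
    rw [toL_enc, List.map_map]
    conv_rhs => rw [← List.map_id l]
    apply List.map_congr_left
    intro a _
    exact dec_enc a
  poly_dec := Poly.map (h := fun p : D × D => dec p.2) (poly_toL Poly.id)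
    (Dec.poly_dec.comp Poly.snd)

instance : Dec ℕ where
  dec d := bval (dec d : List Bool)
  dec_enc n := by
    have h : (enc n : D) = enc n.bits := rfl
    rw [h, dec_enc, bval_bits]
  poly_dec := Poly.bval Dec.poly_dec

theorem enc_encList_id (d : D) : (enc (toL d) : D) = encList id (toL d) := rfl

/-- first component of a tree -/
def lft (d : D) : D := (toL d).headD D.nil

/-- second component of a tree -/
def rgt (d : D) : D := (encList id (toL d).tail)

theorem encList_id_toL (d : D) : encList id (toL d) = d := enc_toL d

theorem poly_lft {f : α → D} (hf : Poly f) : Poly (fun a => lft (f a)) :=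
  Poly.headD (poly_toL hf) (Poly.const _)

theorem poly_rgt {f : α → D} (hf : Poly f) : Poly (fun a => rgt (f a)) :=
  (poly_toL hf).tail.congr (fun _ => rfl) fun _ => rfl

instance [Dec α] [Dec β] : Dec (α × β) where
  dec d := (dec (lft d), dec (rgt d))
  dec_enc p := by
    have h1 : lft (enc p) = enc p.1 := rfl
    have h2 : rgt (enc p) = enc p.2 := encList_id_toL _
    rw [h1, h2, dec_enc, dec_enc]
  poly_dec := (Dec.poly_dec.comp (poly_lft Poly.id)).pair (Dec.poly_dec.comp (poly_rgt Poly.id))

/-! ### NP -/

theorem poly_un_sz {f : α → β} (hf : Poly f) : Poly (fun a => un (sz (f a))) := by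
  have h1 : Poly (fun l : List Bool => un l.length) := Poly.NPC.un_length Poly.id
  have h2 : Comp (fun a => encD (enc (f a))) (fun a => encD (enc (encD (enc (f a))))) :=
    comp_enc_bits (fun a => encD (enc (f a)))
  exact (Comp.trans hf h2).trans (Comp.reindex h1 (fun a => encD (enc (f a))))

/-- a problem is in NP if it has `Poly`-verifiable short certificates -/
theorem inNP_of_poly {yes : α → Prop} [Dec γ] (V : α × γ → Bool) (hV : Poly V)
    (p : Polynomial ℕ) (h1 : ∀ x c, V (x, c) = true → yes x)
    (h2 : ∀ x, yes x → ∃ c, sz c ≤ p.eval (sz x) ∧ V (x, c) = true) :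
    InNP ⟨α, code, yes⟩ := by
  refine ⟨fun z => V (z.1, dec (parse z.2)), p, ?_, ?_⟩
  · -- the pairing code uses the string `code x`, which is first transformed into `enc x`
    have h3 : Poly (fun z : List Bool × List Bool => (parse z.1, (dec (parse z.2) : γ))) :=
      (poly_parse Poly.fst).pair (Dec.poly_dec.comp (poly_parse Poly.snd))
    have h4 : Comp (fun z : α × List Bool => pairCode (code z.1, z.2))
        (fun z => encD (enc ((z.1, (dec (parse z.2) : γ)) : α × γ))) := by
      refine (Comp.reindex h3 (fun z : α × List Bool => (code z.1, z.2))).congr ?_ ?_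
      · intro z
        have : (enc (code z.1, z.2) : D) = D.cons (enc (code z.1)) (enc z.2) := rfl
        rw [this, enc_eq_ofBits, enc_eq_ofBits]
        rfl
      · intro z
        have h6 : parse (code z.1) = enc z.1 := parse_encD _
        simp only [h6]
        rfl
    have h5 : Comp (fun z : α × List Bool => encD (enc ((z.1, (dec (parse z.2) : γ)) : α × γ)))
        (fun z => encD (enc (V (z.1, dec (parse z.2))))) :=
      Comp.reindex hV (fun z : α × List Bool => (z.1, (dec (parse z.2) : γ)))
    exact polyTime_of_comp (comp_bitCode (h4.trans h5))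
  · intro x
    constructor
    · intro hx
      obtain ⟨c, hc1, hc2⟩ := h2 x hx
      refine ⟨encD (enc c), hc1, ?_⟩
      simp only [parse_encD, dec_enc]
      exact hc2
    · rintro ⟨y, _, hy⟩
      exact h1 x _ hy

theorem length_le_un {l : List Bool} {n : ℕ} : decide (l.length ≤ n) =
    (l.drop n).isEmpty := by
  rw [Bool.eq_iff_iff]
  simp [List.isEmpty_iff, List.drop_eq_nil_iff]

/-- the form of a language in NP used for the tableau -/
theorem exists_rel {L : Set (List Bool)} (h : InNP (Lang L)) :
    ∃ (R : List Bool × List Bool → Bool) (p : Polynomial ℕ), Poly R ∧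
      (∀ x y, R (x, y) = true → y.length ≤ p.eval x.length) ∧
      ∀ x, x ∈ L ↔ ∃ y, R (x, y) = true := by
  obtain ⟨V, p, hV, h⟩ := h
  change List Bool × List Bool → Bool at V
  have h0 : Comp (fun z : List Bool × List Bool => pairCode (z.1, z.2))
      (fun z => encD (enc (V z))) := comp_of_bitCode (comp_of_polyTime hV)
  have h1 : Poly V :=
    h0.congr (fun z => by
      have : (enc z : D) = D.cons (enc z.1) (enc z.2) := rfl
      rw [this, enc_eq_ofBits, enc_eq_ofBits]
      rfl) fun _ => rfl
  refine ⟨fun z => V z && decide (z.2.length ≤ p.eval z.1.length), p, ?_, ?_, ?_⟩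
  · refine Poly.and h1 ?_
    refine (Poly.isEmpty (Poly.NPC.drop_un (n := fun z : List Bool × List Bool =>
      p.eval z.1.length) Poly.snd (Poly.NPC.un_eval (Poly.NPC.un_length Poly.fst) p))).of_eq ?_
    intro z
    rw [← length_le_un]
  · intro x y hxy
    simp only [Bool.and_eq_true, decide_eq_true_eq] at hxy
    exact hxy.2
  · intro x
    have h2 := h x
    simp only [Bool.and_eq_true, decide_eq_true_eq]
    refine h2.trans ⟨?_, ?_⟩
    · rintro ⟨y, hy1, hy2⟩; exact ⟨y, hy2, hy1⟩
    · rintro ⟨y, hy1, hy2⟩; exact ⟨y, hy2, hy1⟩

end Pool.Agent.TM2Lib.NPC
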