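import Pool.Agent.TM2Lib.Basic
import Pool.Agent.TM2Lib.Data

/-!
# Binary trees as data, their string code, and closure theorems for `Comp`
-/

namespace Pool.Agent.TM2Lib

open Function Turing

open D

section ext
variable {A : Type} [DecidableEq A]

/-- stores of Boolean stacks -/
abbrev BS (A : Type) := A → List Bool

/-- alphabets of Boolean stacks -/
abbrev GB (A : Type) : A → Type := fun _ => Bool

theorem run_of_update {F : Frag A (GB A)} {s u s' : BS A} {n : ℕ} (h : F.Run s u n)
    (e : u = s') : F.Run s s' n := e ▸ h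

theorem mvB (a b : A) (hab : a ≠ b) (s s' : BS A) (x : Bool) (l : List Bool)
    (h : s a = x :: l) (h1 : s' a = l) (h2 : s' b = x :: s b)
    (hm : ∀ m, m ≠ a → m ≠ b → s' m = s m) : (Frag.mv a b id id : Frag A (GB A)).Run s s' 1 := by
  refine run_of_update (Frag.mv_run (Γ := GB A) a b id id s x l h) ?_
  funext m
  by_cases hb : m = b
  · subst hb
    rw [update_self, update_of_ne hab.symm, h2]
    rfl
  · rw [update_of_ne hb]
    by_cases ha : m = a
    · subst ha
      rw [update_self, h1]
    · rw [update_of_ne ha, hm m ha hb]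

theorem pushB (a : A) (x : Bool) (s s' : BS A) (h1 : s' a = x :: s a)
    (hm : ∀ m, m ≠ a → s' m = s m) : (Frag.push a x : Frag A (GB A)).Run s s' 1 := by
  refine run_of_update (Frag.push_run (Γ := GB A) a x s) ?_
  funext m
  by_cases ha : m = a
  · subst ha
    rw [update_self, h1]
  · rw [update_of_ne ha, hm m ha]

theorem popB (a : A) (s s' : BS A) (h1 : s' a = (s a).tail)
    (hm : ∀ m, m ≠ a → s' m = s m) : (Frag.pop a : Frag A (GB A)).Run s s' 1 := by
  refine run_of_update (Frag.pop_run (Γ := GB A) a s) ?_
  funext m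
  by_cases ha : m = a
  · subst ha
    rw [update_self, h1]
  · rw [update_of_ne ha, hm m ha]

theorem moveB (a b : A) (hab : a ≠ b) (s s' : BS A) (x w : List Bool)
    (h : s a = x) (hw : s b = w) (h1 : s' a = []) (h2 : s' b = x.reverse ++ w)
    (hm : ∀ m, m ≠ a → m ≠ b → s' m = s m) :
    (moveAll a b (Equiv.refl Bool) (Equiv.refl Bool).symm : Frag A (GB A)).Run s s'
      (2 * x.length + 1) := by
  refine moveAll_spec (Γ := GB A) a b hab (Equiv.refl Bool) (Equiv.refl Bool) s s' x w ?_ ?_ h1 ?_
    hm
  · rw [map_refl]; exact h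
  · rw [map_refl]; exact hw
  · rw [map_refl]; exact h2

theorem move2B (a b c : A) (hab : a ≠ b) (hac : a ≠ c) (hbc : b ≠ c) (s s' : BS A)
    (x w w' : List Bool)
    (h : s a = x) (hw : s b = w) (hw' : s c = w') (h1 : s' a = []) (h2 : s' b = x.reverse ++ w)
    (h3 : s' c = x.reverse ++ w') (hm : ∀ m, m ≠ a → m ≠ b → m ≠ c → s' m = s m) :
    (moveAll2 a b c (Equiv.refl Bool) (Equiv.refl Bool).symm (Equiv.refl Bool).symm :
      Frag A (GB A)).Run s s' (2 * x.length + 1) := by
  refine moveAll2_spec (Γ := GB A) a b c hab hac hbc (Equiv.refl Bool) (Equiv.refl Bool)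
    (Equiv.refl Bool) s s' x w w' ?_ ?_ ?_ h1 ?_ ?_ hm
  · rw [map_refl]; exact h
  · rw [map_refl]; exact hw
  · rw [map_refl]; exact hw'
  · rw [map_refl]; exact h2
  · rw [map_refl]; exact h3

theorem clearB (a : A) (s s' : BS A) (x : List Bool) (h : s a = x) (h1 : s' a = [])
    (hm : ∀ m, m ≠ a → s' m = s m) :
    (clearAll a : Frag A (GB A)).Run s s' (2 * x.length + 1) := by
  subst h
  exact clearAll_spec (Γ := GB A) a s s' h1 hm

/-- body of the extraction loop -/
def extBody (a b c : A) : Frag A (GB A) :=
  Frag.ite a (fun o => o == some true) ((Frag.mv a b id id).seq (Frag.push c true))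
    ((Frag.mv a b id id).seq (Frag.pop c))

/-- Extract the first tree from the stack `a`, pushing it (reversed) on `b`; `c` is a scratch
stack. -/
def ext (a b c : A) : Frag A (GB A) :=
  (Frag.push c true).seq (Frag.whl c (fun o => o.isSome) (extBody a b c))

/-- three distinct stacks updated -/
def set3 (a b c : A) (s : BS A) (x y z : List Bool) : BS A :=
  update (update (update s a x) b y) c z

section set3
variable {a b c : A} (hab : a ≠ b) (hac : a ≠ c) (hbc : b ≠ c) (s : BS A) (x y z : List Bool)
include hab hac hbc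

theorem set3_a : set3 a b c s x y z a = x := by
  unfold set3; rw [update_of_ne hac, update_of_ne hab, update_self]

theorem set3_b : set3 a b c s x y z b = y := by
  unfold set3; rw [update_of_ne hbc, update_self]

theorem set3_c : set3 a b c s x y z c = z := by
  unfold set3; rw [update_self]

omit hab hac hbc in
theorem set3_m {m : A} (h1 : m ≠ a) (h2 : m ≠ b) (h3 : m ≠ c) :
    set3 a b c s x y z m = s m := by
  unfold set3; rw [update_of_ne h3, update_of_ne h2, update_of_ne h1]

theorem set3_eq (t : BS A) (h1 : t a = x) (h2 : t b = y) (h3 : t c = z)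
    (hm : ∀ m, m ≠ a → m ≠ b → m ≠ c → t m = s m) : set3 a b c s x y z = t := by
  funext m
  by_cases ha : m = a
  · subst ha; rw [set3_a hab hac hbc, h1]
  · by_cases hb : m = b
    · subst hb; rw [set3_b hab hac hbc, h2]
    · by_cases hc : m = c
      · subst hc; rw [set3_c hab hac hbc, h3]
      · rw [set3_m s x y z ha hb hc, hm m ha hb hc]

end set3

theorem ext_loop (a b c : A) (hab : a ≠ b) (hac : a ≠ c) (hbc : b ≠ c) (x : D) :
    ∀ (s s2 : BS A) (rest w cs : List Bool) (m : ℕ),
      (Frag.whl c (fun o => o.isSome) (extBody a b c)).Run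
        (set3 a b c s rest ((encD x).reverse ++ w) cs) s2 m →
      (Frag.whl c (fun o => o.isSome) (extBody a b c)).Run
        (set3 a b c s (encD x ++ rest) w (true :: cs)) s2 (m + 4 * x.size) := by
  induction x with
  | nil =>
    intro s s2 rest w cs m h
    have r1 : (Frag.mv a b id id : Frag A (GB A)).Run
        (set3 a b c s (encD nil ++ rest) w (true :: cs))
        (set3 a b c s rest (false :: w) (true :: cs)) 1 := by
      refine mvB a b hab _ _ false rest ?_ ?_ ?_ ?_
      · rw [set3_a hab hac hbc]; rfl
      · rw [set3_a hab hac hbc]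
      · rw [set3_b hab hac hbc, set3_b hab hac hbc]
      · intro k h1 h2
        by_cases h3 : k = c
        · subst h3; rw [set3_c hab hac hbc, set3_c hab hac hbc]
        · rw [set3_m s _ _ _ h1 h2 h3, set3_m s _ _ _ h1 h2 h3]
    have r2 : (Frag.pop c : Frag A (GB A)).Run
        (set3 a b c s rest (false :: w) (true :: cs))
        (set3 a b c s rest ((encD nil).reverse ++ w) cs) 1 := by
      refine popB c _ _ ?_ ?_
      · rw [set3_c hab hac hbc, set3_c hab hac hbc]; rfl
      · intro k h3
        by_cases h1 : k = a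
        · subst h1; rw [set3_a hab hac hbc, set3_a hab hac hbc]
        · by_cases h2 : k = b
          · subst h2; rw [set3_b hab hac hbc, set3_b hab hac hbc]; rfl
          · rw [set3_m s _ _ _ h1 h2 h3, set3_m s _ _ _ h1 h2 h3]
    have r3 : (extBody a b c).Run (set3 a b c s (encD nil ++ rest) w (true :: cs))
        (set3 a b c s rest ((encD nil).reverse ++ w) cs) (1 + 1 + 1) :=
      Frag.ite_false (by rw [set3_a hab hac hbc]; rfl) (Frag.seq_run r1 r2)
    have r5 := Frag.whl_go (c := fun o => o.isSome) (k := c)
      (by rw [set3_c hab hac hbc]; rfl) r3 h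
    refine r5.congr rfl ?_
    simp
    ring
  | cons u v ihu ihv =>
    intro s s2 rest w cs m h
    have r1 : (Frag.mv a b id id : Frag A (GB A)).Run
        (set3 a b c s (encD (cons u v) ++ rest) w (true :: cs))
        (set3 a b c s (encD u ++ (encD v ++ rest)) (true :: w) (true :: cs)) 1 := by
      refine mvB a b hab _ _ true (encD u ++ (encD v ++ rest)) ?_ ?_ ?_ ?_
      · rw [set3_a hab hac hbc]; simp [encD]
      · rw [set3_a hab hac hbc]
      · rw [set3_b hab hac hbc, set3_b hab hac hbc]
      · intro k h1 h2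
        by_cases h3 : k = c
        · subst h3; rw [set3_c hab hac hbc, set3_c hab hac hbc]
        · rw [set3_m s _ _ _ h1 h2 h3, set3_m s _ _ _ h1 h2 h3]
    have r2 : (Frag.push c true : Frag A (GB A)).Run
        (set3 a b c s (encD u ++ (encD v ++ rest)) (true :: w) (true :: cs))
        (set3 a b c s (encD u ++ (encD v ++ rest)) (true :: w) (true :: true :: cs)) 1 := by
      refine pushB c true _ _ ?_ ?_
      · rw [set3_c hab hac hbc, set3_c hab hac hbc]
      · intro k h3
        by_cases h1 : k = a
        · subst h1; rw [set3_a hab hac hbc, set3_a hab hac hbc]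
        · by_cases h2 : k = b
          · subst h2; rw [set3_b hab hac hbc, set3_b hab hac hbc]
          · rw [set3_m s _ _ _ h1 h2 h3, set3_m s _ _ _ h1 h2 h3]
    have r3 : (extBody a b c).Run (set3 a b c s (encD (cons u v) ++ rest) w (true :: cs))
        (set3 a b c s (encD u ++ (encD v ++ rest)) (true :: w) (true :: true :: cs))
        (1 + 1 + 1) :=
      Frag.ite_true (by rw [set3_a hab hac hbc]; rfl) (Frag.seq_run r1 r2)
    have h' : (Frag.whl c (fun o => o.isSome) (extBody a b c)).Run
        (set3 a b c s rest ((encD v).reverse ++ ((encD u).reverse ++ (true :: w))) cs) s2 m := by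
      have e : (encD (cons u v)).reverse ++ w =
          (encD v).reverse ++ ((encD u).reverse ++ (true :: w)) := by
        simp [encD]
      rw [← e]
      exact h
    have h2 := ihv s s2 rest ((encD u).reverse ++ (true :: w)) cs m h'
    have h3 := ihu s s2 (encD v ++ rest) (true :: w) (true :: cs) _ h2
    have r5 := Frag.whl_go (c := fun o => o.isSome) (k := c)
      (by rw [set3_c hab hac hbc]; rfl) r3 h3
    refine r5.congr rfl ?_
    simp only [size_cons]
    ring

/-- specification of `ext` -/
theorem ext_spec (a b c : A) (hab : a ≠ b) (hac : a ≠ c) (hbc : b ≠ c) (x : D)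
    (s s' : BS A) (rest w : List Bool) (h1 : s a = encD x ++ rest) (h2 : s b = w)
    (h3 : s c = []) (h1' : s' a = rest) (h2' : s' b = (encD x).reverse ++ w) (h3' : s' c = [])
    (hm : ∀ m, m ≠ a → m ≠ b → m ≠ c → s' m = s m) :
    (ext a b c).Run s s' (4 * x.size + 2) := by
  have r1 : (Frag.push c true : Frag A (GB A)).Run s
      (set3 a b c s (encD x ++ rest) w [true]) 1 := by
    refine pushB c true _ _ ?_ ?_
    · rw [set3_c hab hac hbc, h3]
    · intro k h3
      by_cases h1 : k = a
      · subst h1; rw [set3_a hab hac hbc, h1]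
      · by_cases h2 : k = b
        · subst h2; rw [set3_b hab hac hbc, h2]
        · rw [set3_m s _ _ _ h1 h2 h3]
  have e2 : set3 a b c s rest ((encD x).reverse ++ w) [] = s' :=
    set3_eq hab hac hbc s _ _ _ s' h1' h2' h3' hm
  have r2 : (Frag.whl c (fun o => o.isSome) (extBody a b c)).Run
      (set3 a b c s rest ((encD x).reverse ++ w) []) s' 1 := by
    rw [e2]
    exact Frag.whl_stop (by rw [h3']; rfl)
  have r3 := ext_loop a b c hab hac hbc x s s' rest w [] 1 r2
  refine (Frag.seq_run r1 r3).congr rfl ?_
  ring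

end ext

end Pool.Agent.TM2Lib
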